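import Mathlib

/-!
Combinatorial core of the power-loss counterexample: from a lattice with bounded covolume
(ring of integers of a number field with bounded root discriminant) to a finite configuration
of frequencies with large additive energy and few almost collinear differences.
-/

set_option autoImplicit false

section

namespace Pool.Agent.MT8

open Finset

/-- The lattice facts that are used. -/
structure IsLat {O V W : Type} [CommRing O] [CommRing V] [Fintype W] (n : ℕ) (Δ : ℝ)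
    (ι : O →+* V) (ev : W → V →+* ℂ) (w0 : W) (r0 : V →+* ℝ) (bl : V → ℝ → Finset O) :
    Prop where
  sec : ∀ a : W → ℝ, ∃ x : V, ∀ w, ev w x = a w
  real : ∀ x, ev w0 x = r0 x
  card_le : Fintype.card W ≤ n
  le_card : n ≤ 2 * Fintype.card W
  inj : ∀ w a, ev w (ι a) = 0 → a = 0
  low : ∀ a, a ≠ 0 → ∀ B : ℝ, 1 ≤ B → (∀ w, ‖ev w (ι a)‖ ≤ B) → 1 ≤ |r0 (ι a)| * B ^ n
  mem_bl : ∀ c r a, 0 < r → (a ∈ bl c r ↔ ∀ w, ‖ev w (ι a) - ev w c‖ < r)
  pack : ∀ c r, 0 < r → ((bl c r).card : ℝ) ≤ (2 * r + 1) ^ n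
  avg : ∀ {J : Type} (s : Finset J) (p : J → V) (r : ℝ), 0 < r →
    ∃ ν : V, (s.card : ℝ) * r ^ n ≤ Δ ^ n * ∑ j ∈ s, ((bl (ν + p j) r).card : ℝ)

/-- The finite configuration handed to the analytic part. -/
def Good (n : ℕ) (B C γ : ℝ) : Prop :=
  ∃ (α β : Type) (S : Finset α) (Q : Finset β) (θ : α → ℝ) (u v : β → ℝ) (I : ℝ),
    γ ^ n ≤ S.card ∧ (S.card : ℝ) ≤ B ^ n ∧ (Q.card : ℝ) ≤ B ^ n ∧ 1 ≤ I ∧
    (∀ a ∈ S, |θ a| ≤ B) ∧ (∀ a ∈ S, ∀ a' ∈ S, a ≠ a' → 1 ≤ |θ a - θ a'| * B ^ n) ∧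
    (∀ s : ℝ, (((Q ×ˢ Q).filter fun p =>
      |v p.1 - v p.2 - s * (u p.1 - u p.2)| * B ^ n < 1).card : ℝ) ≤ I) ∧
    (S.card : ℝ) ^ 2 * I ≤ C ^ n * (((S ×ˢ Q) ×ˢ (S ×ˢ Q)).filter fun p =>
      θ p.1.1 + u p.1.2 = θ p.2.1 + u p.2.2 ∧
        θ p.1.1 ^ 2 + v p.1.2 = θ p.2.1 ^ 2 + v p.2.2).card ∧
    ∀ p ∈ S ×ˢ Q, ∀ p' ∈ S ×ˢ Q,
      (θ p.1 + u p.2 = θ p'.1 + u p'.2 ∧ θ p.1 ^ 2 + v p.2 = θ p'.1 ^ 2 + v p'.2) ∨
      1 ≤ |θ p.1 + u p.2 - (θ p'.1 + u p'.2)| * B ^ n ∨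
      1 ≤ |θ p.1 ^ 2 + v p.2 - (θ p'.1 ^ 2 + v p'.2)| * B ^ n

/-- Lacunary nodes. -/
noncomputable def tt (N i : ℕ) : ℝ := 9 ^ (N + 2 + i)

/-- The size of the largest node. -/
noncomputable def TT (N : ℕ) : ℝ := 9 ^ (2 * N + 1)

lemma tt_pos (N i : ℕ) : 0 < tt N i := by unfold tt; positivity

lemma one_le_TT (N : ℕ) : 1 ≤ TT N := one_le_pow₀ (by norm_num)

lemma tt_le {N i : ℕ} (hi : i < N) : tt N i ≤ TT N :=
  pow_le_pow_right₀ (by norm_num) (by omega)

lemma tt_ge (N i : ℕ) : 81 ≤ tt N i := by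
  have : (9 : ℝ) ^ 2 ≤ 9 ^ (N + 2 + i) := pow_le_pow_right₀ (by norm_num) (by omega)
  unfold tt; linarith

lemma tt_sq_ge (N i : ℕ) : 729 * TT N ≤ tt N i ^ 2 := by
  unfold tt TT
  rw [← pow_mul, show (729 : ℝ) = 9 ^ 3 by norm_num, ← pow_add]
  exact pow_le_pow_right₀ (by norm_num) (by omega)

lemma tt_lac (N : ℕ) {i j : ℕ} (h : i < j) : 9 * tt N i ≤ tt N j := by
  unfold tt
  rw [← pow_succ']
  exact pow_le_pow_right₀ (by norm_num) (by omega)

lemma sum_tt_le (N j : ℕ) : ∑ i ∈ range j, tt N i ≤ tt N j / 8 := by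
  induction j with
  | zero => simp; exact div_nonneg (tt_pos _ _).le (by norm_num)
  | succ j ih =>
    rw [sum_range_succ]
    have := tt_lac N (Nat.lt_succ_self j)
    linarith

/-- The dominant term in a lacunary sum. -/
lemma dominant (N j : ℕ) (σ : ℂ) (ε : ℕ → ℂ) (hε : ∀ i, ‖ε i‖ ≤ 1) (hj : ‖ε j‖ = 1)
    (hσ : (tt N j + ‖σ‖) / 4 ≤ ‖(tt N j : ℂ) - σ‖) :
    24 * TT N + 8 * ‖σ‖ ≤ ‖∑ i ∈ range (j + 1), ε i * (tt N i * (tt N i - σ))‖ := by
  rw [sum_range_succ]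
  have hp := tt_pos N j
  have h1 : ‖∑ i ∈ range j, ε i * (tt N i * (tt N i - σ))‖ ≤ tt N j / 8 * (tt N j + ‖σ‖) := by
    refine (norm_sum_le _ _).trans ?_
    refine le_trans (sum_le_sum (g := fun i => tt N i * (tt N j + ‖σ‖)) fun i hi => ?_) ?_
    · have hi' := tt_lac N (mem_range.mp hi)
      have hpi := tt_pos N i
      rw [norm_mul, norm_mul, Complex.norm_real, Real.norm_of_nonneg hpi.le]
      have h2 : ‖(tt N i : ℂ) - σ‖ ≤ tt N j + ‖σ‖ := by
        refine (norm_sub_le _ _).trans ?_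
        rw [Complex.norm_real, Real.norm_of_nonneg hpi.le]
        linarith
      calc ‖ε i‖ * (tt N i * ‖(tt N i : ℂ) - σ‖) ≤ 1 * (tt N i * (tt N j + ‖σ‖)) := by
            gcongr
            exact hε i
        _ = _ := one_mul _
    · rw [← sum_mul]
      have := sum_tt_le N j
      gcongr
  have h2 : tt N j * ((tt N j + ‖σ‖) / 4) ≤ ‖ε j * (tt N j * (tt N j - σ))‖ := by
    rw [norm_mul, hj, one_mul, norm_mul, Complex.norm_real, Real.norm_of_nonneg hp.le]
    gcongr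
  have h3 := norm_sub_norm_le (ε j * (tt N j * (tt N j - σ)))
    (-∑ i ∈ range j, ε i * (tt N i * (tt N i - σ)))
  rw [norm_neg, sub_neg_eq_add, add_comm] at h3
  have h4 := tt_sq_ge N j
  have h5 := tt_ge N j
  have h6 := one_le_TT N
  have h7 : 81 * ‖σ‖ ≤ tt N j * ‖σ‖ := by gcongr
  nlinarith [norm_nonneg σ]

/-- At most two subsets give an almost vanishing lacunary sum along a given slope. -/
lemma cairo (N : ℕ) (σ z : ℂ) :
    (((range N).powerset).filter fun c =>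
      ‖z - ∑ i ∈ c, (tt N i : ℂ) * (tt N i - σ)‖ < 12 * TT N + 4 * ‖σ‖).card ≤ 2 := by
  classical
  let X : ℕ → Prop := fun i => ‖(tt N i : ℂ) - σ‖ < (tt N i + ‖σ‖) / 4
  have hX : ∀ i j, X i → X j → i = j := by
    have aux : ∀ i j, i < j → X i → X j → False := by
      intro i j hij hi hj
      have h1 := tt_lac N hij
      have h2 := norm_sub_norm_le (σ) (tt N i : ℂ)
      have h3 := norm_sub_norm_le (tt N j : ℂ) σ
      rw [norm_sub_rev] at h2
      rw [Complex.norm_real, Real.norm_of_nonneg (tt_pos _ _).le] at h2 h3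
      have := tt_pos N i
      simp only [X] at hi hj
      linarith
    intro i j hi hj
    rcases lt_trichotomy i j with h | h | h
    · exact (aux i j h hi hj).elim
    · exact h
    · exact (aux j i h hj hi).elim
  have : (univ : Finset Prop).card = 2 := by simp
  refine le_trans (card_le_card_of_injOn (fun c => ∃ i ∈ c, X i)
    (fun _ _ => mem_coe.mpr (mem_univ _)) ?_) this.le
  intro c hc c' hc' hcc
  simp only [coe_filter, mem_powerset, Set.mem_ofPred_eq, eq_iff_iff] at hc hc' hcc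
  by_contra hne
  have hD : (symmDiff c c').Nonempty := by
    rw [nonempty_iff_ne_empty]
    intro h
    exact hne (symmDiff_eq_bot.mp h)
  set j := (symmDiff c c').max' hD with hjdef
  have hj : j ∈ symmDiff c c' := max'_mem _ _
  have hjX : ¬ X j := by
    intro hx
    rcases mem_symmDiff.mp hj with ⟨h1, h2⟩ | ⟨h1, h2⟩
    · obtain ⟨i, hi, hi'⟩ := hcc.mp ⟨j, h1, hx⟩
      exact h2 (hX i j hi' hx ▸ hi)
    · obtain ⟨i, hi, hi'⟩ := hcc.mpr ⟨j, h1, hx⟩
      exact h2 (hX i j hi' hx ▸ hi)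
  let ε : ℕ → ℂ := fun i => (if i ∈ c then 1 else 0) - (if i ∈ c' then 1 else 0)
  have hε : ∀ i, ‖ε i‖ ≤ 1 := by
    intro i
    simp only [ε]
    split_ifs <;> simp
  have hεj : ‖ε j‖ = 1 := by
    simp only [ε]
    rcases mem_symmDiff.mp hj with ⟨h1, h2⟩ | ⟨h1, h2⟩ <;> simp [h1, h2]
  have hd := dominant N j σ ε hε hεj (not_lt.mp hjX)
  have hjN : j < N := by
    rcases mem_symmDiff.mp hj with ⟨h1, -⟩ | ⟨h1, -⟩
    · exact mem_range.mp (hc.1 h1)
    · exact mem_range.mp (hc'.1 h1)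
  have hs : ∑ i ∈ range (j + 1), ε i * (tt N i * (tt N i - σ)) =
      ∑ i ∈ c, (tt N i : ℂ) * (tt N i - σ) - ∑ i ∈ c', (tt N i : ℂ) * (tt N i - σ) := by
    rw [sum_subset (s₁ := range (j + 1)) (s₂ := range N) (range_subset_range.mpr hjN)]
    · simp only [ε, sub_mul, sum_sub_distrib, ite_mul, one_mul, zero_mul, sum_ite_mem]
      rw [inter_eq_right.mpr hc.1, inter_eq_right.mpr hc'.1]
    · intro i _ hi
      have hi' : i ∉ symmDiff c c' := by
        intro h
        have := le_max' _ _ h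
        exact hi (mem_range.mpr (by omega))
      have : ε i = 0 := by
        simp only [mem_symmDiff, not_or, not_and, not_not] at hi'
        simp only [ε]
        by_cases h1 : i ∈ c
        · simp [h1, hi'.1 h1]
        · have : i ∉ c' := fun h => h1 (hi'.2 h)
          simp [h1, this]
      rw [this, zero_mul]
  rw [hs] at hd
  have h5 := norm_sub_le (z - ∑ i ∈ c', (tt N i : ℂ) * (tt N i - σ))
    (z - ∑ i ∈ c, (tt N i : ℂ) * (tt N i - σ))
  rw [sub_sub_sub_cancel_left] at h5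
  linarith [hc.2, hc'.2]

lemma card_mem_powerset {N i : ℕ} (hi : i < N) :
    2 ^ N ≤ 2 * (((range N).powerset).filter fun c => i ∈ c).card := by
  have h1 : (((range N).erase i).powerset).card ≤
      (((range N).powerset).filter fun c => i ∈ c).card := by
    refine card_le_card_of_injOn (fun c => insert i c) ?_ ?_
    · intro c hc
      simp only [coe_powerset, Set.mem_preimage, Set.mem_powerset_iff, coe_subset, coe_filter,
        mem_powerset, Set.mem_ofPred_eq] at hc ⊢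
      exact ⟨insert_subset (mem_range.mpr hi) (hc.trans (erase_subset _ _)), mem_insert_self _ _⟩
    · intro c hc c' hc' h
      simp only [coe_powerset, Set.mem_preimage, Set.mem_powerset_iff, coe_subset] at hc hc'
      have h1 : i ∉ c := fun h => by simpa using hc h
      have h2 : i ∉ c' := fun h => by simpa using hc' h
      rw [← erase_insert h1, ← erase_insert h2]
      exact congrArg (fun s => s.erase i) h
  rw [card_powerset, card_erase_of_mem (mem_range.mpr hi), card_range] at h1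
  have : 2 ^ N = 2 * 2 ^ (N - 1) := by
    rw [← pow_succ']; congr 1; omega
  omega

section Lattice

variable {O V W : Type} [CommRing O] [CommRing V] [Fintype W] [DecidableEq W] {n : ℕ} {Δ : ℝ}
  {ι : O →+* V} {ev : W → V →+* ℂ} {w0 : W} {r0 : V →+* ℝ} {bl : V → ℝ → Finset O}

omit [DecidableEq W] in
lemma IsLat.abs_le (h : IsLat n Δ ι ev w0 r0 bl) {x : V} {H : ℝ} (hx : ‖ev w0 x‖ ≤ H) :
    |r0 x| ≤ H := by
  rwa [h.real, Complex.norm_real, Real.norm_eq_abs] at hx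

omit [DecidableEq W] in
/-- Almost collinear bounded lattice vectors lie on one line. -/
lemma IsLat.exists_slope (h : IsLat n Δ ι ev w0 r0 bl) (hn : 1 ≤ n) (τ : V) (s : ℝ) {H B : ℝ}
    (hH : 1 ≤ H) (hB : 4 * H ^ 3 ≤ B) (P : Set (O × O))
    (h1 : ∀ d ∈ P, ∀ w, ‖ev w (ι d.1)‖ ≤ H)
    (h2 : ∀ d ∈ P, ∀ w, ‖ev w (ι d.2 - 2 * τ * ι d.1)‖ ≤ H)
    (h3 : ∀ d ∈ P, |r0 (ι d.2 - 2 * τ * ι d.1) - s * r0 (ι d.1)| * B ^ n < 1) :
    ∃ σ : W → ℂ, ∀ d ∈ P, ∀ w, ev w (ι d.2 - 2 * τ * ι d.1) = σ w * ev w (ι d.1) := by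
  have hH3 : H ≤ H ^ 3 := le_self_pow₀ hH (by norm_num)
  have hB0 : 0 < B := by linarith
  by_cases hex : ∃ e ∈ P, e.1 ≠ 0
  · obtain ⟨e, he, he0⟩ := hex
    refine ⟨fun w => ev w (ι e.2 - 2 * τ * ι e.1) / ev w (ι e.1), fun d hd w => ?_⟩
    have hne : ev w (ι e.1) ≠ 0 := fun h0 => he0 (h.inj w _ h0)
    have hdet : d.1 * e.2 - e.1 * d.2 = 0 := by
      by_contra hdet
      have e1 : ι (d.1 * e.2 - e.1 * d.2) =
          ι d.1 * (ι e.2 - 2 * τ * ι e.1) - ι e.1 * (ι d.2 - 2 * τ * ι d.1) := by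
        simp only [map_sub, map_mul]; ring
      have hl := h.low _ hdet (2 * H ^ 2) (by nlinarith) (fun w => by
        rw [e1, map_sub, map_mul, map_mul]
        refine (norm_sub_le _ _).trans ?_
        rw [norm_mul, norm_mul]
        have a1 := mul_le_mul (h1 d hd w) (h2 e he w) (norm_nonneg _) (by linarith)
        have a2 := mul_le_mul (h1 e he w) (h2 d hd w) (norm_nonneg _) (by linarith)
        nlinarith)
      have e2 : r0 (ι (d.1 * e.2 - e.1 * d.2)) =
          r0 (ι d.1) * (r0 (ι e.2 - 2 * τ * ι e.1) - s * r0 (ι e.1)) -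
            r0 (ι e.1) * (r0 (ι d.2 - 2 * τ * ι d.1) - s * r0 (ι d.1)) := by
        rw [e1, map_sub, map_mul, map_mul]; ring
      have a1 := h.abs_le (h1 d hd w0)
      have a2 := h.abs_le (h1 e he w0)
      have a3 := h3 d hd
      have a4 := h3 e he
      set x := |r0 (ι d.2 - 2 * τ * ι d.1) - s * r0 (ι d.1)| with hx
      set y := |r0 (ι e.2 - 2 * τ * ι e.1) - s * r0 (ι e.1)| with hy
      have a5 : |r0 (ι (d.1 * e.2 - e.1 * d.2))| ≤ H * y + H * x := by
        rw [e2]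
        refine (abs_sub _ _).trans ?_
        rw [abs_mul, abs_mul]
        gcongr
      have hBn : 0 < B ^ n := by positivity
      have a6 : |r0 (ι (d.1 * e.2 - e.1 * d.2))| * B ^ n < 2 * H := by
        calc _ ≤ (H * y + H * x) * B ^ n := by gcongr
          _ = H * (y * B ^ n) + H * (x * B ^ n) := by ring
          _ < H * 1 + H * 1 := by gcongr
          _ = _ := by ring
      have a7 : 2 * H * (2 * H ^ 2) ^ n ≤ B ^ n := by
        calc 2 * H * (2 * H ^ 2) ^ n ≤ (2 * H) ^ n * (2 * H ^ 2) ^ n := by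
              gcongr
              exact le_self_pow₀ (by linarith) (by omega)
          _ = (4 * H ^ 3) ^ n := by rw [← mul_pow]; congr 1; ring
          _ ≤ B ^ n := by gcongr
      have a8 : 0 < (2 * H ^ 2) ^ n := by positivity
      have a9 : B ^ n ≤ |r0 (ι (d.1 * e.2 - e.1 * d.2))| * B ^ n * (2 * H ^ 2) ^ n := by
        calc B ^ n = 1 * B ^ n := (one_mul _).symm
          _ ≤ (|r0 (ι (d.1 * e.2 - e.1 * d.2))| * (2 * H ^ 2) ^ n) * B ^ n := by gcongr
          _ = _ := by ring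
      have a10 := mul_lt_mul_of_pos_right a6 a8
      linarith
    have e3 := congrArg (fun a => ev w (ι a)) hdet
    simp only [map_sub, map_mul, map_zero] at e3 ⊢
    field_simp
    linear_combination -e3
  · refine ⟨fun _ => 0, fun d hd w => ?_⟩
    have hd1 : d.1 = 0 := by
      by_contra h0
      exact hex ⟨d, hd, h0⟩
    have hd2 : d.2 = 0 := by
      by_contra h0
      have a1 := h.low _ h0 H hH (fun w => by simpa [hd1] using h2 d hd w)
      have a2 : |r0 (ι d.2)| * B ^ n < 1 := by simpa [hd1] using h3 d hd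
      have a3 : |r0 (ι d.2)| * H ^ n ≤ |r0 (ι d.2)| * B ^ n := by
        gcongr
        linarith
      linarith
    simp [hd1, hd2]

/-- Index set of the clusters of a box. -/
noncomputable def cube (W : Type) [Fintype W] [DecidableEq W] (N : ℕ) : Finset (W → Finset ℕ) :=
  Fintype.piFinset fun _ => (range N).powerset

lemma card_cube (N : ℕ) : (cube W N).card = (2 ^ N) ^ Fintype.card W := by
  simp [cube, Fintype.card_piFinset]

lemma mem_cube {N : ℕ} {c : W → Finset ℕ} : c ∈ cube W N ↔ ∀ w, c w ⊆ range N := by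
  simp [cube, Fintype.mem_piFinset]

/-- Points of the sheared lattice near the clusters. -/
noncomputable def box (ι : O →+* V) (bl : V → ℝ → Finset O) (N : ℕ)
    (x1 x2 : (W → Finset ℕ) → V) (τ μ1 μ2 : V) (r1 r2 : ℝ) :
    Finset (Σ _ : W → Finset ℕ, Σ _ : O, O) :=
  (cube W N).sigma fun c => (bl (μ1 + x1 c) r1).sigma fun a =>
    bl (μ2 + (x2 c + 2 * τ * ι a)) r2

lemma IsLat.card_box (h : IsLat n Δ ι ev w0 r0 bl) (N : ℕ) (x1 x2 : (W → Finset ℕ) → V)
    (τ μ1 μ2 : V) {r1 r2 : ℝ} (h1 : 0 < r1) (h2 : 0 < r2) :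
    ((box ι bl N x1 x2 τ μ1 μ2 r1 r2).card : ℝ) ≤
      (2 ^ N) ^ Fintype.card W * ((2 * r1 + 1) ^ n * (2 * r2 + 1) ^ n) := by
  rw [box, card_sigma, Nat.cast_sum]
  refine (sum_le_card_nsmul _ _ ((2 * r1 + 1) ^ n * (2 * r2 + 1) ^ n) fun c _ => ?_).trans ?_
  · rw [card_sigma, Nat.cast_sum]
    refine (sum_le_card_nsmul _ _ ((2 * r2 + 1) ^ n) fun a _ => h.pack _ _ h2).trans ?_
    rw [nsmul_eq_mul]
    gcongr
    exact h.pack _ _ h1
  · rw [card_cube, nsmul_eq_mul]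
    push_cast
    exact le_rfl

lemma IsLat.mem_box (h : IsLat n Δ ι ev w0 r0 bl) {N : ℕ} {x1 x2 : (W → Finset ℕ) → V}
    {τ μ1 μ2 : V} {r1 r2 : ℝ} (h1 : 0 < r1) (h2 : 0 < r2) {q : Σ _ : W → Finset ℕ, Σ _ : O, O} :
    q ∈ box ι bl N x1 x2 τ μ1 μ2 r1 r2 ↔ (∀ w, q.1 w ⊆ range N) ∧
      (∀ w, ‖ev w (ι q.2.1) - ev w μ1 - ev w (x1 q.1)‖ < r1) ∧
      ∀ w, ‖ev w (ι q.2.2 - 2 * τ * ι q.2.1) - ev w μ2 - ev w (x2 q.1)‖ < r2 := by
  simp only [box, mem_sigma, mem_cube, h.mem_bl _ _ _ h1, h.mem_bl _ _ _ h2, map_add, map_sub,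
    sub_add_eq_sub_sub]
  refine and_congr_right fun _ => and_congr_right fun _ => forall_congr' fun w => ?_
  rw [show ev w (ι q.2.2) - ev w μ2 - ev w (x2 q.1) - ev w (2 * τ * ι q.2.1) =
    ev w (ι q.2.2) - ev w (2 * τ * ι q.2.1) - ev w μ2 - ev w (x2 q.1) by ring]

lemma sum_tt_bound {N : ℕ} {c : Finset ℕ} (hc : c ⊆ range N) :
    0 ≤ ∑ i ∈ c, tt N i ∧ ∑ i ∈ c, tt N i ≤ N * TT N := by
  refine ⟨sum_nonneg fun i _ => (tt_pos _ _).le, ?_⟩
  refine (sum_le_card_nsmul _ _ (TT N) fun i hi => tt_le (mem_range.mp (hc hi))).trans ?_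
  rw [nsmul_eq_mul]
  have : c.card ≤ N := by simpa using card_le_card hc
  have h2 := one_le_TT N
  gcongr

lemma sum_tt_sq_bound {N : ℕ} {c : Finset ℕ} (hc : c ⊆ range N) :
    0 ≤ ∑ i ∈ c, tt N i ^ 2 ∧ ∑ i ∈ c, tt N i ^ 2 ≤ N * TT N ^ 2 := by
  refine ⟨sum_nonneg fun i _ => by positivity, ?_⟩
  refine (sum_le_card_nsmul _ _ (TT N ^ 2) fun i hi => ?_).trans ?_
  · have := tt_le (mem_range.mp (hc hi))
    have := tt_pos N i
    gcongr
  rw [nsmul_eq_mul]
  have : c.card ≤ N := by simpa using card_le_card hc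
  gcongr

lemma norm_diff_le {a a' m : ℂ} {x x' r X : ℝ} (h : ‖a - m - x‖ < r) (h' : ‖a' - m - x'‖ < r)
    (hx : 0 ≤ x ∧ x ≤ X) (hx' : 0 ≤ x' ∧ x' ≤ X) : ‖a - a'‖ ≤ X + 2 * r := by
  have e : a - a' = ((x - x' : ℝ) : ℂ) + ((a - m - x) - (a' - m - x')) := by
    push_cast; ring
  rw [e]
  refine (norm_add_le _ _).trans ?_
  have h1 := norm_sub_le (a - m - x) (a' - m - x')
  have h2 : ‖((x - x' : ℝ) : ℂ)‖ ≤ X := by
    rw [Complex.norm_real, Real.norm_eq_abs, abs_le]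
    constructor <;> linarith [hx.1, hx.2, hx'.1, hx'.2]
  linarith

/-- Few points of the box lie on a given line through a given point of the box. -/
lemma IsLat.card_line (h : IsLat n Δ ι ev w0 r0 bl) {N : ℕ} {x1 x2 : (W → Finset ℕ) → V}
    (hx1 : ∀ c w, ev w (x1 c) = (∑ i ∈ c w, tt N i : ℝ))
    (hx2 : ∀ c w, ev w (x2 c) = (∑ i ∈ c w, tt N i ^ 2 : ℝ)) (τ μ1 μ2 : V) (σ : W → ℂ)
    {q : Σ _ : W → Finset ℕ, Σ _ : O, O} (hq : q ∈ box ι bl N x1 x2 τ μ1 μ2 2 (6 * TT N))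
    (F : Finset (Σ _ : W → Finset ℕ, Σ _ : O, O))
    (hF : ∀ q' ∈ F, q' ∈ box ι bl N x1 x2 τ μ1 μ2 2 (6 * TT N) ∧
      ∀ w, ev w (ι (q.2.2 - q'.2.2) - 2 * τ * ι (q.2.1 - q'.2.1)) =
        σ w * ev w (ι (q.2.1 - q'.2.1))) :
    (F.card : ℝ) ≤ 10 ^ n := by
  classical
  have hT := one_le_TT N
  let C : W → Finset (Finset ℕ) := fun w => ((range N).powerset).filter fun c =>
    ‖(∑ i ∈ q.1 w, (tt N i : ℂ) * (tt N i - σ w)) - ∑ i ∈ c, (tt N i : ℂ) * (tt N i - σ w)‖ <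
      12 * TT N + 4 * ‖σ w‖
  have h1 : F.card ≤ ((Fintype.piFinset C).sigma fun c => bl (μ1 + x1 c) 2).card := by
    refine card_le_card_of_injOn (fun q' => ⟨q'.1, q'.2.1⟩) ?_ ?_
    · intro q' hq'
      obtain ⟨hb, hl⟩ := hF q' hq'
      have hb0 := hb
      rw [h.mem_box (by norm_num) (by linarith)] at hb hq
      simp only [coe_sigma, Set.mem_sigma_iff, mem_coe, Fintype.mem_piFinset]
      refine ⟨fun w => ?_, ?_⟩
      · simp only [C, mem_filter, mem_powerset]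
        refine ⟨hb.1 w, ?_⟩
        have a1 := hq.2.1 w
        have a2 := hq.2.2 w
        have a3 := hb.2.1 w
        have a4 := hb.2.2 w
        have a5 := hl w
        rw [hx1] at a1 a3
        rw [hx2] at a2 a4
        have e : ∀ c : Finset ℕ, ∑ i ∈ c, (tt N i : ℂ) * (tt N i - σ w) =
            (∑ i ∈ c, tt N i ^ 2 : ℝ) - σ w * (∑ i ∈ c, tt N i : ℝ) := by
          intro c
          push_cast
          rw [mul_sum, ← sum_sub_distrib]
          exact sum_congr rfl fun i _ => by ring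
        rw [e, e]
        simp only [map_sub, map_mul] at a1 a2 a3 a4 a5
        set A := ev w (ι q.2.1)
        set A' := ev w (ι q'.2.1)
        set y1 : ℂ := ((∑ i ∈ q.1 w, tt N i : ℝ) : ℂ)
        set y1' : ℂ := ((∑ i ∈ q'.1 w, tt N i : ℝ) : ℂ)
        set y2 : ℂ := ((∑ i ∈ q.1 w, tt N i ^ 2 : ℝ) : ℂ)
        set y2' : ℂ := ((∑ i ∈ q'.1 w, tt N i ^ 2 : ℝ) : ℂ)
        have e2 : y2 - σ w * y1 - (y2' - σ w * y1') =
            ((ev w (ι q'.2.2) - ev w 2 * ev w τ * A' - ev w μ2 - y2') -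
              (ev w (ι q.2.2) - ev w 2 * ev w τ * A - ev w μ2 - y2)) +
            σ w * ((A - ev w μ1 - y1) - (A' - ev w μ1 - y1')) := by
          linear_combination a5
        rw [e2]
        refine (norm_add_le _ _).trans_lt ?_
        have b1 := norm_sub_le (ev w (ι q'.2.2) - ev w 2 * ev w τ * A' - ev w μ2 - y2')
          (ev w (ι q.2.2) - ev w 2 * ev w τ * A - ev w μ2 - y2)
        have b2 := norm_sub_le (A - ev w μ1 - y1) (A' - ev w μ1 - y1')
        have b3 : ‖σ w‖ * ‖(A - ev w μ1 - y1) - (A' - ev w μ1 - y1')‖ ≤ ‖σ w‖ * 4 := by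
          gcongr
          linarith
        rw [norm_mul]
        linarith
      · simp only [box, mem_sigma] at hb0
        exact hb0.2.1
    · rintro ⟨c, a, b⟩ hq1 ⟨c', a', b'⟩ hq2 he
      simp only [Sigma.mk.injEq, heq_eq_eq] at he
      obtain ⟨rfl, rfl⟩ := he
      have a1 := (hF _ hq1).2 w0
      have a2 := (hF _ hq2).2 w0
      have : b' - b = 0 := by
        apply h.inj w0
        simp only [map_sub] at a1 a2 ⊢
        linear_combination a1 - a2
      rw [sub_eq_zero.mp this]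
  have h2 : (((Fintype.piFinset C).sigma fun c => bl (μ1 + x1 c) 2).card : ℝ) ≤ 2 ^ n * 5 ^ n := by
    rw [card_sigma, Nat.cast_sum]
    refine (sum_le_card_nsmul _ _ ((2 * 2 + 1) ^ n) fun a _ => h.pack _ _ (by norm_num)).trans ?_
    rw [nsmul_eq_mul, show (2 * 2 + 1 : ℝ) = 5 by norm_num]
    gcongr
    have : (Fintype.piFinset C).card ≤ 2 ^ n := by
      rw [Fintype.card_piFinset]
      refine (prod_le_pow_card _ _ 2 fun w _ => cairo N _ _).trans ?_
      exact Nat.pow_le_pow_right (by norm_num) h.card_le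
    exact_mod_cast this
  rw [← mul_pow, show (2 * 5 : ℝ) = 10 by norm_num] at h2
  exact le_trans (by exact_mod_cast h1) h2

/-- Lattice points near the nodes. -/
noncomputable def nodes (bl : V → ℝ → Finset O) (N : ℕ) (p : (W → ℕ) → V) (τ : V) :
    Finset (Σ _ : W → ℕ, O) :=
  (Fintype.piFinset fun _ : W => range N).sigma fun i => bl (τ + p i) 1

lemma IsLat.mem_nodes (h : IsLat n Δ ι ev w0 r0 bl) {N : ℕ} {p : (W → ℕ) → V}
    (hp : ∀ i w, ev w (p i) = tt N (i w)) {τ : V} {s : Σ _ : W → ℕ, O} :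
    s ∈ nodes bl N p τ ↔ (∀ w, s.1 w < N) ∧
      ∀ w, ‖ev w (ι s.2) - ev w τ - tt N (s.1 w)‖ < 1 := by
  simp only [nodes, mem_sigma, Fintype.mem_piFinset, mem_range, h.mem_bl _ _ _ one_pos, map_add,
    sub_add_eq_sub_sub, hp]

lemma norm_sq_sub_lt {z : ℂ} {t T : ℝ} (h : ‖z - t‖ < 1) (ht : 0 < t) (hT : t ≤ T) (h1 : 1 ≤ T) :
    ‖z ^ 2 - t ^ 2‖ < 3 * T := by
  have e : z ^ 2 - t ^ 2 = (z - t) * ((z - t) + 2 * t) := by ring
  have h2 : ‖(z - t) + 2 * t‖ ≤ 1 + 2 * T := by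
    refine (norm_add_le _ _).trans ?_
    rw [norm_mul, Complex.norm_real, Real.norm_of_nonneg ht.le, Complex.norm_two]
    linarith
  rw [e, norm_mul]
  calc _ ≤ ‖z - t‖ * (1 + 2 * T) := by gcongr
    _ < 1 * (1 + 2 * T) := by gcongr
    _ ≤ _ := by linarith

lemma energy_arith {n : ℕ} {Δ T g M j1 j2 j3 r y q E : ℝ} (hΔ : 0 ≤ Δ) (hT : 1 ≤ T) (hg : 0 < g)
    (hM : 0 ≤ M) (hj2 : 0 ≤ j2) (hy : 0 ≤ y) (hE : 0 ≤ E)
    (b1 : M * g ≤ 2 ^ n * j1) (h1 : j1 ≤ Δ ^ n * j2) (h2 : j2 * (3 * T) ^ n ≤ Δ ^ n * j3)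
    (b2 : j3 ≤ r) (a5 : r ^ 2 ≤ y * q) (a7 : q ≤ E) (a4 : y ≤ g * T ^ n * 21 ^ n) :
    M ^ 2 * (g * T ^ n) ≤ (21 * Δ ^ 4) ^ n * E := by
  have hG0 : 0 < g * T ^ n := by positivity
  have a6 : M * (g * T ^ n) ≤ (Δ ^ n) ^ 2 * r := by
    calc M * (g * T ^ n) = (M * g) * T ^ n := by ring
      _ ≤ (2 ^ n * j1) * T ^ n := by gcongr
      _ ≤ (2 ^ n * (Δ ^ n * j2)) * T ^ n := by gcongr
      _ ≤ (3 ^ n * (Δ ^ n * j2)) * T ^ n := by gcongr; norm_num
      _ = Δ ^ n * (j2 * (3 * T) ^ n) := by rw [mul_pow]; ring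
      _ ≤ Δ ^ n * (Δ ^ n * j3) := by gcongr
      _ ≤ Δ ^ n * (Δ ^ n * r) := by gcongr
      _ = _ := by ring
  have a8 : (M * (g * T ^ n)) ^ 2 ≤ (Δ ^ n) ^ 4 * (g * T ^ n * 21 ^ n * E) := by
    calc (M * (g * T ^ n)) ^ 2 ≤ ((Δ ^ n) ^ 2 * r) ^ 2 := by gcongr
      _ = (Δ ^ n) ^ 4 * r ^ 2 := by ring
      _ ≤ (Δ ^ n) ^ 4 * (y * q) := by gcongr
      _ ≤ (Δ ^ n) ^ 4 * (y * E) := by gcongr
      _ ≤ _ := by gcongr
  refine le_of_mul_le_mul_right ?_ hG0
  calc M ^ 2 * (g * T ^ n) * (g * T ^ n) = (M * (g * T ^ n)) ^ 2 := by ring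
    _ ≤ _ := a8
    _ = _ := by rw [mul_pow, ← pow_mul, ← pow_mul, mul_comm n 4]; ring

/-- Large additive energy. -/
lemma IsLat.energy [DecidableEq O] (h : IsLat n Δ ι ev w0 r0 bl) (hΔ : 0 ≤ Δ) {N : ℕ}
    {p : (W → ℕ) → V} (hp : ∀ i w, ev w (p i) = tt N (i w)) {x1 x2 : (W → Finset ℕ) → V}
    (hx1 : ∀ c w, ev w (x1 c) = (∑ i ∈ c w, tt N i : ℝ))
    (hx2 : ∀ c w, ev w (x2 c) = (∑ i ∈ c w, tt N i ^ 2 : ℝ)) (τ : V) :
    ∃ μ1 μ2 : V, ((nodes bl N p τ).card : ℝ) ^ 2 * ((2 ^ N) ^ Fintype.card W * TT N ^ n) ≤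
      (21 * Δ ^ 4) ^ n * (((nodes bl N p τ ×ˢ box ι bl N x1 x2 τ μ1 μ2 2 (6 * TT N)) ×ˢ
        (nodes bl N p τ ×ˢ box ι bl N x1 x2 τ μ1 μ2 2 (6 * TT N))).filter fun z =>
          z.1.1.2 + z.1.2.2.1 = z.2.1.2 + z.2.2.2.1 ∧
            z.1.1.2 ^ 2 + z.1.2.2.2 = z.2.1.2 ^ 2 + z.2.2.2.2).card := by
  classical
  have hT := one_le_TT N
  set S := nodes bl N p τ with hS
  let J1 := S.sigma fun s => (cube W N).filter fun c => ∀ w, s.1 w ∈ c w
  obtain ⟨ν1, hν1⟩ := h.avg J1 (fun j => x1 j.2) 1 one_pos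
  let J2 := J1.sigma fun j => bl (ν1 + x1 j.2) 1
  obtain ⟨ν2, hν2⟩ := h.avg J2 (fun j => x2 j.1.2 + 2 * τ * ι j.2) (3 * TT N) (by linarith)
  let J3 := J2.sigma fun j => bl (ν2 + (x2 j.1.2 + 2 * τ * ι j.2)) (3 * TT N)
  rw [← Nat.cast_sum, ← card_sigma] at hν1 hν2
  change _ ≤ Δ ^ n * (J2.card : ℝ) at hν1
  change _ ≤ Δ ^ n * (J3.card : ℝ) at hν2
  refine ⟨ν1 - τ, ν2 + τ ^ 2, ?_⟩
  set Q := box ι bl N x1 x2 τ (ν1 - τ) (ν2 + τ ^ 2) 2 (6 * TT N) with hQ
  set E := (((S ×ˢ Q) ×ˢ (S ×ˢ Q)).filter fun z =>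
          z.1.1.2 + z.1.2.2.1 = z.2.1.2 + z.2.2.2.1 ∧
            z.1.1.2 ^ 2 + z.1.2.2.2 = z.2.1.2 ^ 2 + z.2.2.2.2) with hE
  let Y := box ι bl N x1 x2 τ ν1 ν2 1 (3 * TT N)
  let R : (Σ _ : W → Finset ℕ, Σ _ : O, O) → Finset (Σ _ : W → ℕ, O) := fun y =>
    S.filter fun s => ∀ w, s.1 w ∈ y.1 w
  have a1 : S.card * (2 ^ N) ^ Fintype.card W ≤ 2 ^ n * J1.card := by
    rw [card_sigma, mul_sum, ← smul_eq_mul]
    refine card_nsmul_le_sum _ _ _ fun s hs => ?_
    have hs' := (h.mem_nodes hp).mp hs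
    have e : ((cube W N).filter fun c => ∀ w, s.1 w ∈ c w) =
        Fintype.piFinset fun w => ((range N).powerset).filter fun c => s.1 w ∈ c := by
      ext c
      simp only [mem_filter, mem_cube, Fintype.mem_piFinset, mem_powerset, forall_and]
    rw [e, Fintype.card_piFinset]
    calc (2 ^ N) ^ Fintype.card W = ∏ _w : W, 2 ^ N := by simp
      _ ≤ ∏ w : W, (2 * (((range N).powerset).filter fun c => s.1 w ∈ c).card) :=
          prod_le_prod' fun w _ => card_mem_powerset (hs'.1 w)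
      _ = 2 ^ Fintype.card W * ∏ w : W, (((range N).powerset).filter fun c => s.1 w ∈ c).card := by
          rw [prod_mul_distrib]; simp
      _ ≤ _ := Nat.mul_le_mul_right _ (Nat.pow_le_pow_right (by norm_num) h.card_le)
  have a2 : J3.card ≤ ∑ y ∈ Y, (R y).card := by
    rw [← card_sigma]
    refine card_le_card_of_injOn (fun j => ⟨⟨j.1.1.2, j.1.2, j.2⟩, j.1.1.1⟩) ?_ ?_
    · rintro ⟨⟨⟨s, c⟩, a⟩, b⟩ hj
      simp only [J3, J2, J1, Y, R, box, mem_coe, mem_sigma, mem_filter] at hj ⊢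
      exact ⟨⟨hj.1.1.2.1, hj.1.2, hj.2⟩, hj.1.1.1, hj.1.1.2.2⟩
    · rintro ⟨⟨⟨s, c⟩, a⟩, b⟩ _ ⟨⟨⟨s', c'⟩, a'⟩, b'⟩ _ he
      simp only [Sigma.mk.injEq, heq_eq_eq] at he
      obtain ⟨⟨rfl, rfl, rfl⟩, rfl⟩ := he
      rfl
  let sub : (Σ _ : W → Finset ℕ, Σ _ : O, O) → (Σ _ : W → ℕ, O) →
      (Σ _ : W → Finset ℕ, Σ _ : O, O) := fun y s =>
    ⟨fun w => (y.1 w).erase (s.1 w), y.2.1 - s.2, y.2.2 - s.2 ^ 2⟩
  have hsub : ∀ y ∈ Y, ∀ s ∈ R y, sub y s ∈ Q := by
    intro y hy s hs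
    obtain ⟨hs1, hs2⟩ := mem_filter.mp hs
    have hs' := (h.mem_nodes hp).mp hs1
    have hy' := (h.mem_box one_pos (by linarith)).mp hy
    rw [hQ, h.mem_box (by norm_num) (by linarith)]
    refine ⟨fun w => (erase_subset _ _).trans (hy'.1 w), fun w => ?_, fun w => ?_⟩
    · have b1 := hy'.2.1 w
      have b2 := hs'.2 w
      rw [hx1] at b1 ⊢
      simp only [sub]
      rw [sum_erase_eq_sub (hs2 w)]
      have b3 := norm_sub_le (ev w (ι y.2.1) - ev w ν1 - (∑ i ∈ y.1 w, tt N i : ℝ))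
        (ev w (ι s.2) - ev w τ - tt N (s.1 w))
      refine lt_of_eq_of_lt (congrArg _ ?_) (b3.trans_lt (by linarith))
      simp only [map_sub]
      push_cast
      ring
    · have b1 := hy'.2.2 w
      have b2 := norm_sq_sub_lt (hs'.2 w) (tt_pos _ _) (tt_le (hs'.1 w)) hT
      rw [hx2] at b1 ⊢
      simp only [sub]
      rw [sum_erase_eq_sub (hs2 w)]
      have b3 := norm_sub_le (ev w (ι y.2.2 - 2 * τ * ι y.2.1) - ev w ν2 -
        (∑ i ∈ y.1 w, tt N i ^ 2 : ℝ)) ((ev w (ι s.2) - ev w τ) ^ 2 - tt N (s.1 w) ^ 2)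
      refine lt_of_eq_of_lt (congrArg _ ?_) (b3.trans_lt (by linarith))
      simp only [map_sub, map_mul, map_add, map_pow, map_ofNat]
      push_cast
      ring
  have a3 : ∑ y ∈ Y, (R y).card ^ 2 ≤ E.card := by
    have : ∑ y ∈ Y, (R y).card ^ 2 = (Y.sigma fun y => R y ×ˢ R y).card := by
      rw [card_sigma]
      exact sum_congr rfl fun y _ => by rw [card_product, sq]
    rw [this]
    refine card_le_card_of_injOn (fun z => ((z.2.1, sub z.1 z.2.1), (z.2.2, sub z.1 z.2.2))) ?_ ?_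
    · rintro ⟨y, s, s'⟩ hz
      simp only [mem_coe, mem_sigma, mem_product] at hz
      simp only [hE, mem_coe, mem_filter, mem_product]
      refine ⟨⟨⟨(mem_filter.mp hz.2.1).1, hsub _ hz.1 _ hz.2.1⟩,
        (mem_filter.mp hz.2.2).1, hsub _ hz.1 _ hz.2.2⟩, ?_, ?_⟩ <;> simp [sub]
    · rintro ⟨⟨c, a, b⟩, s, t⟩ hz ⟨⟨c', a', b'⟩, s', t'⟩ hz' he
      simp only [mem_coe, mem_sigma, mem_product] at hz hz'
      simp only [Prod.mk.injEq] at he
      obtain ⟨⟨rfl, he1⟩, rfl, -⟩ := he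
      simp only [sub, Sigma.mk.injEq, heq_eq_eq, sub_left_inj] at he1
      obtain ⟨e1, rfl, rfl⟩ := he1
      have : c = c' := by
        funext w
        have k1 : s.1 w ∈ c w := (mem_filter.mp hz.2.1).2 w
        have k2 : s.1 w ∈ c' w := (mem_filter.mp hz'.2.1).2 w
        rw [← insert_erase k1, ← insert_erase k2]
        exact congrArg _ (congrFun e1 w)
      rw [this]
  have a4 : (Y.card : ℝ) ≤ ((2 ^ N) ^ Fintype.card W * TT N ^ n) * 21 ^ n := by
    refine (h.card_box N x1 x2 τ ν1 ν2 one_pos (by linarith)).trans ?_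
    rw [mul_assoc, ← mul_pow, ← mul_pow]
    exact mul_le_mul_of_nonneg_left (pow_le_pow_left₀ (by positivity) (by linarith) _)
      (by positivity)
  have a5 := sq_sum_le_card_mul_sum_sq (s := Y) (f := fun y => ((R y).card : ℝ))
  have b1 : (S.card : ℝ) * (2 ^ N) ^ Fintype.card W ≤ 2 ^ n * J1.card := by exact_mod_cast a1
  have b2 : (J3.card : ℝ) ≤ ∑ y ∈ Y, ((R y).card : ℝ) := by exact_mod_cast a2
  have a7 : ∑ y ∈ Y, ((R y).card : ℝ) ^ 2 ≤ E.card := by exact_mod_cast a3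
  rw [one_pow, mul_one] at hν1
  exact energy_arith hΔ hT (by positivity) (Nat.cast_nonneg _) (Nat.cast_nonneg _)
    (Nat.cast_nonneg _) (Nat.cast_nonneg _) b1 hν1 hν2 b2 a5 a7 a4

/-- The size parameter of the configuration. -/
noncomputable def BB (N : ℕ) : ℝ := 100 * 2 ^ N * (100 * N * TT N ^ 2) ^ 3

lemma BB_facts {N : ℕ} (hN : 1 ≤ N) : 1 ≤ 100 * N * TT N ^ 2 ∧
    4 * (100 * N * TT N ^ 2) ^ 3 ≤ BB N ∧ 100 * N * TT N ^ 2 ≤ BB N ∧
    2 ^ N * TT N * 65 ≤ BB N ∧ TT N ≤ TT N ^ 2 ∧ TT N ^ 2 ≤ N * TT N ^ 2 ∧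
    N * TT N ≤ N * TT N ^ 2 ∧ N ≤ N * TT N := by
  have hT := one_le_TT N
  have hN' : (1 : ℝ) ≤ N := by exact_mod_cast hN
  have h1 : TT N ≤ TT N ^ 2 := le_self_pow₀ hT (by norm_num)
  have h2 : TT N ^ 2 ≤ N * TT N ^ 2 := le_mul_of_one_le_left (by positivity) hN'
  have h3 : 1 ≤ 100 * N * TT N ^ 2 := by nlinarith
  have h4 : 100 * N * TT N ^ 2 ≤ (100 * N * TT N ^ 2) ^ 3 := le_self_pow₀ h3 (by norm_num)
  have h5 : (1 : ℝ) ≤ 2 ^ N := one_le_pow₀ (by norm_num)
  have h6 : 100 * (100 * N * TT N ^ 2) ^ 3 ≤ BB N := by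
    unfold BB
    gcongr
    linarith
  refine ⟨h3, by linarith, by linarith, ?_, h1, h2, by gcongr, le_mul_of_one_le_right (by linarith) hT⟩
  unfold BB
  have h7 : TT N ≤ (100 * N * TT N ^ 2) ^ 3 := by linarith
  calc 2 ^ N * TT N * 65 = 65 * 2 ^ N * TT N := by ring
    _ ≤ _ := by gcongr; norm_num

lemma tt_inj {N i j : ℕ} (h : |tt N i - tt N j| < 2) : i = j := by
  rw [abs_lt] at h
  rcases lt_trichotomy i j with h1 | h1 | h1
  · linarith [tt_lac N h1, tt_ge N i, h.1]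
  · exact h1
  · linarith [tt_lac N h1, tt_ge N j, h.2]

theorem IsLat.good (h : IsLat n Δ ι ev w0 r0 bl) (hΔ : 1 ≤ Δ) (hn : 1 ≤ n) {N : ℕ} (hN : 1 ≤ N) :
    Good n (BB N) (13650 * Δ ^ 4) (√N / Δ) := by
  classical
  have hT := one_le_TT N
  have hN' : (1 : ℝ) ≤ N := by exact_mod_cast hN
  obtain ⟨f1, f2, f3, f4, f5, f6, f7, f8⟩ := BB_facts hN
  set H : ℝ := 100 * N * TT N ^ 2 with hH
  choose sec hsec using h.sec
  let p : (W → ℕ) → V := fun i => sec fun w => tt N (i w)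
  let x1 : (W → Finset ℕ) → V := fun c => sec fun w => ∑ i ∈ c w, tt N i
  let x2 : (W → Finset ℕ) → V := fun c => sec fun w => ∑ i ∈ c w, tt N i ^ 2
  have hp : ∀ i w, ev w (p i) = tt N (i w) := fun i w => hsec _ w
  have hx1 : ∀ c w, ev w (x1 c) = (∑ i ∈ c w, tt N i : ℝ) := fun c w => hsec _ w
  have hx2 : ∀ c w, ev w (x2 c) = (∑ i ∈ c w, tt N i ^ 2 : ℝ) := fun c w => hsec _ w
  obtain ⟨τ, hτ⟩ := h.avg (Fintype.piFinset fun _ : W => range N) p 1 one_pos
  rw [← Nat.cast_sum, ← card_sigma] at hτ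
  change _ ≤ Δ ^ n * ((nodes bl N p τ).card : ℝ) at hτ
  obtain ⟨μ1, μ2, hE⟩ := h.energy (by linarith) hp hx1 hx2 τ
  set S := nodes bl N p τ with hS
  set Q := box ι bl N x1 x2 τ μ1 μ2 2 (6 * TT N) with hQ
  have hQc : (Q.card : ℝ) ≤ ((2 ^ N) ^ Fintype.card W * TT N ^ n) * 65 ^ n := by
    refine (h.card_box N x1 x2 τ μ1 μ2 (by norm_num) (by linarith)).trans ?_
    rw [mul_assoc, ← mul_pow, ← mul_pow]
    exact mul_le_mul_of_nonneg_left (pow_le_pow_left₀ (by positivity) (by linarith) _)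
      (by positivity)
  have hS1 : ∀ s ∈ S, ∀ s' ∈ S, ∀ w, ‖ev w (ι s.2) - ev w (ι s'.2)‖ ≤ TT N + 2 * 1 := by
    intro s hs s' hs' w
    have a := (h.mem_nodes hp).mp hs
    have a' := (h.mem_nodes hp).mp hs'
    exact norm_diff_le (a.2 w) (a'.2 w) ⟨(tt_pos _ _).le, tt_le (a.1 w)⟩
      ⟨(tt_pos _ _).le, tt_le (a'.1 w)⟩
  have hS2 : ∀ s ∈ S, ∀ s' ∈ S, ∀ w,
      ‖(ev w (ι s.2) - ev w τ) ^ 2 - (ev w (ι s'.2) - ev w τ) ^ 2‖ ≤ TT N ^ 2 + 2 * (3 * TT N) := by
    have aux : ∀ s ∈ S, ∀ w, ‖(ev w (ι s.2) - ev w τ) ^ 2 - 0 - (tt N (s.1 w) ^ 2 : ℝ)‖ <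
        3 * TT N ∧ 0 ≤ tt N (s.1 w) ^ 2 ∧ tt N (s.1 w) ^ 2 ≤ TT N ^ 2 := by
      intro s hs w
      have a := (h.mem_nodes hp).mp hs
      refine ⟨?_, by positivity, pow_le_pow_left₀ (tt_pos _ _).le (tt_le (a.1 w)) _⟩
      rw [sub_zero]
      push_cast
      exact norm_sq_sub_lt (a.2 w) (tt_pos _ _) (tt_le (a.1 w)) hT
    intro s hs s' hs' w
    exact norm_diff_le (aux s hs w).1 (aux s' hs' w).1 (aux s hs w).2 (aux s' hs' w).2
  have hQ1 : ∀ q ∈ Q, ∀ q' ∈ Q, ∀ w, ‖ev w (ι (q.2.1 - q'.2.1))‖ ≤ N * TT N + 2 * 2 := by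
    intro q hq q' hq' w
    have a := (h.mem_box (by norm_num) (by linarith)).mp hq
    have a' := (h.mem_box (by norm_num) (by linarith)).mp hq'
    have b := a.2.1 w
    have b' := a'.2.1 w
    rw [hx1] at b b'
    rw [map_sub, map_sub]
    exact norm_diff_le b b' (sum_tt_bound (a.1 w)) (sum_tt_bound (a'.1 w))
  have hQ2 : ∀ q ∈ Q, ∀ q' ∈ Q, ∀ w, ‖ev w (ι (q.2.2 - q'.2.2) - 2 * τ * ι (q.2.1 - q'.2.1))‖ ≤
      N * TT N ^ 2 + 2 * (6 * TT N) := by
    intro q hq q' hq' w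
    have a := (h.mem_box (by norm_num) (by linarith)).mp hq
    have a' := (h.mem_box (by norm_num) (by linarith)).mp hq'
    have b := a.2.2 w
    have b' := a'.2.2 w
    rw [hx2] at b b'
    have e : ι (q.2.2 - q'.2.2) - 2 * τ * ι (q.2.1 - q'.2.1) =
        (ι q.2.2 - 2 * τ * ι q.2.1) - (ι q'.2.2 - 2 * τ * ι q'.2.1) := by
      simp only [map_sub]; ring
    rw [e, map_sub]
    exact norm_diff_le b b' (sum_tt_sq_bound (a.1 w)) (sum_tt_sq_bound (a'.1 w))
  have hlow : ∀ a : O, a ≠ 0 → (∀ w, ‖ev w (ι a)‖ ≤ H) → 1 ≤ |r0 (ι a)| * BB N ^ n := by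
    intro a ha hb
    refine (h.low a ha H f1 hb).trans ?_
    gcongr
  refine ⟨_, _, S, Q, fun s => r0 (ι s.2 - τ), fun q => r0 (ι q.2.1),
    fun q => r0 (ι q.2.2 - 2 * τ * ι q.2.1),
    ((2 ^ N) ^ Fintype.card W * TT N ^ n) * 650 ^ n, ?_, ?_, ?_, ?_, ?_, ?_, ?_, ?_, ?_⟩
  · rw [div_pow, div_le_iff₀ (by positivity), mul_comm]
    refine le_trans ?_ hτ
    rw [one_pow, mul_one, Fintype.card_piFinset]
    simp only [card_range, prod_const, card_univ, Nat.cast_pow]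
    calc √N ^ n ≤ √N ^ (2 * Fintype.card W) :=
          pow_le_pow_right₀ (Real.one_le_sqrt.mpr hN') h.le_card
      _ = _ := by rw [pow_mul, Real.sq_sqrt (by linarith)]
  · rw [hS, nodes, card_sigma, Nat.cast_sum]
    refine (sum_le_card_nsmul _ _ ((2 * 1 + 1) ^ n) fun a _ => h.pack _ _ one_pos).trans ?_
    rw [nsmul_eq_mul, Fintype.card_piFinset]
    simp only [card_range, prod_const, card_univ, Nat.cast_pow]
    calc (N : ℝ) ^ Fintype.card W * (2 * 1 + 1) ^ n ≤ N ^ n * (2 * 1 + 1) ^ n :=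
          mul_le_mul_of_nonneg_right (pow_le_pow_right₀ hN' h.card_le) (by positivity)
      _ = (N * (2 * 1 + 1)) ^ n := (mul_pow _ _ _).symm
      _ ≤ _ := pow_le_pow_left₀ (by positivity) (by linarith) _
  · refine hQc.trans ?_
    calc ((2 ^ N) ^ Fintype.card W * TT N ^ n) * 65 ^ n ≤ ((2 ^ N) ^ n * TT N ^ n) * 65 ^ n := by
          gcongr
          · exact one_le_pow₀ (by norm_num)
          · exact h.card_le
      _ = (2 ^ N * TT N * 65) ^ n := by rw [mul_pow, mul_pow]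
      _ ≤ _ := pow_le_pow_left₀ (by positivity) f4 _
  · exact one_le_mul_of_one_le_of_one_le (one_le_mul_of_one_le_of_one_le
      (one_le_pow₀ (one_le_pow₀ (by norm_num))) (one_le_pow₀ hT)) (one_le_pow₀ (by norm_num))
  · intro s hs
    have a := (h.mem_nodes hp).mp hs
    apply h.abs_le
    have b := a.2 w0
    have b1 := norm_add_le (ev w0 (ι s.2) - ev w0 τ - tt N (s.1 w0)) (tt N (s.1 w0))
    rw [sub_add_cancel, Complex.norm_real, Real.norm_of_nonneg (tt_pos _ _).le] at b1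
    have b2 := tt_le (a.1 w0)
    rw [map_sub]
    linarith
  · intro s hs s' hs' hne
    have hne2 : s.2 - s'.2 ≠ 0 := by
      intro h0
      apply hne
      have h0' := sub_eq_zero.mp h0
      obtain ⟨i, t⟩ := s
      obtain ⟨i', t'⟩ := s'
      simp only at h0'
      subst h0'
      have a := (h.mem_nodes hp).mp hs
      have a' := (h.mem_nodes hp).mp hs'
      have : i = i' := by
        funext w
        apply tt_inj (N := N)
        have b := norm_sub_le (ev w (ι t) - ev w τ - tt N (i' w)) (ev w (ι t) - ev w τ - tt N (i w))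
        rw [sub_sub_sub_cancel_left, ← Complex.ofReal_sub, Complex.norm_real,
          Real.norm_eq_abs] at b
        linarith [a.2 w, a'.2 w]
      rw [this]
    have := hlow _ hne2 fun w => by
      rw [map_sub, map_sub]
      linarith [hS1 s hs s' hs' w]
    convert this using 3
    simp only [map_sub]
    ring
  · intro s
    let P : Set (O × O) := {d | ∃ q ∈ Q, ∃ q' ∈ Q, d = (q.2.1 - q'.2.1, q.2.2 - q'.2.2) ∧
      |r0 (ι d.2 - 2 * τ * ι d.1) - s * r0 (ι d.1)| * BB N ^ n < 1}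
    obtain ⟨σ, hσ⟩ := h.exists_slope hn τ s f1 f2 P
      (by rintro _ ⟨q, hq, q', hq', rfl, -⟩ w; linarith [hQ1 q hq q' hq' w])
      (by rintro _ ⟨q, hq, q', hq', rfl, -⟩ w; linarith [hQ2 q hq q' hq' w])
      (by rintro _ ⟨q, hq, q', hq', rfl, h3⟩; exact h3)
    rw [card_filter, sum_product, Nat.cast_sum]
    refine (sum_le_card_nsmul _ _ (10 ^ n) fun q hq => ?_).trans ?_
    · rw [← card_filter]
      refine h.card_line hx1 hx2 τ μ1 μ2 σ hq _ fun q' hq' => ?_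
      obtain ⟨k1, k2⟩ := mem_filter.mp hq'
      refine ⟨k1, hσ (q.2.1 - q'.2.1, q.2.2 - q'.2.2) ⟨q, hq, q', k1, rfl, ?_⟩⟩
      convert k2 using 4
      · simp only [map_sub, map_mul]; ring
      · simp only [map_sub]
    · rw [nsmul_eq_mul, show (650 : ℝ) = 65 * 10 by norm_num, mul_pow, ← mul_assoc]
      gcongr
  · rw [show 13650 * Δ ^ 4 = 650 * (21 * Δ ^ 4) by ring, mul_pow 650, mul_assoc (650 ^ n),
      ← mul_assoc, mul_comm]
    refine mul_le_mul_of_nonneg_left (hE.trans ?_) (by positivity)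
    refine mul_le_mul_of_nonneg_left (Nat.cast_le.mpr (card_le_card ?_)) (by positivity)
    intro z hz
    obtain ⟨k1, k2, k3⟩ := mem_filter.mp hz
    refine mem_filter.mpr ⟨k1, ?_, ?_⟩
    · have := congrArg (fun a => r0 (ι a)) k2
      simp only [map_sub, map_add] at this ⊢
      linarith
    · have e1 := congrArg (fun a => r0 (ι a)) k2
      have e2 := congrArg (fun a => r0 (ι a)) k3
      simp only [map_sub, map_add, map_mul, map_pow, map_ofNat] at e1 e2 ⊢
      linear_combination e2 - 2 * r0 τ * e1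
  · rintro ⟨s, q⟩ hp1 ⟨s', q'⟩ hp2
    obtain ⟨hs, hq⟩ := mem_product.mp hp1
    obtain ⟨hs', hq'⟩ := mem_product.mp hp2
    simp only at hs hq hs' hq' ⊢
    by_cases h1 : s.2 - s'.2 + (q.2.1 - q'.2.1) = 0
    · have e1 := congrArg (fun a => r0 (ι a)) h1
      by_cases h2 : s.2 ^ 2 - s'.2 ^ 2 + (q.2.2 - q'.2.2) = 0
      · left
        have e2 := congrArg (fun a => r0 (ι a)) h2
        simp only [map_sub, map_add, map_mul, map_pow, map_ofNat, map_zero] at e1 e2 ⊢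
        exact ⟨by linear_combination e1, by linear_combination e2 - 2 * r0 τ * e1⟩
      · right; right
        have := hlow _ h2 fun w => by
          have e3 := congrArg (fun a => ev w (ι a)) h1
          have e4 : ev w (ι (s.2 ^ 2 - s'.2 ^ 2 + (q.2.2 - q'.2.2))) =
              ((ev w (ι s.2) - ev w τ) ^ 2 - (ev w (ι s'.2) - ev w τ) ^ 2) +
                ev w (ι (q.2.2 - q'.2.2) - 2 * τ * ι (q.2.1 - q'.2.1)) := by
            simp only [map_sub, map_add, map_mul, map_pow, map_ofNat, map_zero] at e3 ⊢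
            linear_combination 2 * ev w τ * e3
          rw [e4]
          refine (norm_add_le _ _).trans ?_
          linarith [hS2 s hs s' hs' w, hQ2 q hq q' hq' w]
        convert this using 3
        simp only [map_sub, map_add, map_mul, map_pow, map_ofNat, map_zero] at e1 ⊢
        linear_combination -2 * r0 τ * e1
    · right; left
      have := hlow _ h1 fun w => by
        rw [map_add, map_add, map_sub ι, map_sub]
        refine (norm_add_le _ _).trans ?_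
        linarith [hS1 s hs s' hs' w, hQ1 q hq q' hq' w]
      convert this using 3
      simp only [map_sub, map_add]
      ring

end Lattice

end Pool.Agent.MT8

end

/-!
The ring of integers of a number field with a real place satisfies the lattice facts `IsLat`.
-/

set_option autoImplicit false

section

namespace Pool.Agent.MT8

open Finset NumberField NumberField.InfinitePlace NumberField.mixedEmbedding MeasureTheory Metric
open scoped ENNReal

variable (K : Type) [Field K] [NumberField K]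

open scoped Classical in
/-- The coordinate of the mixed space at an infinite place. -/
noncomputable def evAt (w : InfinitePlace K) : mixedSpace K →+* ℂ :=
  if hw : IsReal w then
    Complex.ofRealHom.comp ((Pi.evalRingHom (fun _ => ℝ) ⟨w, hw⟩).comp (RingHom.fst _ _))
  else (Pi.evalRingHom (fun _ => ℂ) ⟨w, not_isReal_iff_isComplex.mp hw⟩).comp (RingHom.snd _ _)

/-- The embedding of the ring of integers in the mixed space. -/
noncomputable def emb : 𝓞 K →+* mixedSpace K := (mixedEmbedding K).comp (algebraMap (𝓞 K) K)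

variable {K}

omit [NumberField K] in
lemma evAt_real {w : InfinitePlace K} (hw : IsReal w) (x : mixedSpace K) :
    evAt K w x = (x.1 ⟨w, hw⟩ : ℝ) := by
  simp [evAt, hw]

omit [NumberField K] in
lemma evAt_complex {w : InfinitePlace K} (hw : IsComplex w) (x : mixedSpace K) :
    evAt K w x = x.2 ⟨w, hw⟩ := by
  simp [evAt, not_isReal_iff_isComplex.mpr hw]

omit [NumberField K] in
lemma norm_evAt (w : InfinitePlace K) (x : mixedSpace K) : ‖evAt K w x‖ = normAtPlace w x := by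
  rcases w.isReal_or_isComplex with hw | hw
  · rw [evAt_real hw, normAtPlace_apply_of_isReal hw, Complex.norm_real]
  · rw [evAt_complex hw, normAtPlace_apply_of_isComplex hw]

omit [NumberField K] in
lemma norm_evAt_emb (w : InfinitePlace K) (a : 𝓞 K) : ‖evAt K w (emb K a)‖ = w (a : K) := by
  rw [norm_evAt, emb, RingHom.comp_apply, normAtPlace_apply]

open scoped Classical in
lemma norm_lt_iff (x : mixedSpace K) (r : ℝ) : ‖x‖ < r ↔ ∀ w, ‖evAt K w x‖ < r := by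
  rw [norm_eq_sup'_normAtPlace, sup'_lt_iff]
  simp [norm_evAt]

lemma one_le_prod {a : 𝓞 K} (ha : a ≠ 0) :
    (1 : ℝ) ≤ ∏ w : InfinitePlace K, w (a : K) ^ mult w := by
  rw [prod_eq_abs_norm, ← Algebra.coe_norm_int, ← Int.cast_one, ← Int.cast_abs, Rat.cast_intCast,
    Int.cast_le]
  exact Int.one_le_abs (Algebra.norm_ne_zero_iff.mpr ha)

open scoped Classical in
lemma one_le_norm_emb {a : 𝓞 K} (ha : a ≠ 0) : 1 ≤ ‖emb K a‖ := by
  by_contra h
  rw [not_le, norm_lt_iff] at h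
  obtain ⟨w⟩ : Nonempty (InfinitePlace K) := inferInstance
  have := one_le_of_lt_one (w := w) ha fun z _ => by simpa [norm_evAt_emb] using h z
  have h2 := h w
  rw [norm_evAt_emb] at h2
  linarith

open scoped Classical in
lemma card_le_of_ball (c : mixedSpace K) {r : ℝ} (hr : 0 < r) (s : Finset (𝓞 K))
    (hs : ∀ a ∈ s, ‖emb K a - c‖ < r) : (s.card : ℝ) ≤ (2 * r + 1) ^ Module.finrank ℚ K := by
  set n := Module.finrank ℚ K with hn
  have hd : (s : Set (𝓞 K)).PairwiseDisjoint fun a => ball (emb K a) (1 / 2) := by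
    intro a _ b _ hab
    apply ball_disjoint_ball
    rw [dist_eq_norm, ← map_sub]
    have := one_le_norm_emb (sub_ne_zero.mpr hab)
    linarith
  have h1 : (⋃ a ∈ s, ball (emb K a) (1 / 2)) ⊆ ball c (r + 1 / 2) := by
    refine Set.iUnion₂_subset fun a ha => ball_subset ?_
    have := hs a ha
    rw [dist_eq_norm]
    linarith
  have h2 := measure_mono (μ := volume) h1
  rw [measure_biUnion_finset hd fun a _ => measurableSet_ball] at h2
  simp_rw [Measure.addHaar_ball_of_pos volume _ (show (0 : ℝ) < 1 / 2 by norm_num)] at h2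
  rw [Measure.addHaar_ball_of_pos volume _ (show 0 < r + 1 / 2 by linarith), sum_const,
    nsmul_eq_mul, ← mul_assoc, mixedEmbedding.finrank, ← hn,
    ENNReal.mul_le_mul_iff_left (measure_ball_pos _ _ one_pos).ne' measure_ball_lt_top.ne,
    ← ENNReal.ofReal_natCast, ← ENNReal.ofReal_mul (Nat.cast_nonneg _),
    ENNReal.ofReal_le_ofReal_iff (by positivity)] at h2
  have h3 : (2 * r + 1) ^ n * (1 / 2) ^ n = (r + 1 / 2) ^ n := by
    rw [← mul_pow]; congr 1; ring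
  rw [← h3] at h2
  exact le_of_mul_le_mul_right h2 (by positivity)

open scoped Classical in
lemma finite_ball (c : mixedSpace K) (r : ℝ) : {a : 𝓞 K | ‖emb K a - c‖ < r}.Finite := by
  by_contra h
  rcases le_or_gt r 0 with hr | hr
  · apply h
    convert Set.finite_empty
    ext a
    simp only [Set.mem_ofPred_eq, Set.mem_empty_iff_false, iff_false, not_lt]
    exact hr.trans (norm_nonneg _)
  obtain ⟨m, hm⟩ := exists_nat_gt ((2 * r + 1) ^ Module.finrank ℚ K)
  obtain ⟨s, hs, hc⟩ := Set.Infinite.exists_subset_card_eq h m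
  have := card_le_of_ball c hr s fun a ha => hs ha
  rw [hc] at this
  linarith

variable (K) in
open scoped Classical in
/-- Integers in a ball. -/
noncomputable def blK (c : mixedSpace K) (r : ℝ) : Finset (𝓞 K) := (finite_ball c r).toFinset

open scoped Classical in
lemma mem_blK {c : mixedSpace K} {r : ℝ} {a : 𝓞 K} : a ∈ blK K c r ↔ ‖emb K a - c‖ < r := by
  simp [blK]

open scoped Classical in
lemma one_le_volume_ball : 1 ≤ volume (ball (0 : mixedSpace K) 1) := by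
  have h1 : convexBodyLT K (fun _ => 1) ⊆ ball (0 : mixedSpace K) 1 := by
    intro x hx
    rw [mem_ball_zero_iff, norm_lt_iff]
    intro w
    rcases w.isReal_or_isComplex with hw | hw
    · rw [evAt_real hw, Complex.norm_real]
      simpa using hx.1 ⟨w, hw⟩ (Set.mem_univ _)
    · rw [evAt_complex hw]
      simpa using hx.2 ⟨w, hw⟩ (Set.mem_univ _)
  refine le_trans ?_ (measure_mono h1)
  rw [convexBodyLT_volume]
  simp only [one_pow, prod_const_one, ENNReal.coe_one, mul_one]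
  exact_mod_cast one_le_convexBodyLTFactor K

lemma countable_int : Countable (𝓞 K) := (RingOfIntegers.basis K).repr.injective.countable

open scoped Classical in
lemma volume_ball_le (p : mixedSpace K) (r : ℝ) :
    volume (ball (-p) r) ≤ ∫⁻ ν in ZSpan.fundamentalDomain (latticeBasis K),
      ((blK K (ν + p) r).card : ℝ≥0∞) := by
  have hF := ZSpan.isAddFundamentalDomain' (latticeBasis K) volume
  have := countable_int (K := K)
  let L := (Submodule.span ℤ (Set.range (latticeBasis K))).toAddSubgroup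
  have hL : ∀ a : 𝓞 K, emb K a ∈ L := fun a => (mem_span_latticeBasis K).mpr ⟨a, rfl⟩
  let e : 𝓞 K ≃ L := Equiv.ofBijective (fun a => ⟨emb K a, hL a⟩) ⟨fun a b hab => by
    by_contra hne
    have h1 := one_le_norm_emb (sub_ne_zero.mpr hne)
    have h2 : emb K a = emb K b := congrArg Subtype.val hab
    rw [map_sub, h2, sub_self, norm_zero] at h1
    linarith, fun x => by
    obtain ⟨a, ha⟩ := (mem_span_latticeBasis K).mp x.2
    exact ⟨a, Subtype.ext ha⟩⟩
  have : Countable L := e.symm.injective.countable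
  rw [← lintegral_indicator_one measurableSet_ball, hF.lintegral_eq_tsum', ← lintegral_tsum]
  · refine lintegral_mono fun ν => ?_
    rw [← e.tsum_eq, tsum_eq_sum (s := blK K (ν + p) r)]
    · refine (sum_le_card_nsmul _ _ (1 : ℝ≥0∞) fun a _ => ?_).trans (by simp)
      exact Set.indicator_le_self _ _ _
    · intro a ha
      rw [Set.indicator_of_notMem]
      rw [mem_blK] at ha
      rw [mem_ball, dist_eq_norm]
      convert ha using 2
      rw [← norm_neg]
      congr 1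
      change -(-emb K a + ν - -p) = _
      abel
  · intro g
    exact ((measurable_one.indicator measurableSet_ball).comp (measurable_const_vadd _)).aemeasurable

open scoped Classical in
lemma measurable_card_blK (p : mixedSpace K) (r : ℝ) :
    Measurable fun ν => ((blK K (ν + p) r).card : ℝ≥0∞) := by
  have : (fun ν => ((blK K (ν + p) r).card : ℝ≥0∞)) =
      fun ν => ∑' a : 𝓞 K, (ball (emb K a - p) r).indicator 1 ν := by
    funext ν
    have key : ∀ a, ν ∈ ball (emb K a - p) r ↔ a ∈ blK K (ν + p) r := by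
      intro a
      rw [mem_blK, mem_ball, dist_eq_norm, ← norm_neg]
      congr! 2
      abel
    rw [tsum_eq_sum (s := blK K (ν + p) r)]
    · rw [card_eq_sum_ones, Nat.cast_sum]
      exact sum_congr rfl fun a ha => by simp [Set.indicator_of_mem ((key a).mpr ha)]
    · intro a ha
      exact Set.indicator_of_notMem (fun h => ha ((key a).mp h)) _
  rw [this]
  have := countable_int (K := K)
  exact Measurable.tsum fun a => measurable_one.indicator measurableSet_ball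

open scoped Classical in
lemma exists_avg {m : ℕ} (hm : (discr K).natAbs ≤ m ^ Module.finrank ℚ K) {J : Type}
    (s : Finset J) (p : J → mixedSpace K) {r : ℝ} (hr : 0 < r) :
    ∃ ν : mixedSpace K, (s.card : ℝ) * r ^ Module.finrank ℚ K ≤
      (m : ℝ) ^ Module.finrank ℚ K * ∑ j ∈ s, ((blK K (ν + p j) r).card : ℝ) := by
  set n := Module.finrank ℚ K with hn
  set F := ZSpan.fundamentalDomain (latticeBasis K) with hF
  have hF0 : volume F ≠ 0 := ZSpan.measure_fundamentalDomain_ne_zero _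
  have hF1 : volume F ≤ (m : ℝ≥0∞) ^ n := by
    rw [hF, volume_fundamentalDomain_latticeBasis]
    have h1 : (2 : ℝ≥0∞)⁻¹ ^ nrComplexPlaces K ≤ 1 := pow_le_one₀ zero_le (by simp)
    have h2 : NNReal.sqrt ‖discr K‖₊ ≤ (m : NNReal) ^ n := by
      have h3 : ‖discr K‖₊ = ((discr K).natAbs : NNReal) := (NNReal.natCast_natAbs _).symm
      have h4 : (1 : NNReal) ≤ ((discr K).natAbs : NNReal) := by
        exact_mod_cast Int.natAbs_pos.mpr (discr_ne_zero K)
      rw [h3]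
      refine le_trans ?_ (by exact_mod_cast hm : ((discr K).natAbs : NNReal) ≤ (m : NNReal) ^ n)
      rw [NNReal.sqrt_le_iff_le_sq]
      exact le_self_pow₀ h4 (by norm_num)
    calc _ ≤ 1 * ((m : ℝ≥0∞) ^ n) := mul_le_mul' h1 (by exact_mod_cast h2)
      _ = _ := one_mul _
  have hF2 : volume F ≠ ∞ := ne_top_of_le_ne_top (by simp) hF1
  let f : mixedSpace K → ℝ≥0∞ := fun ν => ∑ j ∈ s, ((blK K (ν + p j) r).card : ℝ≥0∞)
  have hint : ∫⁻ ν in F, f ν ≠ ∞ := by
    have hb : ∀ ν, f ν ≤ s.card * ENNReal.ofReal ((2 * r + 1) ^ n) := by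
      intro ν
      rw [← nsmul_eq_mul]
      refine sum_le_card_nsmul _ _ _ fun j _ => ?_
      rw [← ENNReal.ofReal_natCast]
      exact ENNReal.ofReal_le_ofReal (card_le_of_ball _ hr _ fun a ha => mem_blK.mp ha)
    refine ne_top_of_le_ne_top ?_ (lintegral_mono hb)
    rw [lintegral_const, Measure.restrict_apply_univ]
    finiteness
  obtain ⟨ν, -, hν⟩ := exists_setLAverage_le hF0
    (ZSpan.fundamentalDomain_measurableSet _).nullMeasurableSet hint
  refine ⟨ν, ?_⟩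
  rw [setLAverage_eq, ENNReal.div_le_iff hF0 hF2] at hν
  have h1 : (s.card : ℝ≥0∞) * ENNReal.ofReal (r ^ n) ≤ ∫⁻ ν in F, f ν := by
    rw [lintegral_finsetSum _ fun j _ => measurable_card_blK (p j) r, ← nsmul_eq_mul]
    refine card_nsmul_le_sum _ _ _ fun j _ => le_trans ?_ (volume_ball_le (p j) r)
    rw [Measure.addHaar_ball_of_pos volume _ hr, mixedEmbedding.finrank]
    exact le_mul_of_one_le_right zero_le one_le_volume_ball
  have h2 : (s.card : ℝ≥0∞) * ENNReal.ofReal (r ^ n) ≤ (m : ℝ≥0∞) ^ n * f ν := by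
    rw [mul_comm ((m : ℝ≥0∞) ^ n)]
    exact h1.trans (hν.trans (by gcongr))
  have h3 : (m : ℝ≥0∞) ^ n * f ν =
      ENNReal.ofReal ((m : ℝ) ^ n * ∑ j ∈ s, ((blK K (ν + p j) r).card : ℝ)) := by
    rw [ENNReal.ofReal_mul (by positivity), ENNReal.ofReal_pow (by positivity),
      ENNReal.ofReal_natCast, ← Nat.cast_sum, ENNReal.ofReal_natCast, Nat.cast_sum]
  rw [h3, ← ENNReal.ofReal_natCast s.card, ← ENNReal.ofReal_mul (Nat.cast_nonneg _),
    ENNReal.ofReal_le_ofReal_iff (mul_nonneg (pow_nonneg (Nat.cast_nonneg _) _)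
      (sum_nonneg fun _ _ => Nat.cast_nonneg _))] at h2
  exact h2

theorem isLat_field {m : ℕ} (hm : (discr K).natAbs ≤ m ^ Module.finrank ℚ K)
    {w0 : InfinitePlace K} (hw0 : IsReal w0) :
    IsLat (Module.finrank ℚ K) m (emb K) (evAt K) w0
      ((Pi.evalRingHom (fun _ => ℝ) ⟨w0, hw0⟩).comp (RingHom.fst _ _)) (blK K) where
  sec a := ⟨(fun w => a w.1, fun w => a w.1), fun w => by
    rcases w.isReal_or_isComplex with hw | hw
    · rw [evAt_real hw]
    · rw [evAt_complex hw]⟩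
  real x := evAt_real hw0 x
  card_le := by
    rw [← sum_mult_eq, Fintype.card, card_eq_sum_ones]
    exact sum_le_sum fun w _ => mult_pos
  le_card := by
    rw [← sum_mult_eq, Fintype.card, mul_comm, ← smul_eq_mul]
    refine sum_le_card_nsmul _ _ _ fun w _ => ?_
    rw [mult]
    split_ifs <;> norm_num
  inj w a h := by
    have := norm_evAt_emb w a
    rw [h, norm_zero] at this
    exact RingOfIntegers.coe_eq_zero_iff.mp ((map_eq_zero w.1).mp this.symm)
  low a ha B hB h := by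
    classical
    have h0 : |((Pi.evalRingHom (fun _ => ℝ) ⟨w0, hw0⟩).comp (RingHom.fst _ _)) (emb K a)| =
        w0 (a : K) := by
      rw [← norm_evAt_emb, evAt_real hw0, Complex.norm_real, Real.norm_eq_abs]
      rfl
    rw [h0]
    refine (one_le_prod ha).trans ?_
    rw [← mul_prod_erase _ _ (mem_univ w0), hw0.mult_eq_one, pow_one]
    refine mul_le_mul_of_nonneg_left ?_ (apply_nonneg _ _)
    calc ∏ w ∈ univ.erase w0, w (a : K) ^ mult w ≤ ∏ w ∈ univ.erase w0, B ^ mult w :=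
          prod_le_prod (fun w _ => pow_nonneg (apply_nonneg _ _) _) fun w _ =>
            pow_le_pow_left₀ (apply_nonneg _ _) (by rw [← norm_evAt_emb]; exact h w) _
      _ = B ^ ∑ w ∈ univ.erase w0, mult w := prod_pow_eq_pow_sum _ _ _
      _ ≤ _ := pow_le_pow_right₀ hB (by
          rw [← sum_mult_eq]
          exact sum_le_sum_of_subset (erase_subset _ _))
  mem_bl c r a _ := by
    classical
    rw [mem_blK, norm_lt_iff]
    simp only [map_sub]
  pack c r hr := card_le_of_ball c hr _ fun a ha => mem_blK.mp ha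
  avg s p r hr := exists_avg hm s p hr

/-- The arithmetic input of the analytic part. -/
theorem good_of_tower (h : ∃ m : ℕ, ∀ B : ℕ, ∃ (K : Type) (_ : Field K) (_ : NumberField K),
      Nonempty (K →+* ℝ) ∧ B ≤ Module.finrank ℚ K ∧
        (NumberField.discr K).natAbs ≤ m ^ Module.finrank ℚ K) :
    ∃ C : ℝ, 1 ≤ C ∧ ∀ γ : ℝ, ∃ B γ' : ℝ, 1 ≤ B ∧ γ ≤ γ' ∧ ∀ n0 : ℕ, ∃ n, n0 ≤ n ∧ Good n B C γ' := by
  classical
  obtain ⟨m, hm⟩ := h
  have hm1 : (1 : ℝ) ≤ (m + 1 : ℕ) := by exact_mod_cast Nat.le_add_left 1 m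
  refine ⟨13650 * ((m + 1 : ℕ) : ℝ) ^ 4, ?_, fun γ => ?_⟩
  · have := one_le_pow₀ (n := 4) hm1
    linarith
  obtain ⟨N, hN⟩ := exists_nat_gt ((γ * (m + 1 : ℕ)) ^ 2 + 1)
  have hN1 : 1 ≤ N := by
    have : (1 : ℝ) ≤ N := by nlinarith [sq_nonneg (γ * (m + 1 : ℕ))]
    exact_mod_cast this
  refine ⟨BB N, √N / (m + 1 : ℕ), ?_, ?_, fun n0 => ?_⟩
  · obtain ⟨f1, -, f3, -⟩ := BB_facts hN1
    linarith
  · rw [le_div_iff₀ (by linarith)]
    exact Real.le_sqrt_of_sq_le (by linarith)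
  · obtain ⟨K, _, _, ⟨φ⟩, h1, h2⟩ := hm n0
    have hw : IsReal (InfinitePlace.mk (Complex.ofRealHom.comp φ)) :=
      isReal_mk_iff.mpr (by ext x; simp)
    exact ⟨_, h1, (isLat_field (h2.trans (Nat.pow_le_pow_left (Nat.le_succ m) _)) hw).good hm1
      Module.finrank_pos hN1⟩

end Pool.Agent.MT8

end
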