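import Pool.Agent.Lib.MP_8ec070_an.Main
import Pool.Agent.Lib.MP_8ec070_an.Core

/-!
Mean values of exponential sums over intervals and rectangles, the bump function and the
non-vanishing of the one-sided kernel.
-/

set_option autoImplicit false

section

namespace Pool.Agent.MT8

open MeasureTheory Real Finset Pool.Agent.Lib.MP_8ec070_an
open scoped FourierTransform ContDiff

lemma conj_ex (a : ℝ) : (starRingEnd ℂ) (ex a) = ex (-a) := by
  unfold ex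
  rw [← Complex.exp_conj, map_mul, Complex.conj_ofReal, Complex.conj_I]
  congr 1
  push_cast
  ring

lemma normsq_sum {J : Type} (s : Finset J) (g : J → ℝ) :
    ((‖∑ j ∈ s, ex (g j)‖ ^ 2 : ℝ) : ℂ) = ∑ p ∈ s ×ˢ s, ex (g p.1 - g p.2) := by
  rw [← Complex.normSq_eq_norm_sq, ← Complex.mul_conj, map_sum, sum_mul_sum, sum_product]
  refine sum_congr rfl fun i _ => sum_congr rfl fun j _ => ?_
  rw [conj_ex, ← ex_add, sub_eq_add_neg]

/-- Integral of a character over an interval. -/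
noncomputable def II (a b d : ℝ) : ℂ := ∫ s in Set.Icc a b, ex (d * s)

lemma II_zero {a b : ℝ} (h : a ≤ b) : II a b 0 = (b - a : ℝ) := by
  simp [II, ex_zero, h]

lemma norm_II_le {a b : ℝ} (h : a ≤ b) (d : ℝ) : ‖II a b d‖ ≤ b - a := by
  have := norm_setIntegral_le_of_norm_le_const (μ := volume) (s := Set.Icc a b) (C := 1)
    (f := fun s => ex (d * s)) (by simp) fun x _ => (norm_ex _).le
  simpa [h, II] using this

lemma norm_II_le' {a b : ℝ} (h : a ≤ b) {d Z : ℝ} (hZ : 1 ≤ |d| * Z) : ‖II a b d‖ ≤ Z := by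
  have hd : d ≠ 0 := by
    rintro rfl
    norm_num at hZ
  have hc : (2 * π * d * Complex.I : ℂ) ≠ 0 := by simp [hd, pi_ne_zero]
  have e : ∀ s : ℝ, ex (d * s) = Complex.exp ((2 * π * d * Complex.I : ℂ) * s) := by
    intro s
    unfold ex
    congr 1
    push_cast
    ring
  have h1 : II a b d = (ex (d * b) - ex (d * a)) / (2 * π * d * Complex.I : ℂ) := by
    rw [II, integral_Icc_eq_integral_Ioc, ← intervalIntegral.integral_of_le h]
    simp_rw [e]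
    exact integral_exp_mul_complex hc
  have h2 : ‖ex (d * b) - ex (d * a)‖ ≤ 2 := by
    refine (norm_sub_le _ _).trans ?_
    rw [norm_ex, norm_ex]
    norm_num
  have h3 : ‖(2 * π * d * Complex.I : ℂ)‖ = 2 * π * |d| := by
    simp [abs_of_pos pi_pos]
  have h4 : 0 < |d| := abs_pos.mpr hd
  rw [h1, norm_div, h3, div_le_iff₀ (by positivity)]
  nlinarith [pi_gt_three]

lemma continuous_expsum {J X : Type} [TopologicalSpace X] (s : Finset J) (g : J → X → ℝ)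
    (hg : ∀ j, Continuous (g j)) : Continuous fun x => ∑ j ∈ s, ex (g j x) :=
  continuous_finsetSum _ fun j _ => continuous_ex.comp (hg j)

lemma sum_ite_le {P : Type} (t : Finset P) (c : P → Prop) [DecidablePred c] (F : P → ℝ) {L Z : ℝ}
    (hZ : 0 ≤ Z) (h1 : ∀ p ∈ t, c p → F p ≤ L) (h2 : ∀ p ∈ t, ¬ c p → F p ≤ Z) :
    ∑ p ∈ t, F p ≤ L * (t.filter c).card + t.card * Z := by
  rw [← sum_filter_add_sum_filter_not t c]
  refine add_le_add ?_ ?_
  · rw [mul_comm, ← nsmul_eq_mul]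
    exact sum_le_card_nsmul _ _ _ fun p hp => h1 p (mem_filter.mp hp).1 (mem_filter.mp hp).2
  · refine (sum_le_card_nsmul _ _ Z fun p hp =>
      h2 p (mem_filter.mp hp).1 (mem_filter.mp hp).2).trans ?_
    rw [nsmul_eq_mul]
    gcongr
    exact filter_subset _ _

/-- Mean value of an exponential sum over an interval. -/
lemma int_line_le {J : Type} (s : Finset J) (α l : J → ℝ) {a b Z : ℝ} (h : a ≤ b) (hZ : 0 ≤ Z) :
    ∫ t in Set.Icc a b, ‖∑ j ∈ s, ex (α j + l j * t)‖ ^ 2 ≤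
      (b - a) * ((s ×ˢ s).filter fun p => |l p.1 - l p.2| * Z < 1).card + s.card ^ 2 * Z := by
  have h1 : ((∫ t in Set.Icc a b, ‖∑ j ∈ s, ex (α j + l j * t)‖ ^ 2 : ℝ) : ℂ) =
      ∑ p ∈ s ×ˢ s, ex (α p.1 - α p.2) * II a b (l p.1 - l p.2) := by
    rw [← integral_complex_ofReal]
    simp_rw [normsq_sum]
    rw [integral_finsetSum]
    · refine sum_congr rfl fun p _ => ?_
      rw [II, ← integral_const_mul]
      congr 1
      ext t
      rw [← ex_add]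
      congr 1
      ring
    · intro p _
      exact (continuous_ex.comp (by fun_prop)).integrableOn_Icc
  have h2 := congrArg (fun z => ‖z‖) h1
  simp only [Complex.norm_real, Real.norm_eq_abs] at h2
  refine (le_abs_self _).trans (h2.le.trans ((norm_sum_le _ _).trans ?_))
  rw [show (s.card : ℝ) ^ 2 = (s ×ˢ s).card by rw [card_product]; push_cast; ring]
  refine sum_ite_le _ _ _ hZ (fun p _ _ => ?_) fun p _ hp => ?_
  · rw [norm_mul, norm_ex, one_mul]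
    exact norm_II_le h _
  · rw [norm_mul, norm_ex, one_mul]
    exact norm_II_le' h (not_lt.mp hp)

/-- A rectangle in the plane. -/
def rect (a0 b0 a1 b1 : ℝ) : Set E2 := {x | x 0 ∈ Set.Icc a0 b0 ∧ x 1 ∈ Set.Icc a1 b1}

lemma isCompact_rect (a0 b0 a1 b1 : ℝ) : IsCompact (rect a0 b0 a1 b1) := by
  refine Metric.isCompact_of_isClosed_isBounded ?_ ?_
  · exact (isClosed_Icc.preimage (by fun_prop)).inter (isClosed_Icc.preimage (by fun_prop))
  · refine (Metric.isBounded_closedBall (x := (0 : E2))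
      (r := |a0| + |b0| + (|a1| + |b1|))).subset fun x hx => ?_
    rw [Metric.mem_closedBall, dist_zero_right]
    have h0 : |x 0| ≤ |a0| + |b0| := by
      rw [abs_le]
      constructor <;> linarith [hx.1.1, hx.1.2, le_abs_self b0, neg_abs_le a0, abs_nonneg a0,
        abs_nonneg b0]
    have h1 : |x 1| ≤ |a1| + |b1| := by
      rw [abs_le]
      constructor <;> linarith [hx.2.1, hx.2.2, le_abs_self b1, neg_abs_le a1, abs_nonneg a1,
        abs_nonneg b1]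
    refine le_trans ?_ (add_le_add h0 h1)
    refine (pow_le_pow_iff_left₀ (norm_nonneg _) (by positivity) two_ne_zero).mp ?_
    rw [norm_sq_two, add_sq, sq_abs, sq_abs]
    have : 0 ≤ 2 * |x 0| * |x 1| := by positivity
    linarith

lemma measurableSet_rect (a0 b0 a1 b1 : ℝ) : MeasurableSet (rect a0 b0 a1 b1) :=
  (isCompact_rect a0 b0 a1 b1).measurableSet

lemma int_rect_mul (a0 b0 a1 b1 : ℝ) (u v : ℝ → ℂ) :
    ∫ x in rect a0 b0 a1 b1, u (x 0) * v (x 1) =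
      (∫ s in Set.Icc a0 b0, u s) * ∫ s in Set.Icc a1 b1, v s := by
  rw [← integral_indicator (measurableSet_rect _ _ _ _), ← integral_indicator measurableSet_Icc,
    ← integral_indicator measurableSet_Icc, ← integral_prod2]
  congr 1
  ext x
  by_cases h0 : x 0 ∈ Set.Icc a0 b0 <;> by_cases h1 : x 1 ∈ Set.Icc a1 b1 <;>
    simp [rect, Set.indicator, h0, h1, -Set.mem_Icc]

lemma int_rect_expand {J : Type} (s : Finset J) (X Y : J → ℝ) (a0 b0 a1 b1 : ℝ) :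
    ((∫ x in rect a0 b0 a1 b1, ‖∑ j ∈ s, ex (X j * x 0 + Y j * x 1)‖ ^ 2 : ℝ) : ℂ) =
      ∑ p ∈ s ×ˢ s, II a0 b0 (X p.1 - X p.2) * II a1 b1 (Y p.1 - Y p.2) := by
  rw [← integral_complex_ofReal]
  simp_rw [normsq_sum]
  rw [integral_finsetSum]
  · refine sum_congr rfl fun p _ => ?_
    rw [II, II, ← int_rect_mul]
    congr 1
    ext x
    rw [← ex_add]
    congr 1
    ring
  · intro p _
    exact (continuous_ex.comp (by fun_prop)).continuousOn.integrableOn_compact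
      (isCompact_rect _ _ _ _)

/-- Upper bound over a square, using the first or the second coordinate. -/
lemma int_rect_le {J : Type} (s : Finset J) (X Y : J → ℝ) (a0 a1 : ℝ) {L Z : ℝ} (hL : 0 ≤ L)
    (hZ : 0 ≤ Z) (c : J × J → Prop) [DecidablePred c]
    (hc : ∀ p ∈ s ×ˢ s, ¬ c p → 1 ≤ |X p.1 - X p.2| * Z ∨ 1 ≤ |Y p.1 - Y p.2| * Z) :
    ∫ x in rect a0 (a0 + L) a1 (a1 + L), ‖∑ j ∈ s, ex (X j * x 0 + Y j * x 1)‖ ^ 2 ≤
      L ^ 2 * ((s ×ˢ s).filter c).card + s.card ^ 2 * (L * Z) := by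
  have h2 := congrArg (fun z => ‖z‖) (int_rect_expand s X Y a0 (a0 + L) a1 (a1 + L))
  simp only [Complex.norm_real, Real.norm_eq_abs] at h2
  refine (le_abs_self _).trans (h2.le.trans ((norm_sum_le _ _).trans ?_))
  rw [show (s.card : ℝ) ^ 2 = (s ×ˢ s).card by rw [card_product]; push_cast; ring]
  have b0 : ∀ d, ‖II a0 (a0 + L) d‖ ≤ L := fun d => by
    simpa using norm_II_le (show a0 ≤ a0 + L by linarith) d
  have b1 : ∀ d, ‖II a1 (a1 + L) d‖ ≤ L := fun d => by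
    simpa using norm_II_le (show a1 ≤ a1 + L by linarith) d
  refine sum_ite_le _ _ _ (by positivity) (fun p _ _ => ?_) fun p hp hp' => ?_
  · rw [norm_mul, sq]
    exact mul_le_mul (b0 _) (b1 _) (norm_nonneg _) hL
  · rw [norm_mul]
    rcases hc p hp hp' with h | h
    · rw [mul_comm]
      exact mul_le_mul (b1 _) (norm_II_le' (by linarith) h) (norm_nonneg _) hL
    · exact mul_le_mul (b0 _) (norm_II_le' (by linarith) h) (norm_nonneg _) hL

/-- Lower bound over a square. -/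
lemma le_int_rect {J : Type} (s : Finset J) (X Y : J → ℝ) (a0 a1 : ℝ) {L Z : ℝ} (hL : 0 ≤ L)
    (hZ : 0 ≤ Z) (c : J × J → Prop) [DecidablePred c]
    (hc0 : ∀ p ∈ s ×ˢ s, c p → X p.1 = X p.2 ∧ Y p.1 = Y p.2)
    (hc : ∀ p ∈ s ×ˢ s, ¬ c p → 1 ≤ |X p.1 - X p.2| * Z ∨ 1 ≤ |Y p.1 - Y p.2| * Z) :
    L ^ 2 * ((s ×ˢ s).filter c).card - s.card ^ 2 * (L * Z) ≤
      ∫ x in rect a0 (a0 + L) a1 (a1 + L), ‖∑ j ∈ s, ex (X j * x 0 + Y j * x 1)‖ ^ 2 := by
  have h2 := congrArg Complex.re (int_rect_expand s X Y a0 (a0 + L) a1 (a1 + L))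
  rw [Complex.ofReal_re] at h2
  rw [h2, Complex.re_sum, ← sum_filter_add_sum_filter_not _ c, sub_eq_add_neg]
  have b0 : ∀ d, ‖II a0 (a0 + L) d‖ ≤ L := fun d => by
    simpa using norm_II_le (show a0 ≤ a0 + L by linarith) d
  have b1 : ∀ d, ‖II a1 (a1 + L) d‖ ≤ L := fun d => by
    simpa using norm_II_le (show a1 ≤ a1 + L by linarith) d
  refine add_le_add ?_ ?_
  · rw [mul_comm, ← nsmul_eq_mul]
    refine card_nsmul_le_sum _ _ _ fun p hp => ?_
    obtain ⟨e0, e1⟩ := hc0 p (mem_filter.mp hp).1 (mem_filter.mp hp).2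
    rw [e0, e1, sub_self, sub_self, II_zero (by linarith), II_zero (by linarith),
      ← Complex.ofReal_mul, Complex.ofReal_re]
    exact le_of_eq (by ring)
  · rw [neg_le, ← sum_neg_distrib]
    refine (sum_le_card_nsmul _ _ (L * Z) fun p hp => ?_).trans ?_
    · refine (neg_le_abs _).trans ((Complex.abs_re_le_norm _).trans ?_)
      rw [norm_mul]
      rcases hc p (mem_filter.mp hp).1 (mem_filter.mp hp).2 with h | h
      · rw [mul_comm]
        exact mul_le_mul (b1 _) (norm_II_le' (by linarith) h) (norm_nonneg _) hL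
      · exact mul_le_mul (b0 _) (norm_II_le' (by linarith) h) (norm_nonneg _) hL
    · rw [nsmul_eq_mul, show (s.card : ℝ) ^ 2 = (s ×ˢ s).card by rw [card_product]; push_cast; ring]
      gcongr
      exact filter_subset _ _

/-- A bump function `b` together with its Fourier transform `q`. -/
structure Bump (b : ℝ → ℝ) (q : ℝ → ℂ) : Prop where
  smooth : ContDiff ℝ ∞ b
  nonneg : ∀ x, 0 ≤ b x
  le_one : ∀ x, b x ≤ 1
  zero : ∀ x, 1 ≤ |x| → b x = 0
  one : ∀ x, |x| ≤ 1 / 2 → b x = 1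
  ft : ∀ η, q η = ∫ y, ex (-(y * η)) * b y
  cont : Continuous q
  ne : q 0 ≠ 0
  int : Integrable fun s => (1 + |s|) ^ 2 * ‖q s‖
  inv : ∀ x, ∫ η, q η * ex (x * η) = b x

lemma fourier_eq_ex (g : ℝ → ℂ) (η : ℝ) : 𝓕 g η = ∫ y, ex (-(y * η)) * g y := by
  rw [Real.fourier_eq']
  congr 1
  ext s
  simp [ex, mul_comm]

lemma fourierInv_eq_ex (g : ℝ → ℂ) (y : ℝ) : 𝓕⁻ g y = ∫ s, g s * ex (y * s) := by
  rw [Real.fourierInv_eq']
  congr 1
  ext s
  simp [ex, mul_comm]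

lemma exists_Bump : ∃ b q, Bump b q := by
  let b : ContDiffBump (0 : ℝ) := ⟨1 / 2, 1, by norm_num, by norm_num⟩
  have hβ : ContDiff ℝ ∞ fun x => (b x : ℂ) := Complex.ofRealCLM.contDiff.comp b.contDiff
  have hc : HasCompactSupport fun x => (b x : ℂ) :=
    b.hasCompactSupport.comp_left (g := fun t : ℝ => (t : ℂ)) Complex.ofReal_zero
  let B : SchwartzMap ℝ ℂ := hc.toSchwartzMap hβ
  let Q : SchwartzMap ℝ ℂ := 𝓕 B
  have hQ : (Q : ℝ → ℂ) = 𝓕 (B : ℝ → ℂ) := SchwartzMap.fourier_coe B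
  have hft : ∀ η, Q η = ∫ y, ex (-(y * η)) * b y := fun η => by
    rw [hQ, fourier_eq_ex]
    rfl
  refine ⟨b, Q, b.contDiff, fun x => b.nonneg, fun x => b.le_one, fun x hx => ?_, fun x hx => ?_,
    hft, Q.continuous, ?_, ?_, fun x => ?_⟩
  · exact b.zero_of_le_dist (by simpa using hx)
  · exact b.one_of_mem_closedBall (by simpa [b] using hx)
  · rw [hft]
    simp only [mul_zero, neg_zero, ex_zero, one_mul]
    rw [integral_complex_ofReal]
    exact_mod_cast b.integral_pos.ne'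
  · have h0 := Q.integrable_pow_mul volume 0
    have h1 := Q.integrable_pow_mul volume 1
    have h2 := Q.integrable_pow_mul volume 2
    refine ((h0.add (h1.const_mul 2)).add h2).congr (Filter.Eventually.of_forall fun s => ?_)
    simp only [Pi.add_apply, Real.norm_eq_abs]
    ring
  · rw [← fourierInv_eq_ex, hQ,
      B.continuous.fourierInv_fourier_eq B.integrable (by rw [← hQ]; exact Q.integrable)]
    rfl

lemma Bump.integrable {b : ℝ → ℝ} {q : ℝ → ℂ} (h : Bump b q) {c : ℝ → ℂ} (hc : Continuous c)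
    (hb : ∀ s, ‖c s‖ ≤ (1 + |s|) ^ 2) : Integrable fun s => c s * q s := by
  refine h.int.mono' (hc.mul h.cont).aestronglyMeasurable (Filter.Eventually.of_forall fun s => ?_)
  rw [norm_mul]
  gcongr
  exact hb s

/-- The truncated power. -/
noncomputable def pw (ε t : ℝ) : ℝ := (max t 0) ^ ε

lemma continuous_pw {ε : ℝ} (hε : 0 < ε) : Continuous (pw ε) :=
  (continuous_id.max continuous_const).rpow_const fun _ => Or.inr hε.le

lemma pw_nonneg (ε t : ℝ) : 0 ≤ pw ε t := rpow_nonneg (le_max_right _ _) _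

lemma pw_holder {ε : ℝ} (hε : 0 < ε) (hε1 : ε ≤ 1) (s t : ℝ) :
    |pw ε s - pw ε t| ≤ |s - t| ^ ε := by
  have aux : ∀ s t : ℝ, pw ε s - pw ε t ≤ |s - t| ^ ε := by
    intro s t
    have h1 : max s 0 ≤ max t 0 + |s - t| := by
      linarith [abs_max_sub_max_le_abs s t 0, le_abs_self (max s 0 - max t 0)]
    have h2 := rpow_le_rpow (le_max_right s 0) h1 hε.le
    have h3 := Real.rpow_add_le_add_rpow (le_max_right t 0) (abs_nonneg (s - t)) hε.le hε1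
    unfold pw
    linarith
  rw [abs_le]
  have := aux t s
  rw [abs_sub_comm] at this
  exact ⟨by linarith, aux s t⟩

lemma rpow_le_of_le {ε t c : ℝ} (hε : 0 < ε) (hε1 : ε ≤ 1) (ht : 0 ≤ t) (hc : 1 ≤ c) (h : t ≤ c) :
    t ^ ε ≤ c := by
  calc t ^ ε ≤ c ^ ε := rpow_le_rpow ht h hε.le
    _ ≤ c ^ (1 : ℝ) := rpow_le_rpow_of_exponent_le hc hε1
    _ = c := rpow_one c

lemma pw_le {ε : ℝ} (hε : 0 < ε) (hε1 : ε ≤ 1) (s : ℝ) : pw ε (-2 * s) ≤ (1 + |s|) ^ 2 := by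
  have h0 := abs_nonneg s
  refine rpow_le_of_le hε hε1 (le_max_right _ _) (by nlinarith) (max_le ?_ (by positivity))
  nlinarith [neg_abs_le s]

/-- The one-sided kernel. -/
noncomputable def ker (q : ℝ → ℂ) (ε y : ℝ) : ℂ := ∫ s, (pw ε (-2 * s) : ℂ) * q s * ex (y * s)

lemma Bump.integrable_pw {b : ℝ → ℝ} {q : ℝ → ℂ} (h : Bump b q) {ε : ℝ} (hε : 0 < ε)
    (hε1 : ε ≤ 1) : Integrable fun s => (pw ε (-2 * s) : ℂ) * q s :=
  h.integrable (Complex.continuous_ofReal.comp ((continuous_pw hε).comp (by fun_prop))) fun s => by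
    rw [Complex.norm_real, Real.norm_of_nonneg (pw_nonneg _ _)]
    exact pw_le hε hε1 s

lemma Bump.continuous_ker {b : ℝ → ℝ} {q : ℝ → ℂ} (h : Bump b q) {ε : ℝ} (hε : 0 < ε)
    (hε1 : ε ≤ 1) : Continuous (ker q ε) := by
  refine continuous_of_dominated (bound := fun s => ‖(pw ε (-2 * s) : ℂ) * q s‖) (fun y => ?_)
    (fun y => Filter.Eventually.of_forall fun s => ?_) (h.integrable_pw hε hε1).norm
    (Filter.Eventually.of_forall fun s => ?_)
  · exact (h.integrable_pw hε hε1).aestronglyMeasurable.mul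
      (continuous_ex.comp (by fun_prop)).aestronglyMeasurable
  · rw [norm_mul, norm_ex, mul_one]
  · exact continuous_const.mul (continuous_ex.comp (by fun_prop))

/-- The one-sided kernel does not vanish identically outside the support of the bump. -/
lemma Bump.exists_ker_ne {b : ℝ → ℝ} {q : ℝ → ℂ} (h : Bump b q) {ε : ℝ} (hε : 0 < ε)
    (hε1 : ε < 1) : ∃ y, 1 < |y| ∧ ker q ε y ≠ 0 := by
  by_contra hcon
  push Not at hcon
  set g : ℝ → ℂ := fun s => (pw ε (-2 * s) : ℂ) * q s with hg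
  have hgc : Continuous g :=
    (Complex.continuous_ofReal.comp ((continuous_pw hε).comp (by fun_prop))).mul h.cont
  have hgi : Integrable g := h.integrable_pw hε hε1.le
  have hk : 𝓕⁻ g = ker q ε := funext fun y => fourierInv_eq_ex g y
  have hkc := h.continuous_ker hε hε1.le
  have hki : Integrable (ker q ε) := by
    refine hkc.integrable_of_hasCompactSupport ?_
    refine HasCompactSupport.intro (isCompact_closedBall (0 : ℝ) 1) fun y hy => hcon y ?_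
    simpa using hy
  have hFi : Integrable (𝓕 g) := by
    have : 𝓕 g = fun y => ker q ε (-y) := by
      funext y
      rw [← hk, Real.fourierInv_eq_fourier_neg, neg_neg]
    rw [this]
    exact hki.comp_neg
  have hinv : ∀ s, g s = ∫ y, ex (-(y * s)) * ker q ε y := fun s => by
    rw [← fourier_eq_ex, ← hk, hgc.fourier_fourierInv_eq hgi hFi]
  have hg0 : g 0 = 0 := by simp [hg, pw, hε.ne']
  set L := ∫ y, ‖ker q ε y‖ with hL
  have hint : ∀ s, Integrable fun y => ex (-(y * s)) * ker q ε y := fun s =>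
    hki.bdd_mul (c := 1) (continuous_ex.comp (by fun_prop)).aestronglyMeasurable
      (Filter.Eventually.of_forall fun y => (norm_ex _).le)
  have hlip : ∀ s, ‖g s‖ ≤ 2 * π * |s| * L := by
    intro s
    have e : g s = ∫ y, (ex (-(y * s)) * ker q ε y - ex (-(y * 0)) * ker q ε y) := by
      rw [integral_sub (hint s) (hint 0), ← hinv, ← hinv, hg0, sub_zero]
    rw [e, hL, ← integral_const_mul]
    refine norm_integral_le_of_norm_le (hki.norm.const_mul _)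
      (Filter.Eventually.of_forall fun y => ?_)
    rw [mul_zero, neg_zero, ex_zero, ← sub_mul, norm_mul]
    by_cases hy : 1 < |y|
    · simp [hcon y hy]
    · refine mul_le_mul_of_nonneg_right ?_ (norm_nonneg _)
      have := Real.norm_exp_I_mul_ofReal_sub_one_le (x := 2 * π * (-(y * s)))
      rw [mul_comm] at this
      refine this.trans ?_
      rw [Real.norm_eq_abs, abs_mul, abs_neg, abs_mul y, abs_of_pos (by positivity : 0 < 2 * π)]
      exact mul_le_mul_of_nonneg_left (mul_le_of_le_one_left (abs_nonneg _) (not_lt.mp hy))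
        (by positivity)
  have h1 : ∀ t : ℝ, 0 < t → ‖q (-t)‖ ≤ 2 * π * L * t ^ (1 - ε) := by
    intro t ht
    have a1 := hlip (-t)
    have a2 : t ^ ε ≤ pw ε (-2 * -t) := rpow_le_rpow ht.le (le_max_of_le_left (by linarith)) hε.le
    simp only [hg] at a1
    rw [norm_mul, Complex.norm_real, Real.norm_of_nonneg (pw_nonneg _ _), abs_neg,
      abs_of_pos ht] at a1
    have a3 : 0 < t ^ ε := rpow_pos_of_pos ht _
    refine le_of_mul_le_mul_left ?_ a3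
    have a4 : t ^ ε * t ^ (1 - ε) = t := by rw [← rpow_add ht]; simp
    calc t ^ ε * ‖q (-t)‖ ≤ pw ε (-2 * -t) * ‖q (-t)‖ := by gcongr
      _ ≤ 2 * π * t * L := a1
      _ = 2 * π * L * (t ^ ε * t ^ (1 - ε)) := by rw [a4]; ring
      _ = _ := by ring
  have h2 : Filter.Tendsto (fun t : ℝ => ‖q (-t)‖) (nhdsWithin 0 (Set.Ioi 0)) (nhds ‖q (-0)‖) :=
    ((h.cont.comp continuous_neg).norm.tendsto 0).mono_left nhdsWithin_le_nhds
  have h3 : Filter.Tendsto (fun t : ℝ => 2 * π * L * t ^ (1 - ε)) (nhdsWithin 0 (Set.Ioi 0))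
      (nhds (2 * π * L * (0 : ℝ) ^ (1 - ε))) :=
    ((continuous_const.mul (continuous_id.rpow_const fun _ => Or.inr (by linarith))).tendsto
      0).mono_left nhdsWithin_le_nhds
  have h4 := le_of_tendsto_of_tendsto h2 h3 (eventually_nhdsWithin_of_forall h1)
  rw [zero_rpow (by linarith), mul_zero, neg_zero] at h4
  exact h.ne (norm_le_zero_iff.mp h4)

/-- A window, away from the support of the bump, on which the kernel is bounded below. -/
lemma Bump.exists_window {b : ℝ → ℝ} {q : ℝ → ℂ} (h : Bump b q) {ε : ℝ} (hε : 0 < ε)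
    (hε1 : ε < 1) : ∃ y0 r c : ℝ, 0 < r ∧ r ≤ 1 / 2 ∧ 1 + 2 * r ≤ |y0| ∧ 0 < c ∧
      ∀ y ∈ Set.Icc y0 (y0 + r), c ≤ ‖ker q ε y‖ := by
  obtain ⟨y0, hy0, hk⟩ := h.exists_ker_ne hε hε1
  have hp := norm_pos_iff.mpr hk
  obtain ⟨δ, hδ, hd⟩ := Metric.continuousAt_iff.mp
    (h.continuous_ker hε hε1.le).norm.continuousAt (‖ker q ε y0‖ / 2) (by linarith)
  refine ⟨y0, min (min (δ / 2) (1 / 2)) ((|y0| - 1) / 2), ‖ker q ε y0‖ / 2,
    lt_min (lt_min (by linarith) (by norm_num)) (by linarith),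
    (min_le_left _ _).trans (min_le_right _ _), ?_, by linarith, fun y hy => ?_⟩
  · linarith [min_le_right (min (δ / 2) (1 / 2)) ((|y0| - 1) / 2)]
  · have h1 : min (min (δ / 2) (1 / 2)) ((|y0| - 1) / 2) ≤ δ / 2 :=
      (min_le_left _ _).trans (min_le_left _ _)
    have h2 : dist y y0 < δ := by
      rw [Real.dist_eq, abs_lt]
      constructor <;> linarith [hy.1, hy.2]
    have h3 := hd h2
    rw [Real.dist_eq, abs_lt] at h3
    linarith [h3.1]

end Pool.Agent.MT8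

end

/-!
The test function, its Bochner-Riesz mean, the ray maximal function of the weight, and the
contradiction with the weighted inequality.
-/

set_option autoImplicit false

section

namespace Pool.Agent.MT8

open MeasureTheory Real Finset Pool.Agent.Lib.MP_8ec070_an
open scoped FourierTransform ContDiff

/-- The Fourier transform as written in the statement. -/
noncomputable def FT (f : E2 → ℂ) (ξ : E2) : ℂ :=
  ∫ y, Complex.exp (((-2 * Real.pi * @inner ℝ _ _ y ξ : ℝ) : ℂ) * Complex.I) * f y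

/-- The Bochner-Riesz mean as written in the statement. -/
noncomputable def BR (ε : ℝ) (f : E2 → ℂ) (x : E2) : ℂ :=
  ∫ ξ, (((max (1 - ‖ξ‖ ^ 2) 0) ^ ε : ℝ) : ℂ) *
    (FT f ξ * Complex.exp (((2 * Real.pi * @inner ℝ _ _ x ξ : ℝ) : ℂ) * Complex.I))

/-- The ray maximal function as written in the statement. -/
noncomputable def MM (φ : E2 → ℝ) (x : E2) : ENNReal :=
  ⨆ (o : E2) (_ : ‖o‖ = 1) (r : ℝ) (_ : 0 < r), ENNReal.ofReal (2 / r ^ 2) *
    ∫⁻ s in Set.Ioc (0 : ℝ) r, ENNReal.ofReal (φ (x - s • o) * s)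

/-- The weighted inequality with the ray maximal function. -/
def Ineq (ε : ℝ) (A : NNReal) : Prop :=
  ∀ (f : SchwartzMap E2 ℂ) (φ : E2 → ℝ), (∀ x, 0 ≤ φ x) → LocallyIntegrable φ volume →
    ∫⁻ x, ENNReal.ofReal (‖BR ε f x‖ ^ 2 * φ x) ≤
      (A : ENNReal) * ∫⁻ x, ENNReal.ofReal (‖f x‖ ^ 2) * MM φ x

lemma integrable_prod2' {u v : ℝ → ℂ} (hu : Integrable u) (hv : Integrable v) :
    Integrable (fun x : E2 => u (x 0) * v (x 1)) := by
  rw [← (PiLp.volume_preserving_toLp (Fin 2)).integrable_comp_emb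
    (MeasurableEquiv.toLp 2 _).measurableEmbedding]
  have := Integrable.fintype_prod (ι := Fin 2) (f := ![u, v]) (μ := fun _ => volume)
    (by intro i; fin_cases i <;> simpa)
  simpa [Fin.prod_univ_two, Function.comp_def, volume_pi] using this

lemma int_aff {E : Type} [NormedAddCommGroup E] [NormedSpace ℝ E] (G : ℝ → E) {ρ : ℝ} (hρ : 0 < ρ)
    (ζ : ℝ) : ∫ s, ρ • G (ρ * (s - ζ)) = ∫ s, G s := by
  rw [integral_smul, integral_sub_right_eq_self (fun s => G (ρ * s)) ζ,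
    Measure.integral_comp_mul_left, abs_of_pos (inv_pos.mpr hρ), smul_smul,
    mul_inv_cancel₀ hρ.ne', one_smul]

lemma integrable_aff {E : Type} [NormedAddCommGroup E] [NormedSpace ℝ E] {G : ℝ → E}
    (hG : Integrable G) {ρ : ℝ} (hρ : 0 < ρ) (ζ : ℝ) : Integrable fun s => ρ • G (ρ * (s - ζ)) :=
  ((hG.comp_mul_left' hρ.ne').comp_sub_right ζ).smul ρ

lemma contDiff_ex : ContDiff ℝ ∞ ex := by
  have h : ContDiff ℝ ∞ fun r : ℝ => ((2 * π * r : ℝ) : ℂ) :=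
    Complex.ofRealCLM.contDiff.comp (contDiff_const.mul contDiff_id)
  exact (h.mul contDiff_const).cexp

/-- The exponential sum with frequencies on the parabola osculating the circle. -/
noncomputable def PP {α : Type} (S : Finset α) (w : α → ℝ) (x : E2) : ℂ :=
  ∑ a ∈ S, ex (w a * x 0 + (1 - w a ^ 2 / 2) * x 1)

variable {b : ℝ → ℝ} {q : ℝ → ℂ}

lemma Bump.zero_div (h : Bump b q) {ρ t : ℝ} (hρ : 0 < ρ) (ht : ρ ≤ |t|) : b (t / ρ) = 0 := by
  apply h.zero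
  rwa [abs_div, abs_of_pos hρ, one_le_div hρ]

lemma Bump.exists_schwartz (h : Bump b q) {α : Type} (S : Finset α) (w : α → ℝ) {ρ : ℝ}
    (hρ : 0 < ρ) : ∃ f : SchwartzMap E2 ℂ,
      ∀ x, f x = PP S w x * (b (x 0 / ρ) * b (x 1 / ρ) : ℝ) := by
  have h0 : ContDiff ℝ ∞ (fun ξ : E2 => ξ 0) := (EuclideanSpace.proj (𝕜 := ℝ) (0 : Fin 2)).contDiff
  have h1 : ContDiff ℝ ∞ (fun ξ : E2 => ξ 1) := (EuclideanSpace.proj (𝕜 := ℝ) (1 : Fin 2)).contDiff
  have hP : ContDiff ℝ ∞ (PP S w) :=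
    ContDiff.sum fun a _ => contDiff_ex.comp ((contDiff_const.mul h0).add (contDiff_const.mul h1))
  have hb : ContDiff ℝ ∞ fun x : E2 => ((b (x 0 / ρ) * b (x 1 / ρ) : ℝ) : ℂ) :=
    Complex.ofRealCLM.contDiff.comp
      ((h.smooth.comp (h0.div_const ρ)).mul (h.smooth.comp (h1.div_const ρ)))
  have hc : HasCompactSupport fun x : E2 => PP S w x * (b (x 0 / ρ) * b (x 1 / ρ) : ℝ) := by
    refine HasCompactSupport.intro (isCompact_rect (-ρ) ρ (-ρ) ρ) fun x hx => ?_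
    simp only [rect, Set.mem_ofPred_eq, Set.mem_Icc, ← abs_le, not_and_or, not_le] at hx
    rcases hx with hx | hx <;> simp [h.zero_div hρ hx.le]
  exact ⟨hc.toSchwartzMap (hP.mul hb), fun x => rfl⟩

lemma Bump.integrable_mod (h : Bump b q) {ρ : ℝ} (hρ : 0 < ρ) (d : ℝ) :
    Integrable fun y => ex (d * y) * b (y / ρ) := by
  refine Continuous.integrable_of_hasCompactSupport
    ((continuous_ex.comp (by fun_prop)).mul
      (Complex.continuous_ofReal.comp (h.smooth.continuous.comp (by fun_prop)))) ?_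
  refine HasCompactSupport.intro (isCompact_closedBall (0 : ℝ) ρ) fun y hy => ?_
  simp only [Metric.mem_closedBall, dist_zero_right, Real.norm_eq_abs, not_le] at hy
  simp [h.zero_div hρ hy.le]

lemma Bump.int_mod (h : Bump b q) {ρ : ℝ} (hρ : 0 < ρ) (ζ ξ : ℝ) :
    ∫ y, ex ((ζ - ξ) * y) * b (y / ρ) = ρ • q (ρ * (ξ - ζ)) := by
  have := Measure.integral_comp_div (fun t => ex (-(t * (ρ * (ξ - ζ)))) * b t) ρ
  rw [abs_of_pos hρ, ← h.ft] at this
  rw [← this]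
  congr 1
  ext y
  congr 2
  field_simp
  ring

lemma Bump.FT_eq (h : Bump b q) {α : Type} (S : Finset α) (w : α → ℝ) {ρ : ℝ} (hρ : 0 < ρ)
    {f : E2 → ℂ} (hf : ∀ x, f x = PP S w x * (b (x 0 / ρ) * b (x 1 / ρ) : ℝ)) (ξ : E2) :
    FT f ξ = ∑ a ∈ S, (ρ • q (ρ * (ξ 0 - w a))) * (ρ • q (ρ * (ξ 1 - (1 - w a ^ 2 / 2)))) := by
  have e : ∀ y : E2, Complex.exp (((-2 * Real.pi * @inner ℝ _ _ y ξ : ℝ) : ℂ) * Complex.I) * f y =
      ∑ a ∈ S, (ex ((w a - ξ 0) * y 0) * b (y 0 / ρ)) *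
        (ex ((1 - w a ^ 2 / 2 - ξ 1) * y 1) * b (y 1 / ρ)) := by
    intro y
    have e1 : Complex.exp (((-2 * Real.pi * @inner ℝ _ _ y ξ : ℝ) : ℂ) * Complex.I) =
        ex (-(y 0 * ξ 0 + y 1 * ξ 1)) := by
      rw [inner_two, ex]
      congr 3
      ring
    rw [e1, hf, PP, sum_mul, mul_sum]
    refine sum_congr rfl fun a _ => ?_
    rw [← mul_assoc, ← ex_add, mul_mul_mul_comm, ← ex_add]
    push_cast
    congr 2
    ring
  rw [FT]
  simp_rw [e]
  rw [integral_finsetSum _ fun a _ =>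
    integrable_prod2' (h.integrable_mod hρ _) (h.integrable_mod hρ _)]
  refine sum_congr rfl fun a _ => ?_
  rw [integral_prod2 (fun t => ex ((w a - ξ 0) * t) * b (t / ρ))
    (fun t => ex ((1 - w a ^ 2 / 2 - ξ 1) * t) * b (t / ρ)), h.int_mod hρ, h.int_mod hρ]

lemma pw_div {ε ρ : ℝ} (hρ : 0 < ρ) (t : ℝ) : pw ε (t / ρ) = ρ ^ (-ε) * pw ε t := by
  unfold pw
  rw [show max (t / ρ) 0 = max t 0 / ρ by rw [← max_div_div_right hρ.le, zero_div],
    div_rpow (le_max_right _ _) hρ.le, rpow_neg hρ.le, div_eq_inv_mul]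

/-- The multiplier near a point of the parabola. -/
lemma mult_approx {ε ρ κ w : ℝ} (hε : 0 < ε) (hε1 : ε ≤ 1) (hρ : 0 < ρ) (hκ1 : κ ≤ 1)
    (h1 : |w| ≤ κ) (h2 : ρ * w ^ 4 ≤ κ) (h3 : 1 ≤ ρ * κ) (s t : ℝ) :
    |pw ε (1 - (s ^ 2 + t ^ 2)) - ρ ^ (-ε) * pw ε (-2 * (ρ * (t - (1 - w ^ 2 / 2))))| ≤
      ρ ^ (-ε) * κ ^ ε *
        ((1 + |ρ * (s - w)|) ^ 2 * (1 + |ρ * (t - (1 - w ^ 2 / 2))|) ^ 2) := by
  set a := ρ * (s - w) with ha
  set c := ρ * (t - (1 - w ^ 2 / 2)) with hc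
  have hκ : 0 ≤ κ := (abs_nonneg _).trans h1
  have hs : s = w + a / ρ := by rw [ha]; field_simp; ring
  have ht : t = 1 - w ^ 2 / 2 + c / ρ := by rw [hc]; field_simp; ring
  clear_value a c
  set err := -(ρ * w ^ 4) / 4 - 2 * w * a + w ^ 2 * c - (a ^ 2 + c ^ 2) * ρ⁻¹ with herr
  have e : 1 - (s ^ 2 + t ^ 2) = (-2 * c + err) / ρ := by
    rw [hs, ht, herr]
    field_simp
    ring
  have hρ' : ρ⁻¹ ≤ κ := by rwa [inv_le_iff_one_le_mul₀' hρ]
  have hw2 : w ^ 2 ≤ κ := by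
    rw [← sq_abs]
    nlinarith [abs_nonneg w]
  have hA := abs_nonneg a
  have hC := abs_nonneg c
  set D := (1 + |a|) ^ 2 * (1 + |c|) ^ 2 with hD
  have hD1 : 1 + 2 * |a| + |c| + (a ^ 2 + c ^ 2) ≤ D := by
    rw [hD, ← sq_abs a, ← sq_abs c]
    have k1 : 0 ≤ (2 * |a| + |a| ^ 2) * (2 * |c| + |c| ^ 2) := by positivity
    nlinarith
  have hb : |err| ≤ κ * D := by
    have k1 : |2 * w * a| ≤ κ * (2 * |a|) := by
      rw [abs_mul, abs_mul, abs_two]
      nlinarith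
    have k2 : |w ^ 2 * c| ≤ κ * |c| := by
      rw [abs_mul, abs_of_nonneg (sq_nonneg w)]
      gcongr
    have k3 : (a ^ 2 + c ^ 2) * ρ⁻¹ ≤ (a ^ 2 + c ^ 2) * κ := by gcongr
    have k4 : 0 ≤ (a ^ 2 + c ^ 2) * ρ⁻¹ := by positivity
    have k5 : 0 ≤ ρ * w ^ 4 := by positivity
    have k6 := mul_le_mul_of_nonneg_left hD1 hκ
    rw [abs_le] at k1 k2 ⊢
    constructor <;> nlinarith [k1.1, k1.2, k2.1, k2.2]
  have hD2 : 1 ≤ D := by nlinarith [sq_nonneg a, sq_nonneg c]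
  have hρε : 0 < ρ ^ (-ε) := rpow_pos_of_pos hρ _
  rw [e, pw_div hρ, ← mul_sub, abs_mul, abs_of_pos hρε, mul_assoc]
  refine mul_le_mul_of_nonneg_left ((pw_holder hε hε1 _ _).trans ?_) hρε.le
  rw [add_sub_cancel_left]
  refine (rpow_le_rpow (abs_nonneg _) hb hε.le).trans ?_
  rw [mul_rpow hκ (by linarith)]
  exact mul_le_mul_of_nonneg_left (rpow_le_of_le hε hε1 (by linarith) hD2 le_rfl)
    (rpow_nonneg hκ _)

lemma Bump.integrable_q (h : Bump b q) : Integrable q := by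
  simpa using h.integrable (c := fun _ => 1) continuous_const fun s => by
    simpa using one_le_pow₀ (n := 2) (le_add_of_nonneg_right (abs_nonneg s))

lemma integrable_mul_ex {g : ℝ → ℂ} (hg : Integrable g) (d : ℝ) :
    Integrable fun s => g s * ex (d * s) :=
  hg.mul_bdd (c := 1) (continuous_ex.comp (by fun_prop)).aestronglyMeasurable
    (Filter.Eventually.of_forall fun _ => (norm_ex _).le)

lemma int_aff_ex (g : ℝ → ℂ) {ρ : ℝ} (hρ : 0 < ρ) (ζ y : ℝ) :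
    ∫ s, ρ • g (ρ * (s - ζ)) * ex (y * s) = ex (ζ * y) * ∫ s, g s * ex (y / ρ * s) := by
  rw [← integral_const_mul, ← int_aff (fun s => ex (ζ * y) * (g s * ex (y / ρ * s))) hρ ζ]
  congr 1
  ext s
  rw [smul_mul_assoc, mul_left_comm, ← ex_add]
  congr 3
  field_simp
  ring

/-- The contribution of one frequency. -/
lemma Bump.term (h : Bump b q) {ε ρ κ w : ℝ} (hε : 0 < ε) (hε1 : ε ≤ 1) (hρ : 0 < ρ) (hκ1 : κ ≤ 1)
    (h1 : |w| ≤ κ) (h2 : ρ * w ^ 4 ≤ κ) (h3 : 1 ≤ ρ * κ) (x : E2) :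
    Integrable (fun ξ : E2 => (pw ε (1 - ‖ξ‖ ^ 2) : ℂ) *
      ((ρ • q (ρ * (ξ 0 - w)) * ex (x 0 * ξ 0)) *
        (ρ • q (ρ * (ξ 1 - (1 - w ^ 2 / 2))) * ex (x 1 * ξ 1)))) ∧
    ‖(∫ ξ : E2, (pw ε (1 - ‖ξ‖ ^ 2) : ℂ) * ((ρ • q (ρ * (ξ 0 - w)) * ex (x 0 * ξ 0)) *
        (ρ • q (ρ * (ξ 1 - (1 - w ^ 2 / 2))) * ex (x 1 * ξ 1)))) -
      (ρ ^ (-ε) : ℝ) * (b (x 0 / ρ) * ker q ε (x 1 / ρ)) *
        ex (w * x 0 + (1 - w ^ 2 / 2) * x 1)‖ ≤
      ρ ^ (-ε) * κ ^ ε * (∫ s, (1 + |s|) ^ 2 * ‖q s‖) ^ 2 := by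
  set z := 1 - w ^ 2 / 2 with hz
  let u0 : ℝ → ℂ := fun s => ρ • q (ρ * (s - w)) * ex (x 0 * s)
  let u1 : ℝ → ℂ := fun s => ρ • q (ρ * (s - z)) * ex (x 1 * s)
  let u2 : ℝ → ℂ := fun s => ρ • ((pw ε (-2 * (ρ * (s - z))) : ℂ) * q (ρ * (s - z))) * ex (x 1 * s)
  have i0 : Integrable u0 := integrable_mul_ex (integrable_aff h.integrable_q hρ w) _
  have i1 : Integrable u1 := integrable_mul_ex (integrable_aff h.integrable_q hρ z) _
  have i2 : Integrable u2 := integrable_mul_ex (integrable_aff (h.integrable_pw hε hε1) hρ z) _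
  have j1 : Integrable fun ξ : E2 => (pw ε (1 - ‖ξ‖ ^ 2) : ℂ) * (u0 (ξ 0) * u1 (ξ 1)) := by
    refine (integrable_prod2' i0 i1).bdd_mul (c := 1)
      (Complex.continuous_ofReal.comp ((continuous_pw hε).comp (by fun_prop))).aestronglyMeasurable
      (Filter.Eventually.of_forall fun ξ => ?_)
    rw [Complex.norm_real, Real.norm_of_nonneg (pw_nonneg _ _)]
    exact rpow_le_one (le_max_right _ _) (max_le (by nlinarith [sq_nonneg ‖ξ‖]) zero_le_one) hε.le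
  refine ⟨j1, ?_⟩
  have j2 : Integrable fun ξ : E2 => ((ρ ^ (-ε) : ℝ) : ℂ) * (u0 (ξ 0) * u2 (ξ 1)) :=
    (integrable_prod2' i0 i2).const_mul _
  have e2 : (ρ ^ (-ε) : ℝ) * (b (x 0 / ρ) * ker q ε (x 1 / ρ)) * ex (w * x 0 + z * x 1) =
      ∫ ξ : E2, ((ρ ^ (-ε) : ℝ) : ℂ) * (u0 (ξ 0) * u2 (ξ 1)) := by
    rw [integral_const_mul, integral_prod2 u0 u2, int_aff_ex q hρ, h.inv,
      int_aff_ex (fun s => (pw ε (-2 * s) : ℂ) * q s) hρ, ex_add, ker]
    ring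
  let G : ℝ → ℝ := fun s => (1 + |s|) ^ 2 * ‖q s‖
  have j3 : Integrable fun ξ : E2 =>
      ρ ^ (-ε) * κ ^ ε * ((ρ • G (ρ * (ξ 0 - w))) * (ρ • G (ρ * (ξ 1 - z)))) :=
    (integrable_prod2 (integrable_aff h.int hρ w) (integrable_aff h.int hρ z)).const_mul _
  rw [e2, ← integral_sub j1 j2]
  refine (norm_integral_le_of_norm_le j3 (Filter.Eventually.of_forall fun ξ => ?_)).trans ?_
  · have e3 : (pw ε (1 - ‖ξ‖ ^ 2) : ℂ) * (u0 (ξ 0) * u1 (ξ 1)) -
        ((ρ ^ (-ε) : ℝ) : ℂ) * (u0 (ξ 0) * u2 (ξ 1)) =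
        ((pw ε (1 - (ξ 0 ^ 2 + ξ 1 ^ 2)) - ρ ^ (-ε) * pw ε (-2 * (ρ * (ξ 1 - z))) : ℝ) : ℂ) *
          (u0 (ξ 0) * u1 (ξ 1)) := by
      rw [norm_sq_two]
      simp only [u1, u2, Complex.real_smul]
      push_cast
      ring
    rw [e3, norm_mul, Complex.norm_real, Real.norm_eq_abs]
    refine (mul_le_mul_of_nonneg_right (mult_approx hε hε1 hρ hκ1 h1 h2 h3 _ _)
      (norm_nonneg _)).trans (le_of_eq ?_)
    simp only [u0, u1, G, norm_mul, norm_smul, norm_ex, Real.norm_eq_abs, abs_of_pos hρ,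
      smul_eq_mul, ← hz]
    ring
  · rw [integral_const_mul, integral_prod2 (fun s => ρ • G (ρ * (s - w)))
      (fun s => ρ • G (ρ * (s - z))), int_aff G hρ, int_aff G hρ, sq]

/-- The Bochner-Riesz mean of the test function. -/
lemma Bump.BR_approx (h : Bump b q) {α : Type} (S : Finset α) (w : α → ℝ) {ε ρ κ : ℝ} (hε : 0 < ε)
    (hε1 : ε ≤ 1) (hρ : 0 < ρ) (hκ1 : κ ≤ 1) (h1 : ∀ a ∈ S, |w a| ≤ κ)
    (h2 : ∀ a ∈ S, ρ * w a ^ 4 ≤ κ) (h3 : 1 ≤ ρ * κ)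
    {f : E2 → ℂ} (hf : ∀ x, f x = PP S w x * (b (x 0 / ρ) * b (x 1 / ρ) : ℝ)) (x : E2) :
    ‖BR ε f x - (ρ ^ (-ε) : ℝ) * (b (x 0 / ρ) * ker q ε (x 1 / ρ)) * PP S w x‖ ≤
      S.card * (ρ ^ (-ε) * κ ^ ε * (∫ s, (1 + |s|) ^ 2 * ‖q s‖) ^ 2) := by
  have e : ∀ ξ : E2, (((max (1 - ‖ξ‖ ^ 2) 0) ^ ε : ℝ) : ℂ) *
      (FT f ξ * Complex.exp (((2 * Real.pi * @inner ℝ _ _ x ξ : ℝ) : ℂ) * Complex.I)) =
      ∑ a ∈ S, (pw ε (1 - ‖ξ‖ ^ 2) : ℂ) * ((ρ • q (ρ * (ξ 0 - w a)) * ex (x 0 * ξ 0)) *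
        (ρ • q (ρ * (ξ 1 - (1 - w a ^ 2 / 2))) * ex (x 1 * ξ 1))) := by
    intro ξ
    have e1 : Complex.exp (((2 * Real.pi * @inner ℝ _ _ x ξ : ℝ) : ℂ) * Complex.I) =
        ex (x 0 * ξ 0) * ex (x 1 * ξ 1) := by
      rw [inner_two, ← ex_add, ex]
    rw [e1, h.FT_eq S w hρ hf, sum_mul, mul_sum]
    refine sum_congr rfl fun a _ => ?_
    rw [pw]
    ring
  rw [BR]
  simp_rw [e]
  rw [integral_finsetSum _ fun a ha => (h.term hε hε1 hρ hκ1 (h1 a ha) (h2 a ha) h3 x).1, PP,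
    mul_sum, ← sum_sub_distrib, ← nsmul_eq_mul]
  exact (norm_sum_le _ _).trans
    (sum_le_card_nsmul _ _ _ fun a ha => (h.term hε hε1 hρ hκ1 (h1 a ha) (h2 a ha) h3 x).2)

/-- The exponential sum defining the weight. -/
noncomputable def RR {β : Type} (Q : Finset β) (U V : β → ℝ) (x : E2) : ℂ :=
  ∑ j ∈ Q, ex (U j * x 0 + V j * x 1)

lemma continuous_RR {β : Type} (Q : Finset β) (U V : β → ℝ) : Continuous (RR Q U V) :=
  continuous_expsum Q (fun j (x : E2) => U j * x 0 + V j * x 1) fun _ => by fun_prop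

lemma continuous_PP {α : Type} (S : Finset α) (w : α → ℝ) : Continuous (PP S w) :=
  continuous_RR S w fun a => 1 - w a ^ 2 / 2

/-- The weight. -/
noncomputable def wt {β : Type} (Q : Finset β) (U V : β → ℝ) (c L : ℝ) : E2 → ℝ :=
  (rect 0 (0 + L) c (c + L)).indicator fun x => ‖RR Q U V x‖ ^ 2

lemma wt_nonneg {β : Type} (Q : Finset β) (U V : β → ℝ) (c L : ℝ) (x : E2) : 0 ≤ wt Q U V c L x :=
  Set.indicator_nonneg (fun _ _ => by positivity) x

lemma wt_integrable {β : Type} (Q : Finset β) (U V : β → ℝ) (c L : ℝ) :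
    Integrable (wt Q U V c L) :=
  (integrable_indicator_iff (measurableSet_rect _ _ _ _)).mpr
    (((continuous_RR Q U V).norm.pow 2).continuousOn.integrableOn_compact (isCompact_rect _ _ _ _))

/-- The ray maximal function of the weight on the support of the test function. -/
lemma MM_le {β : Type} (Q : Finset β) (U V : β → ℝ) {ρ r c D Z I : ℝ} (hρ : 0 < ρ) (hr : 0 < r)
    (hr1 : r ≤ 1) (hc : (1 + 2 * r) * ρ ≤ |c|) (hD : r + 2 ≤ D * r) (hZ : 0 ≤ Z) (hI0 : 0 ≤ I)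
    (hI : ∀ o0 o1 : ℝ, 1 ≤ D * |o1| → (((Q ×ˢ Q).filter fun p =>
      |(U p.1 - U p.2) * o0 + (V p.1 - V p.2) * o1| * Z < 1).card : ℝ) ≤ I)
    {x : E2} (hx0 : |x 0| ≤ ρ) (hx1 : |x 1| ≤ ρ) :
    MM (wt Q U V c (r * ρ)) x ≤
      ENNReal.ofReal (2 / (r * ρ) * (2 * D * (r * ρ) * I + Q.card ^ 2 * Z)) := by
  set L := r * ρ with hL
  have hL0 : 0 < L := by positivity
  have hLρ : L ≤ ρ := mul_le_of_le_one_left hρ.le hr1
  have hD0 : 0 < D := by nlinarith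
  refine iSup_le fun o => iSup_le fun ho => iSup_le fun R => iSup_le fun hR => ?_
  by_cases hex : ∃ s ∈ Set.Ioc (0 : ℝ) R, x - s • o ∈ rect 0 (0 + L) c (c + L)
  swap
  · push Not at hex
    rw [setLIntegral_congr_fun (g := fun _ => 0) measurableSet_Ioc fun s hs => by
      simp only [wt, Set.indicator_of_notMem (hex s hs), zero_mul, ENNReal.ofReal_zero]]
    simp
  obtain ⟨s0, hs0, hm0⟩ := hex
  have hmem : ∀ s : ℝ, x - s • o ∈ rect 0 (0 + L) c (c + L) ↔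
      (0 ≤ x 0 - s * o 0 ∧ x 0 - s * o 0 ≤ 0 + L) ∧ c ≤ x 1 - s * o 1 ∧ x 1 - s * o 1 ≤ c + L := by
    intro s
    simp [rect]
  have hn : o 0 ^ 2 + o 1 ^ 2 = 1 := by rw [← norm_sq_two, ho, one_pow]
  have hb0 : |o 0| ≤ 1 := by rw [← sq_le_one_iff_abs_le_one]; nlinarith [sq_nonneg (o 1)]
  have hb1 : |o 1| ≤ 1 := by rw [← sq_le_one_iff_abs_le_one]; nlinarith [sq_nonneg (o 0)]
  obtain ⟨⟨k1, k2⟩, k3, k4⟩ := (hmem s0).mp hm0
  have a1 : L ≤ s0 * |o 1| := by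
    rw [← abs_of_pos hs0.1, ← abs_mul]
    rw [abs_le] at hx1
    rcases abs_cases c with h | h
    · linarith [neg_le_abs (s0 * o 1), hx1.2, h.1]
    · linarith [le_abs_self (s0 * o 1), hx1.1, h.1]
  have a2 : s0 * |o 0| ≤ 2 * ρ := by
    rw [← abs_of_pos hs0.1, ← abs_mul, abs_le]
    rw [abs_le] at hx0
    constructor <;> linarith [hx0.1, hx0.2]
  have a3 : 1 ≤ D * |o 1| := by
    have b1 : 1 ≤ |o 0| + |o 1| := by
      rw [← sq_abs (o 0), ← sq_abs (o 1)] at hn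
      nlinarith [abs_nonneg (o 0), abs_nonneg (o 1)]
    have b2 : |o 0| * r * ρ ≤ 2 * |o 1| * ρ := by
      calc |o 0| * r * ρ = |o 0| * L := by rw [hL]; ring
        _ ≤ |o 0| * (s0 * |o 1|) := by gcongr
        _ = (s0 * |o 0|) * |o 1| := by ring
        _ ≤ (2 * ρ) * |o 1| := by gcongr
        _ = _ := by ring
    have b3 := le_of_mul_le_mul_right b2 hρ
    refine le_of_mul_le_mul_right ?_ hr
    have b4 := mul_le_mul_of_nonneg_right hD (abs_nonneg (o 1))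
    nlinarith
  have a4 : L ≤ R := by nlinarith [hs0.1, hs0.2, abs_nonneg (o 1)]
  let F : ℝ → ℝ := fun s =>
    ‖∑ j ∈ Q, ex ((U j * x 0 + V j * x 1) + -(U j * o 0 + V j * o 1) * s)‖ ^ 2
  have hF : Continuous F := (continuous_expsum Q
    (fun j (s : ℝ) => (U j * x 0 + V j * x 1) + -(U j * o 0 + V j * o 1) * s)
      fun _ => by fun_prop).norm.pow 2
  have a5 : ∫⁻ s in Set.Ioc (0 : ℝ) R, ENNReal.ofReal (wt Q U V c L (x - s • o) * s) ≤
      ENNReal.ofReal (∫ s in Set.Icc (s0 - D * L) (s0 + D * L), R * F s) := by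
    rw [ofReal_integral_eq_lintegral_ofReal (f := fun s => R * F s)
      (continuous_const.mul hF).integrableOn_Icc
      (Filter.Eventually.of_forall fun s => mul_nonneg hR.le (sq_nonneg _)),
      ← lintegral_indicator measurableSet_Icc]
    refine le_trans (setLIntegral_mono' measurableSet_Ioc fun s hs => ?_)
      (setLIntegral_le_lintegral _ _)
    by_cases hm : x - s • o ∈ rect 0 (0 + L) c (c + L)
    · obtain ⟨-, l3, l4⟩ := (hmem s).mp hm
      have b1 : |s - s0| * |o 1| ≤ L := by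
        rw [← abs_mul, abs_le]
        constructor <;> linarith
      have b2 : |s - s0| ≤ D * L := by
        calc |s - s0| = |s - s0| * 1 := (mul_one _).symm
          _ ≤ |s - s0| * (D * |o 1|) := by gcongr
          _ = D * (|s - s0| * |o 1|) := by ring
          _ ≤ _ := by gcongr
      rw [abs_le] at b2
      rw [Set.indicator_of_mem (show s ∈ Set.Icc (s0 - D * L) (s0 + D * L) from
        ⟨by linarith [b2.1], by linarith [b2.2]⟩), wt, Set.indicator_of_mem hm]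
      apply ENNReal.ofReal_le_ofReal
      have e : ‖RR Q U V (x - s • o)‖ ^ 2 = F s := by
        simp only [RR, F]
        congr 2
        refine sum_congr rfl fun j _ => ?_
        congr 1
        simp
        ring
      rw [e, mul_comm]
      exact mul_le_mul_of_nonneg_right hs.2 (by positivity)
    · simp only [wt, Set.indicator_of_notMem hm, zero_mul, ENNReal.ofReal_zero, zero_le]
  have a6 : ∫ s in Set.Icc (s0 - D * L) (s0 + D * L), F s ≤ 2 * D * L * I + Q.card ^ 2 * Z := by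
    refine (int_line_le Q _ (fun j => -(U j * o 0 + V j * o 1)) (by nlinarith) hZ).trans ?_
    have := hI (-o 0) (-o 1) (by rwa [abs_neg])
    rw [show s0 + D * L - (s0 - D * L) = 2 * D * L by ring]
    gcongr
    refine le_of_eq_of_le (congrArg _ (congrArg _ (filter_congr fun p _ => ?_))) this
    rw [show -(U p.1 * o 0 + V p.1 * o 1) - -(U p.2 * o 0 + V p.2 * o 1) =
      (U p.1 - U p.2) * -o 0 + (V p.1 - V p.2) * -o 1 by ring]
  refine (mul_le_mul_right a5 _).trans ?_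
  rw [← ENNReal.ofReal_mul (by positivity), integral_const_mul]
  apply ENNReal.ofReal_le_ofReal
  calc 2 / R ^ 2 * (R * ∫ s in Set.Icc (s0 - D * L) (s0 + D * L), F s) ≤
        2 / R ^ 2 * (R * (2 * D * L * I + Q.card ^ 2 * Z)) := by gcongr
    _ = 2 / R * (2 * D * L * I + Q.card ^ 2 * Z) := by field_simp
    _ ≤ _ := by gcongr

lemma ofReal_integral_le {X : Type} [MeasurableSpace X] {μ : Measure X} {g : X → ℝ}
    (hg : Integrable g μ) : ENNReal.ofReal (∫ x, g x ∂μ) ≤ ∫⁻ x, ENNReal.ofReal (g x) ∂μ := by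
  calc ENNReal.ofReal (∫ x, g x ∂μ) ≤ ENNReal.ofReal (∫ x, max (g x) 0 ∂μ) :=
        ENNReal.ofReal_le_ofReal (integral_mono hg hg.pos_part fun x => le_max_left _ _)
    _ = ∫⁻ x, ENNReal.ofReal (max (g x) 0) ∂μ :=
        ofReal_integral_eq_lintegral_ofReal hg.pos_part
          (Filter.Eventually.of_forall fun x => le_max_right _ _)
    _ = _ := by simp

/-- Lower bound for the left side. -/
lemma lhs_ge {β : Type} (Q : Finset β) (U V : β → ℝ) {c L t k e : ℝ} {F P : E2 → ℂ}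
    (hP : Continuous P) (hk : 0 ≤ k)
    (h : ∀ x ∈ rect 0 (0 + L) c (c + L), ∃ z : ℂ, k ≤ ‖z‖ ∧ ‖F x - t * z * P x‖ ≤ t * e)
    (ht : 0 ≤ t) :
    ENNReal.ofReal (t ^ 2 * (k ^ 2 / 2 * (∫ x in rect 0 (0 + L) c (c + L), ‖P x * RR Q U V x‖ ^ 2) -
      e ^ 2 * ∫ x in rect 0 (0 + L) c (c + L), ‖RR Q U V x‖ ^ 2)) ≤
      ∫⁻ x, ENNReal.ofReal (‖F x‖ ^ 2 * wt Q U V c L x) := by
  have hc := isCompact_rect 0 (0 + L) c (c + L)
  have i1 : IntegrableOn (fun x => ‖P x * RR Q U V x‖ ^ 2) (rect 0 (0 + L) c (c + L)) :=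
    ((hP.mul (continuous_RR Q U V)).norm.pow 2).continuousOn.integrableOn_compact hc
  have i2 : IntegrableOn (fun x => ‖RR Q U V x‖ ^ 2) (rect 0 (0 + L) c (c + L)) :=
    ((continuous_RR Q U V).norm.pow 2).continuousOn.integrableOn_compact hc
  rw [← integral_const_mul, ← integral_const_mul, ← integral_sub (i1.const_mul _) (i2.const_mul _),
    ← integral_const_mul]
  refine (ofReal_integral_le (((i1.const_mul _).sub (i2.const_mul _)).const_mul _)).trans ?_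
  refine le_trans (setLIntegral_mono' hc.measurableSet fun x hx => ?_)
    (setLIntegral_le_lintegral _ _)
  apply ENNReal.ofReal_le_ofReal
  obtain ⟨z, hz, hF⟩ := h x hx
  rw [wt, Set.indicator_of_mem hx]
  have a1 : t * k * ‖P x‖ ≤ ‖F x‖ + t * e := by
    have b1 := norm_sub_le (F x) (F x - t * z * P x)
    rw [sub_sub_cancel, norm_mul, norm_mul, Complex.norm_real, Real.norm_of_nonneg ht] at b1
    have b2 : t * k * ‖P x‖ ≤ t * ‖z‖ * ‖P x‖ := by gcongr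
    linarith
  have a2 : (t * k * ‖P x‖) ^ 2 ≤ (‖F x‖ + t * e) ^ 2 := by gcongr
  have a3 : t ^ 2 * (k ^ 2 / 2 * ‖P x‖ ^ 2 - e ^ 2) ≤ ‖F x‖ ^ 2 := by
    nlinarith [sq_nonneg (‖F x‖ - t * e)]
  calc _ = t ^ 2 * (k ^ 2 / 2 * ‖P x‖ ^ 2 - e ^ 2) * ‖RR Q U V x‖ ^ 2 := by
        simp only [Pi.sub_apply, norm_mul, mul_pow]
        ring
    _ ≤ _ := by gcongr

/-- Upper bound for the right side. -/
lemma Bump.rhs_le (h : Bump b q) {ρ K : ℝ} (hρ : 0 < ρ) (hK : 0 ≤ K) {f P : E2 → ℂ}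
    (hP : Continuous P) (hf : ∀ x, f x = P x * (b (x 0 / ρ) * b (x 1 / ρ) : ℝ)) {m : E2 → ENNReal}
    (hm : ∀ x : E2, |x 0| ≤ ρ → |x 1| ≤ ρ → m x ≤ ENNReal.ofReal K) :
    ∫⁻ x, ENNReal.ofReal (‖f x‖ ^ 2) * m x ≤
      ENNReal.ofReal (K * ∫ x in rect (-ρ) (-ρ + 2 * ρ) (-ρ) (-ρ + 2 * ρ), ‖P x‖ ^ 2) := by
  have hc := isCompact_rect (-ρ) (-ρ + 2 * ρ) (-ρ) (-ρ + 2 * ρ)
  rw [← integral_const_mul, ofReal_integral_eq_lintegral_ofReal (f := fun x => K * ‖P x‖ ^ 2)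
    ((continuous_const.mul (hP.norm.pow 2)).continuousOn.integrableOn_compact hc)
    (Filter.Eventually.of_forall fun s => by positivity), ← lintegral_indicator hc.measurableSet]
  refine lintegral_mono fun x => ?_
  by_cases hx : |x 0| ≤ ρ ∧ |x 1| ≤ ρ
  · have hx' : x ∈ rect (-ρ) (-ρ + 2 * ρ) (-ρ) (-ρ + 2 * ρ) := by
      have a0 := abs_le.mp hx.1
      have a1 := abs_le.mp hx.2
      exact ⟨⟨a0.1, by linarith [a0.2]⟩, a1.1, by linarith [a1.2]⟩
    rw [Set.indicator_of_mem hx', ENNReal.ofReal_mul hK, mul_comm]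
    refine mul_le_mul' (hm x hx.1 hx.2) (ENNReal.ofReal_le_ofReal ?_)
    have a1 := h.nonneg (x 0 / ρ)
    have a2 := h.nonneg (x 1 / ρ)
    have a3 : b (x 0 / ρ) * b (x 1 / ρ) ≤ 1 := mul_le_one₀ (h.le_one _) a2 (h.le_one _)
    rw [hf, norm_mul, Complex.norm_real, Real.norm_of_nonneg (mul_nonneg a1 a2)]
    exact pow_le_pow_left₀ (by positivity) (mul_le_of_le_one_right (norm_nonneg _) a3) _
  · have : f x = 0 := by
      rw [not_and_or, not_le, not_le] at hx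
      rcases hx with hx | hx <;> simp [hf, h.zero_div hρ hx.le]
    simp [this]

lemma final_arith {t s c r ρ E A D I M Cn X Y W K k C1 : ℝ} (hts : t * s = 1) (hc : 0 < c)
    (hr : 0 < r) (hρ : 0 < ρ) (hA : 0 ≤ A) (hD : 0 ≤ D) (hI : 1 ≤ I) (hM : 1 ≤ M) (hCn : 0 ≤ Cn)
    (hE0 : 0 ≤ E) (hW0 : 0 ≤ W) (hE : M ^ 2 * I ≤ Cn * E) (hX : (r * ρ) ^ 2 * E / 2 ≤ X)
    (hY : Y ≤ 2 * (r * ρ) ^ 2 * I) (hW : W ≤ 6 * ρ ^ 2 * M) (hK : K ≤ 6 * D * I)
    (hk : 16 * (k ^ 2 * Cn) * C1 ^ 2 ≤ c ^ 2)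
    (h : t ^ 2 * (c ^ 2 / 2 * X - (M * (k * C1)) ^ 2 * Y) ≤ A * (K * W)) :
    M ≤ 288 * A * D / (r ^ 2 * c ^ 2) * Cn * s ^ 2 := by
  have a1 : (M * (k * C1)) ^ 2 * Y ≤ c ^ 2 * (r * ρ) ^ 2 * E / 8 := by
    calc (M * (k * C1)) ^ 2 * Y ≤ (M * (k * C1)) ^ 2 * (2 * (r * ρ) ^ 2 * I) := by gcongr
      _ = 2 * (k * C1) ^ 2 * (r * ρ) ^ 2 * (M ^ 2 * I) := by ring
      _ ≤ 2 * (k * C1) ^ 2 * (r * ρ) ^ 2 * (Cn * E) := by gcongr
      _ = (16 * (k ^ 2 * Cn) * C1 ^ 2) * (r * ρ) ^ 2 * E / 8 := by ring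
      _ ≤ _ := by gcongr
  have a2 : c ^ 2 * (r * ρ) ^ 2 * E / 8 ≤ c ^ 2 / 2 * X - (M * (k * C1)) ^ 2 * Y := by
    have : c ^ 2 / 2 * ((r * ρ) ^ 2 * E / 2) ≤ c ^ 2 / 2 * X := by gcongr
    linarith
  have a3 : A * (K * W) ≤ A * (6 * D * I * (6 * ρ ^ 2 * M)) := by gcongr
  have a4 : t ^ 2 * (c ^ 2 * (r * ρ) ^ 2 * E / 8) ≤ A * (6 * D * I * (6 * ρ ^ 2 * M)) :=
    le_trans (by gcongr) (h.trans a3)
  have a5 : M * (r ^ 2 * c ^ 2) * (ρ ^ 2 * I * M) ≤ 288 * A * D * Cn * s ^ 2 * (ρ ^ 2 * I * M) := by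
    calc M * (r ^ 2 * c ^ 2) * (ρ ^ 2 * I * M) = (t * s) ^ 2 * c ^ 2 * (r * ρ) ^ 2 * (M ^ 2 * I) := by
          rw [hts]; ring
      _ ≤ (t * s) ^ 2 * c ^ 2 * (r * ρ) ^ 2 * (Cn * E) := by gcongr
      _ = 8 * Cn * s ^ 2 * (t ^ 2 * (c ^ 2 * (r * ρ) ^ 2 * E / 8)) := by ring
      _ ≤ 8 * Cn * s ^ 2 * (A * (6 * D * I * (6 * ρ ^ 2 * M))) := by gcongr
      _ = _ := by ring
  have a6 := le_of_mul_le_mul_right a5 (by positivity)
  rw [div_mul_eq_mul_div, div_mul_eq_mul_div, le_div_iff₀ (by positivity)]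
  exact a6

lemma PP_mul_RR {α β : Type} (S : Finset α) (Q : Finset β) (w : α → ℝ) (U V : β → ℝ) (x : E2) :
    PP S w x * RR Q U V x =
      ∑ p ∈ S ×ˢ Q, ex ((w p.1 + U p.2) * x 0 + (1 - w p.1 ^ 2 / 2 + V p.2) * x 1) := by
  rw [PP, RR, sum_mul_sum, sum_product]
  refine sum_congr rfl fun a _ => sum_congr rfl fun j _ => ?_
  rw [← ex_add]
  congr 1
  ring

/-- The weighted inequality bounds the number of frequencies of a good configuration. -/
theorem Bump.key (h : Bump b q) {ε : ℝ} (hε : 0 < ε) (hε1 : ε < 1) {A : NNReal} (hA : Ineq ε A) :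
    ∃ A' G c1 : ℝ, 0 ≤ A' ∧ 0 < c1 ∧ c1 ≤ 1 ∧ 1 ≤ G ∧ ∀ (n : ℕ) (B C γ κ : ℝ), 1 ≤ n → 1 ≤ B →
      1 ≤ C → 1 ≤ γ → Good n B C γ → 0 < κ → κ ≤ 1 → (κ ^ ε) ^ 2 * C ^ n ≤ c1 →
      γ ^ n ≤ A' * C ^ n * ((G ^ 3 * (B ^ n) ^ 15 / κ ^ 2) ^ ε) ^ 2 := by
  classical
  obtain ⟨y0, r, c, hr, hr1, hy0, hc, hwin⟩ := h.exists_window hε hε1
  obtain ⟨C1, hC1⟩ : ∃ C1, C1 = (∫ s, (1 + |s|) ^ 2 * ‖q s‖) ^ 2 := ⟨_, rfl⟩
  obtain ⟨D, hD⟩ : ∃ D, D = 1 + 2 / r := ⟨_, rfl⟩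
  have hD1 : 1 ≤ D := by rw [hD]; exact le_add_of_nonneg_right (by positivity)
  have hDr : r + 2 ≤ D * r := by rw [hD]; field_simp; exact le_rfl
  obtain ⟨G, hG⟩ : ∃ G, G = 4 * D / r := ⟨_, rfl⟩
  have hGr : G * r = 4 * D := by rw [hG]; field_simp
  have hG1 : 1 ≤ G := by rw [hG, le_div_iff₀ hr]; linarith
  refine ⟨288 * A * D / (r ^ 2 * c ^ 2), G, min 1 (c ^ 2 / (16 * (C1 ^ 2 + 1))), by positivity,
    lt_min one_pos (by positivity), min_le_left _ _, hG1, ?_⟩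
  rintro n B C γ κ hn hB hC hγ ⟨α, β, S, Q, θ, u, v, I, g1, g2, g3, g4, g5, g6, g7, g8, g9⟩
    hκ hκ1 hκ2
  have hBΛ : B ≤ B ^ n := le_self_pow₀ hB (by omega)
  generalize B ^ n = Λ at *
  have hΛ : 1 ≤ Λ := hB.trans hBΛ
  have hM : (1 : ℝ) ≤ S.card := (one_le_pow₀ hγ).trans g1
  refine g1.trans ?_
  have hΛ5 : Λ ≤ Λ ^ 5 := le_self_pow₀ hΛ (by norm_num)
  have hGΛ : Λ ^ 5 ≤ G * Λ ^ 5 := le_mul_of_one_le_left (by positivity) hG1
  obtain ⟨τ, hτ⟩ : ∃ τ, τ = κ / (G * Λ ^ 5) := ⟨_, rfl⟩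
  have hτ0 : 0 < τ := by rw [hτ]; positivity
  have hτκ : τ * (G * Λ ^ 5) = κ := by rw [hτ]; field_simp
  have hτΛ : τ * Λ ≤ κ := by rw [← hτκ]; gcongr; linarith
  have hτ1 : τ ≤ 1 := by nlinarith
  obtain ⟨Z, hZ⟩ : ∃ Z, Z = 2 * D * Λ / τ ^ 2 := ⟨_, rfl⟩
  have hZ0 : 0 < Z := by rw [hZ]; positivity
  have hZτ : τ ^ 2 / 2 * Z = D * Λ := by rw [hZ]; field_simp
  obtain ⟨ρ, hρ⟩ : ∃ ρ, ρ = G * Λ ^ 5 / τ ^ 2 := ⟨_, rfl⟩
  have hρ0 : 0 < ρ := by rw [hρ]; positivity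
  have hρτ : ρ * τ ^ 2 = G * Λ ^ 5 := by rw [hρ]; field_simp
  have hρeq : G ^ 3 * Λ ^ 15 / κ ^ 2 = ρ := by rw [hρ, hτ]; field_simp
  have hL : r * ρ = 2 * (Λ ^ 4 * Z) := by
    rw [hρ, hZ, hG]; field_simp; ring
  have hLρ : r * ρ ≤ ρ := mul_le_of_le_one_left hρ0.le (by linarith)
  have hDΛ : Λ ≤ D * Λ := le_mul_of_one_le_left (by linarith) hD1
  have hs2 : ∀ d : ℝ, 1 ≤ |d| * Λ → 1 ≤ |τ ^ 2 / 2 * d| * Z := by
    intro d hd
    rw [abs_mul, abs_of_pos (by positivity), mul_right_comm, hZτ, mul_comm]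
    exact hd.trans (by gcongr)
  have hs1 : ∀ d : ℝ, 1 ≤ |d| * Λ → 1 ≤ |τ * d| * Z := by
    intro d hd
    refine (hs2 d hd).trans ?_
    rw [abs_mul, abs_mul, abs_of_pos hτ0, abs_of_pos (by positivity)]
    gcongr
    nlinarith
  have h1 : ∀ a ∈ S, |τ * θ a| ≤ κ := by
    intro a ha
    rw [abs_mul, abs_of_pos hτ0]
    exact le_trans (mul_le_mul_of_nonneg_left ((g5 a ha).trans hBΛ) hτ0.le) hτΛ
  have h2 : ∀ a ∈ S, ρ * (τ * θ a) ^ 4 ≤ κ := by
    intro a ha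
    have b1 : θ a ^ 4 ≤ Λ ^ 4 := by
      rw [← Even.pow_abs (by decide : Even 4)]
      exact pow_le_pow_left₀ (abs_nonneg _) ((g5 a ha).trans hBΛ) _
    have b2 : τ * Λ ^ 4 ≤ 1 := by
      have b3 : Λ ^ 4 ≤ Λ ^ 5 := pow_le_pow_right₀ hΛ (by norm_num)
      refine le_trans ?_ (hτκ.le.trans hκ1)
      gcongr
      linarith
    calc ρ * (τ * θ a) ^ 4 = (ρ * τ ^ 2) * τ * (τ * θ a ^ 4) := by ring
      _ = κ * (τ * θ a ^ 4) := by rw [hρτ, mul_comm _ τ, hτκ]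
      _ ≤ κ * (τ * Λ ^ 4) := by gcongr
      _ ≤ κ * 1 := by gcongr
      _ = κ := mul_one _
  have h3 : 1 ≤ ρ * κ := by
    have b1 : ρ * κ * τ = (G * Λ ^ 5) ^ 2 := by
      rw [← hτκ]
      linear_combination (G * Λ ^ 5) * hρτ
    have b2 : 1 ≤ (G * Λ ^ 5) ^ 2 := one_le_pow₀ (by linarith)
    have b3 : ρ * κ * τ ≤ ρ * κ * 1 := by gcongr
    linarith
  obtain ⟨f, hf⟩ := h.exists_schwartz S (fun a => τ * θ a) hρ0
  let U : β → ℝ := fun j => τ * u j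
  let V : β → ℝ := fun j => -(τ ^ 2 / 2 * v j)
  have main := hA f (wt Q U V (y0 * ρ) (r * ρ)) (wt_nonneg _ _ _ _ _)
    (wt_integrable _ _ _ _ _).locallyIntegrable
  have hI : ∀ o0 o1 : ℝ, 1 ≤ D * |o1| → (((Q ×ˢ Q).filter fun p =>
      |(U p.1 - U p.2) * o0 + (V p.1 - V p.2) * o1| * Z < 1).card : ℝ) ≤ I := by
    intro o0 o1 ho
    have ho1 : o1 ≠ 0 := by
      rintro rfl
      norm_num at ho
    refine le_trans (Nat.cast_le.mpr (card_le_card (monotone_filter_right _ fun p _ hp => ?_)))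
      (g7 (2 * o0 / (τ * o1)))
    have e : (U p.1 - U p.2) * o0 + (V p.1 - V p.2) * o1 =
        -(τ ^ 2 / 2 * (o1 * (v p.1 - v p.2 - 2 * o0 / (τ * o1) * (u p.1 - u p.2)))) := by
      simp only [U, V]
      field_simp
      ring
    rw [e, abs_neg, abs_mul, abs_mul, abs_of_pos (by positivity), mul_right_comm, hZτ] at hp
    refine lt_of_le_of_lt ?_ hp
    calc _ = 1 * (Λ * |v p.1 - v p.2 - 2 * o0 / (τ * o1) * (u p.1 - u p.2)|) := by ring
      _ ≤ (D * |o1|) * (Λ * |v p.1 - v p.2 - 2 * o0 / (τ * o1) * (u p.1 - u p.2)|) := by gcongr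
      _ = _ := by ring
  have hK0 : 0 ≤ 2 / (r * ρ) * (2 * D * (r * ρ) * I + Q.card ^ 2 * Z) := by positivity
  have hR := h.rhs_le hρ0 hK0 (continuous_PP S _) hf fun x hx0 hx1 =>
    MM_le Q U V (c := y0 * ρ) hρ0 hr (by linarith)
      (by rw [abs_mul, abs_of_pos hρ0]; gcongr) hDr hZ0.le (by linarith) hI hx0 hx1
  have hLh := lhs_ge Q U V (c := y0 * ρ) (L := r * ρ) (t := ρ ^ (-ε)) (k := c)
    (e := S.card * (κ ^ ε * C1)) (F := BR ε f) (continuous_PP S fun a => τ * θ a) hc.le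
    (fun x hx => by
      refine ⟨b (x 0 / ρ) * ker q ε (x 1 / ρ), ?_, ?_⟩
      · have b1 : |x 0 / ρ| ≤ 1 / 2 := by
          rw [abs_of_nonneg (div_nonneg hx.1.1 hρ0.le), div_le_iff₀ hρ0]
          nlinarith [hx.1.2]
        rw [h.one _ b1, Complex.ofReal_one, one_mul]
        refine hwin _ ⟨?_, ?_⟩
        · rw [le_div_iff₀ hρ0]
          exact hx.2.1
        · rw [div_le_iff₀ hρ0]
          linarith [hx.2.2]
      · refine (h.BR_approx S _ hε hε1.le hρ0 hκ1 h1 h2 h3 hf x).trans (le_of_eq ?_)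
        rw [hC1]
        ring) (rpow_nonneg hρ0.le _)
  have hfin := hLh.trans (main.trans (mul_le_mul_right hR _))
  have hW0 : 0 ≤ ∫ x in rect (-ρ) (-ρ + 2 * ρ) (-ρ) (-ρ + 2 * ρ),
      ‖PP S (fun a => τ * θ a) x‖ ^ 2 := integral_nonneg fun x => sq_nonneg _
  rw [← ENNReal.ofReal_coe_nnreal, ← ENNReal.ofReal_mul A.coe_nonneg,
    ENNReal.ofReal_le_ofReal_iff (mul_nonneg A.coe_nonneg (mul_nonneg hK0 hW0))] at hfin
  have hΛ24 : Λ ^ 2 ≤ Λ ^ 4 := pow_le_pow_right₀ hΛ (by norm_num)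
  have hΛ14 : Λ ≤ Λ ^ 4 := le_self_pow₀ hΛ (by norm_num)
  have hQZ : (Q.card : ℝ) ^ 2 * Z ≤ r * ρ := by
    have b1 : (Q.card : ℝ) ^ 2 * Z ≤ Λ ^ 4 * Z := by
      gcongr
      exact le_trans (by gcongr) hΛ24
    nlinarith
  have hLI : r * ρ ≤ r * ρ * I := le_mul_of_one_le_right (by positivity) g4
  rw [hρeq]
  refine final_arith (t := ρ ^ (-ε)) ?_ hc hr hρ0 A.coe_nonneg (by linarith) g4 hM (by positivity)
    (Nat.cast_nonneg _) hW0 g8 ?_ ?_ ?_ ?_ ?_ hfin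
  · rw [← rpow_add hρ0, neg_add_cancel, rpow_zero]
  · simp_rw [PP_mul_RR]
    refine le_trans ?_ (le_int_rect (S ×ˢ Q) _ _ 0 (y0 * ρ) (by positivity) hZ0.le
      (fun p => θ p.1.1 + u p.1.2 = θ p.2.1 + u p.2.2 ∧
        θ p.1.1 ^ 2 + v p.1.2 = θ p.2.1 ^ 2 + v p.2.2) (fun p _ hp => ?_) fun p hp hp' => ?_)
    · generalize hE : ((((S ×ˢ Q) ×ˢ (S ×ˢ Q)).filter fun p =>
        θ p.1.1 + u p.1.2 = θ p.2.1 + u p.2.2 ∧
          θ p.1.1 ^ 2 + v p.1.2 = θ p.2.1 ^ 2 + v p.2.2).card) = E at g8 ⊢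
      have b1 : (1 : ℝ) ≤ E := by
        have : E ≠ 0 := by
          rintro rfl
          have : 0 < (S.card : ℝ) ^ 2 * I := by positivity
          simp only [Nat.cast_zero, mul_zero] at g8
          linarith
        exact_mod_cast Nat.one_le_iff_ne_zero.mpr this
      have b2 : ((S ×ˢ Q).card : ℝ) ^ 2 ≤ Λ ^ 4 := by
        rw [card_product, Nat.cast_mul, show Λ ^ 4 = (Λ * Λ) ^ 2 by ring]
        gcongr
      have b3 : ((S ×ˢ Q).card : ℝ) ^ 2 * (r * ρ * Z) ≤ (r * ρ) ^ 2 * E / 2 := by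
        calc _ ≤ Λ ^ 4 * (r * ρ * Z) := by gcongr
          _ = (r * ρ) * (2 * (Λ ^ 4 * Z)) * 1 / 2 := by ring
          _ ≤ (r * ρ) * (2 * (Λ ^ 4 * Z)) * E / 2 := by gcongr
          _ = _ := by rw [← hL]; ring
      linarith
    · simp only [U, V]
      exact ⟨by linear_combination τ * hp.1, by linear_combination -(τ ^ 2 / 2) * hp.2⟩
    · rcases g9 _ (mem_product.mp hp).1 _ (mem_product.mp hp).2 with k | k | k
      · exact (hp' k).elim
      · left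
        convert hs1 _ k using 3
        simp only [U]
        ring
      · right
        have := hs2 _ k
        rw [← abs_neg] at this
        convert this using 3
        simp only [V]
        ring
  · refine (int_rect_le Q U V 0 (y0 * ρ) (by positivity) hZ0.le
      (fun p => |v p.1 - v p.2 - 0 * (u p.1 - u p.2)| * Λ < 1) fun p _ hp => Or.inr ?_).trans ?_
    · have := hs2 _ (not_lt.mp hp)
      rw [← abs_neg] at this
      convert this using 3
      simp only [V]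
      ring
    · have b1 : (r * ρ) ^ 2 * (((Q ×ˢ Q).filter fun p =>
          |v p.1 - v p.2 - 0 * (u p.1 - u p.2)| * Λ < 1).card : ℝ) ≤ (r * ρ) ^ 2 * I := by
        gcongr
        exact g7 0
      have b2 : r * ρ * ((Q.card : ℝ) ^ 2 * Z) ≤ r * ρ * (r * ρ * I) :=
        mul_le_mul_of_nonneg_left (hQZ.trans hLI) (by positivity)
      linarith
  · refine (int_rect_le S (fun a => τ * θ a) (fun a => 1 - (τ * θ a) ^ 2 / 2) (-ρ) (-ρ)
      (by positivity) hZ0.le (fun p => p.1 = p.2) fun p hp hp' => Or.inl ?_).trans ?_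
    · rw [← mul_sub]
      exact hs1 _ (g6 _ (mem_product.mp hp).1 _ (mem_product.mp hp).2 hp')
    · have b1 : ((S ×ˢ S).filter fun p => p.1 = p.2).card ≤ S.card := by
        refine card_le_card_of_injOn Prod.fst (fun p hp => (mem_product.mp (mem_filter.mp hp).1).1)
          fun p hp p' hp' e => Prod.ext e ?_
        rw [← (mem_filter.mp hp).2, ← (mem_filter.mp hp').2, e]
      have b2 : (2 * ρ) ^ 2 * (((S ×ˢ S).filter fun p => p.1 = p.2).card : ℝ) ≤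
          (2 * ρ) ^ 2 * S.card := by gcongr
      have b3 : (S.card : ℝ) * Z ≤ ρ := by
        have : (S.card : ℝ) * Z ≤ Λ ^ 4 * Z := by
          gcongr
          exact g2.trans hΛ14
        nlinarith
      have b4 : 2 * ρ * S.card * ((S.card : ℝ) * Z) ≤ 2 * ρ * S.card * ρ := by gcongr
      linarith
  · rw [div_mul_eq_mul_div, div_le_iff₀ (by positivity)]
    have b1 : r * ρ * I ≤ D * (r * ρ * I) := le_mul_of_one_le_left (by positivity) hD1
    linarith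
  · have b1 := hκ2.trans (min_le_right _ _)
    rw [le_div_iff₀ (by positivity)] at b1
    have b2 : 0 ≤ (κ ^ ε) ^ 2 * C ^ n := by positivity
    linarith

/-- Good configurations with unbounded gain contradict the weighted inequality. -/
theorem exists_not_ineq (H : ∃ C : ℝ, 1 ≤ C ∧ ∀ γ : ℝ, ∃ B γ' : ℝ, 1 ≤ B ∧ γ ≤ γ' ∧
    ∀ n0 : ℕ, ∃ n, n0 ≤ n ∧ Good n B C γ') : ∃ ε : ℝ, 0 < ε ∧ ∀ A, ¬ Ineq ε A := by
  obtain ⟨C, hC, H⟩ := H
  obtain ⟨B, γ, hB, hγ, H⟩ := H (4 * C ^ 3)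
  obtain ⟨ε, hε2, hε1, hε⟩ : ∃ ε : ℝ, (B ^ 30) ^ ε < 2 ∧ ε < 1 ∧ 0 < ε := by
    have h1 : ContinuousAt (fun ε : ℝ => (B ^ 30) ^ ε) 0 :=
      continuousAt_const.rpow continuousAt_id (Or.inl (by positivity))
    have h2 := h1.eventually (gt_mem_nhds (show (B ^ 30) ^ (0 : ℝ) < 2 by simp))
    have h3 : ∀ᶠ ε in nhds (0 : ℝ), ε < 1 := gt_mem_nhds one_pos
    obtain ⟨ε, h4, h5⟩ := (((h2.and h3).filter_mono nhdsWithin_le_nhds).and
      (self_mem_nhdsWithin (a := (0 : ℝ)) (s := Set.Ioi 0))).exists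
    exact ⟨ε, h4.1, h4.2, h5⟩
  refine ⟨ε, hε, fun A hA => ?_⟩
  obtain ⟨b, q, h⟩ := exists_Bump
  obtain ⟨A', G, c1, hA', hc1, hc2, hG, key⟩ := h.key hε hε1 hA
  obtain ⟨n0, hn0⟩ := exists_nat_gt (A' * G ^ 6 / c1 ^ 2)
  obtain ⟨n, hn, hg⟩ := H (n0 + 1)
  have hCn : 1 ≤ C ^ n := one_le_pow₀ hC
  have hC3 : 1 ≤ C ^ 3 := one_le_pow₀ hC
  have hδ : 0 < c1 / C ^ n := by positivity
  have hδ1 : c1 / C ^ n ≤ 1 := by rw [div_le_one (by positivity)]; linarith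
  obtain ⟨κ, hκ⟩ : ∃ κ, κ = (c1 / C ^ n) ^ (2 * ε)⁻¹ := ⟨_, rfl⟩
  have hκ0 : 0 < κ := by rw [hκ]; positivity
  have hκ1 : κ ≤ 1 := by rw [hκ]; exact rpow_le_one hδ.le hδ1 (by positivity)
  have hκ2 : (κ ^ ε) ^ 2 = c1 / C ^ n := by
    rw [hκ, ← rpow_natCast, ← rpow_mul hδ.le, ← rpow_mul hδ.le]
    rw [show (2 * ε)⁻¹ * ε * ((2 : ℕ) : ℝ) = 1 by push_cast; field_simp, rpow_one]
  have k := key n B C γ κ (by omega) hB hC (by linarith) hg hκ0 hκ1
    (by rw [hκ2]; field_simp; exact le_rfl)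
  have e1 : ((G ^ 3 * (B ^ n) ^ 15 / κ ^ 2) ^ ε) ^ 2 =
      (G ^ 6) ^ ε * ((B ^ 30) ^ ε) ^ n / (c1 / C ^ n) ^ 2 := by
    rw [← hκ2, rpow_pow_comm (by positivity), rpow_pow_comm (by positivity),
      rpow_pow_comm hκ0.le, rpow_pow_comm (by positivity), ← mul_rpow (by positivity)
      (by positivity), ← div_rpow (by positivity) (by positivity)]
    congr 1
    ring
  have hG6 : 1 ≤ G ^ 6 := one_le_pow₀ hG
  have e2 : (G ^ 6) ^ ε ≤ G ^ 6 := rpow_le_of_le hε hε1.le (by positivity) hG6 le_rfl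
  have e3 : ((B ^ 30) ^ ε) ^ n ≤ 2 ^ n := pow_le_pow_left₀ (by positivity) hε2.le _
  have e4 : (4 * C ^ 3) ^ n ≤ γ ^ n := pow_le_pow_left₀ (by positivity) hγ _
  have e5 : 2 ^ n * (2 ^ n * (C ^ n) ^ 3) ≤ A' * G ^ 6 / c1 ^ 2 * (2 ^ n * (C ^ n) ^ 3) := by
    calc 2 ^ n * (2 ^ n * (C ^ n) ^ 3) = (4 * C ^ 3) ^ n := by
          rw [mul_pow, ← mul_assoc, ← mul_pow, ← pow_mul, ← pow_mul, mul_comm n 3]
          norm_num
      _ ≤ _ := e4.trans k
      _ ≤ A' * C ^ n * (G ^ 6 * 2 ^ n / (c1 / C ^ n) ^ 2) := by rw [e1]; gcongr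
      _ = _ := by field_simp
  have e6 := le_of_mul_le_mul_right e5 (by positivity)
  have e7 : (n : ℝ) < 2 ^ n := by exact_mod_cast Nat.lt_two_pow_self
  have e8 : (n0 : ℝ) + 1 ≤ n := by exact_mod_cast hn
  linarith

end Pool.Agent.MT8

end
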