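import Pool.Agent.Lib.MP_8ec070_an.Tower
import Pool.Agent.Lib.MP_8ec070_an.Ana

/-! The failure of the weighted inequality for all small exponents and all kernels. -/

set_option autoImplicit false

namespace Pool.Agent.MT8

open MeasureTheory Real Pool.Agent.Lib.MP_8ec070_an

theorem ker_fin {δ : ℝ} (hδ : 0 < δ) : ∫⁻ θ in Set.Ioo (-π) π,
    ENNReal.ofReal (δ * ‖Complex.exp (Complex.I * θ) - 1‖ ^ (δ - 1)) < ⊤ := by
  have h1 : IntegrableOn (fun θ : ℝ => δ * ‖Complex.exp (Complex.I * θ) - 1‖ ^ (δ - 1))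
      (Metric.ball 0 π) := by
    refine integrableOn_ball_of_norm_le_rpow (C := δ * max 1 ((2 / π) ^ (δ - 1))) (α := 1 - δ)
      (by simp) (by simpa using hδ) ?_ (Measurable.aestronglyMeasurable (by fun_prop))
    filter_upwards [ae_restrict_mem measurableSet_ball,
      ae_restrict_of_ae (Measure.ae_ne volume (0 : ℝ))] with θ h h0
    rw [neg_sub, norm_of_nonneg (by positivity), mul_assoc]
    refine mul_le_mul_of_nonneg_left ?_ hδ.le
    rcases le_total 1 δ with h1 | h1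
    · exact (rpow_le_rpow (norm_nonneg _) norm_exp_I_mul_ofReal_sub_one_le (by linarith)).trans
        (le_mul_of_one_le_left (by positivity) (le_max_left _ _))
    · have h2 : 2 / π * ‖θ‖ ≤ ‖Complex.exp (Complex.I * θ) - 1‖ := by
        rw [mem_ball_zero_iff, norm_eq_abs] at h
        have := mul_abs_le_abs_sin (x := θ / 2) (by rw [abs_div, abs_two]; linarith)
        rw [Complex.norm_exp_I_mul_ofReal_sub_one, norm_mul, norm_eq_abs, norm_eq_abs, norm_eq_abs,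
          abs_two]
        rw [abs_div, abs_two] at this
        linarith
      refine (rpow_le_rpow_of_nonpos (by positivity) h2 (by linarith)).trans ?_
      rw [mul_rpow (by positivity) (norm_nonneg _)]
      exact mul_le_mul_of_nonneg_right (le_max_right _ _) (by positivity)
  rw [Real.ball_eq_Ioo, zero_sub, zero_add] at h1
  exact h1.lintegral_lt_top

/-- The maximal function with the rotated kernel is bounded by the ray maximal function. -/
theorem MD_le {δ : ℝ} (hδ : 0 < δ) : ∃ K : NNReal, ∀ (φ : E2 → ℝ) (x : E2), (∀ x, 0 ≤ φ x) →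
    (⨆ (u : E2) (_ : ‖u‖ = 1) (r : ℝ) (_ : 0 < r), ENNReal.ofReal (1 / r ^ 2) *
      ∫⁻ y in Metric.closedBall (0 : E2) r,
        ENNReal.ofReal (δ * ‖(‖y‖⁻¹) • y - u‖ ^ (δ - 1) * φ (x - y))) ≤ K * MM φ x := by
  refine ⟨(∫⁻ θ in Set.Ioo (-π) π, ENNReal.ofReal
    (δ * ‖Complex.exp (Complex.I * θ) - 1‖ ^ (δ - 1))).toNNReal, fun φ x hφ => ?_⟩
  rw [ENNReal.coe_toNNReal (ker_fin hδ).ne]
  refine iSup₂_le fun u hu => iSup₂_le fun r hr => ?_
  let e₀ := Complex.orthonormalBasisOneI.repr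
  let e := (rotation ⟨e₀.symm u, by simpa [Submonoid.unitSphere] using hu⟩).trans e₀
  have he : e 1 = u := by
    change e₀ (e₀.symm u * 1) = u
    rw [mul_one, e₀.apply_symm_apply]
  rw [← lintegral_indicator measurableSet_closedBall, ← e.measurePreserving.lintegral_comp_emb
    e.toHomeomorph.measurableEmbedding, ← Complex.lintegral_comp_polarCoord_symm]
  change _ * ∫⁻ p in Set.Ioi (0 : ℝ) ×ˢ Set.Ioo (-π) π, _ ∂(volume.prod volume) ≤ _
  rw [← Measure.prod_restrict, ← lintegral_prod_swap, ← lintegral_mul_const _ (by fun_prop)]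
  refine (mul_le_mul_right (lintegral_prod_le _) _).trans ?_
  rw [← lintegral_const_mul' _ _ ENNReal.ofReal_ne_top]
  refine lintegral_mono fun θ => ?_
  have h1 : ‖e (Complex.exp (Complex.I * θ))‖ = 1 := by
    rw [e.norm_map, Complex.norm_exp_I_mul_ofReal]
  refine le_trans ?_ (mul_le_mul_right (le_iSup₂_of_le (e (Complex.exp (Complex.I * θ))) h1
    (le_iSup₂_of_le r hr le_rfl)) _)
  rw [mul_left_comm, ← lintegral_const_mul' (ENNReal.ofReal (δ * _)) _ ENNReal.ofReal_ne_top]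
  refine mul_le_mul' (ENNReal.ofReal_le_ofReal (by gcongr; norm_num)) ?_
  rw [← Set.Ioi_inter_Iic, Set.inter_comm, ← Measure.restrict_restrict measurableSet_Iic,
    ← lintegral_indicator measurableSet_Iic]
  refine setLIntegral_mono_ae' measurableSet_Ioi (.of_forall fun s (hs : 0 < s) => le_of_eq ?_)
  have h2 : e (Complex.polarCoord.symm (s, θ)) = s • e (Complex.exp (Complex.I * θ)) := by
    rw [← map_smul, Complex.polarCoord_symm_apply, mul_comm Complex.I, Complex.exp_mul_I,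
      Complex.real_smul, Complex.ofReal_cos, Complex.ofReal_sin]
  have h3 : ‖s • e (Complex.exp (Complex.I * θ))‖ = s := by
    rw [norm_smul, h1, mul_one, norm_of_nonneg hs.le]
  simp only [Prod.swap_prod_mk, h2, Set.indicator, mem_closedBall_zero_iff, h3, Set.mem_Iic]
  split_ifs
  · rw [smul_smul, inv_mul_cancel₀ hs.ne', one_smul, ← he, ← map_sub, e.norm_map, smul_eq_mul,
      ← ENNReal.ofReal_mul hs.le, ← ENNReal.ofReal_mul (by positivity)]
    congr 1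
    ring
  · simp

theorem small_not_ineq : ∃ ε₀ : ℝ, 0 < ε₀ ∧ ∀ ε, 0 < ε → ε ≤ ε₀ → ∀ A, ¬ Ineq ε A := by
  obtain ⟨C, hC, H⟩ := good_of_tower tower
  obtain ⟨B, γ, hB, hγ, H⟩ := H (4 * C ^ 3)
  obtain ⟨ε₀, k2, k1, k0⟩ : ∃ ε : ℝ, (B ^ 30) ^ ε < 2 ∧ ε < 1 ∧ 0 < ε := by
    have h1 : ContinuousAt (fun ε : ℝ => (B ^ 30) ^ ε) 0 :=
      continuousAt_const.rpow continuousAt_id (Or.inl (by positivity))
    have h2 := h1.eventually (gt_mem_nhds (show (B ^ 30) ^ (0 : ℝ) < 2 by simp))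
    have h3 : ∀ᶠ ε in nhds (0 : ℝ), ε < 1 := gt_mem_nhds one_pos
    obtain ⟨ε, h4, h5⟩ := (((h2.and h3).filter_mono nhdsWithin_le_nhds).and
      (self_mem_nhdsWithin (a := (0 : ℝ)) (s := Set.Ioi 0))).exists
    exact ⟨ε, h4.1, h4.2, h5⟩
  refine ⟨ε₀, k0, fun ε hε hε0 A hA => ?_⟩
  have hε1 := hε0.trans_lt k1
  have hε2 := (rpow_le_rpow_of_exponent_le (one_le_pow₀ (n := 30) hB) hε0).trans_lt k2
  obtain ⟨b, q, h⟩ := exists_Bump
  obtain ⟨A', G, c1, hA', hc1, hc2, hG, key⟩ := h.key hε hε1 hA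
  obtain ⟨n0, hn0⟩ := exists_nat_gt (A' * G ^ 6 / c1 ^ 2)
  obtain ⟨n, hn, hg⟩ := H (n0 + 1)
  have hCn : 1 ≤ C ^ n := one_le_pow₀ hC
  have hC3 : 1 ≤ C ^ 3 := one_le_pow₀ hC
  have hδ : 0 < c1 / C ^ n := by positivity
  have hδ1 : c1 / C ^ n ≤ 1 := by rw [div_le_one (by positivity)]; linarith
  obtain ⟨κ, hκ⟩ : ∃ κ, κ = (c1 / C ^ n) ^ (2 * ε)⁻¹ := ⟨_, rfl⟩
  have hκ0 : 0 < κ := by rw [hκ]; positivity
  have hκ1 : κ ≤ 1 := by rw [hκ]; exact rpow_le_one hδ.le hδ1 (by positivity)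
  have hκ2 : (κ ^ ε) ^ 2 = c1 / C ^ n := by
    rw [hκ, ← rpow_natCast, ← rpow_mul hδ.le, ← rpow_mul hδ.le]
    rw [show (2 * ε)⁻¹ * ε * ((2 : ℕ) : ℝ) = 1 by push_cast; field_simp, rpow_one]
  have k := key n B C γ κ (by omega) hB hC (by linarith) hg hκ0 hκ1
    (by rw [hκ2]; field_simp; exact le_rfl)
  have e1 : ((G ^ 3 * (B ^ n) ^ 15 / κ ^ 2) ^ ε) ^ 2 =
      (G ^ 6) ^ ε * ((B ^ 30) ^ ε) ^ n / (c1 / C ^ n) ^ 2 := by
    rw [← hκ2, rpow_pow_comm (by positivity), rpow_pow_comm (by positivity),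
      rpow_pow_comm hκ0.le, rpow_pow_comm (by positivity), ← mul_rpow (by positivity)
      (by positivity), ← div_rpow (by positivity) (by positivity)]
    congr 1
    ring
  have hG6 : 1 ≤ G ^ 6 := one_le_pow₀ hG
  have e2 : (G ^ 6) ^ ε ≤ G ^ 6 := rpow_le_of_le hε hε1.le (by positivity) hG6 le_rfl
  have e3 : ((B ^ 30) ^ ε) ^ n ≤ 2 ^ n := pow_le_pow_left₀ (by positivity) hε2.le _
  have e4 : (4 * C ^ 3) ^ n ≤ γ ^ n := pow_le_pow_left₀ (by positivity) hγ _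
  have e5 : 2 ^ n * (2 ^ n * (C ^ n) ^ 3) ≤ A' * G ^ 6 / c1 ^ 2 * (2 ^ n * (C ^ n) ^ 3) := by
    calc 2 ^ n * (2 ^ n * (C ^ n) ^ 3) = (4 * C ^ 3) ^ n := by
          rw [mul_pow, ← mul_assoc, ← mul_pow, ← pow_mul, ← pow_mul, mul_comm n 3]
          norm_num
      _ ≤ _ := e4.trans k
      _ ≤ A' * C ^ n * (G ^ 6 * 2 ^ n / (c1 / C ^ n) ^ 2) := by rw [e1]; gcongr
      _ = _ := by field_simp
  have e6 := le_of_mul_le_mul_right e5 (by positivity)
  have e7 : (n : ℝ) < 2 ^ n := by exact_mod_cast Nat.lt_two_pow_self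
  have e8 : (n0 : ℝ) + 1 ≤ n := by exact_mod_cast hn
  linarith

end Pool.Agent.MT8
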