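import Mathlib

-- part Pool.Agent.Lib.MP_8ec070_an.OneD
section

set_option autoImplicit false

namespace Pool.Agent.Lib.MP_8ec070_an

open MeasureTheory Real Finset
open scoped FourierTransform ContDiff

/-- The character `r ↦ exp (2 π i r)`. -/
noncomputable def ex (r : ℝ) : ℂ := Complex.exp (((2 * Real.pi * r : ℝ) : ℂ) * Complex.I)

lemma ex_add (a b : ℝ) : ex (a + b) = ex a * ex b := by
  unfold ex
  rw [← Complex.exp_add]
  congr 1
  push_cast
  ring

lemma ex_zero : ex 0 = 1 := by simp [ex]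

lemma norm_ex (a : ℝ) : ‖ex a‖ = 1 := by
  unfold ex
  exact Complex.norm_exp_ofReal_mul_I _

lemma continuous_ex : Continuous ex := by
  unfold ex
  fun_prop

lemma norm_ex_sub (a : ℝ) : ‖ex a - ex (-a)‖ ≤ 4 * π * |a| := by
  have h1 : ex a - ex (-a) = ex (-a) * (ex (2 * a) - 1) := by
    rw [mul_sub, ← ex_add, mul_one]
    congr 2
    ring
  rw [h1, norm_mul, norm_ex, one_mul]
  unfold ex
  have := Real.norm_exp_I_mul_ofReal_sub_one_le (x := 2 * π * (2 * a))
  rw [mul_comm] at this
  refine this.trans (le_of_eq ?_)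
  rw [Real.norm_eq_abs, abs_mul, abs_mul, abs_mul, abs_of_pos pi_pos]
  simp
  ring

/-- A smooth bump on the line and its inverse Fourier transform. -/
lemma exists_bump : ∃ (β q : ℝ → ℂ) (C : ℝ), ContDiff ℝ ∞ β ∧ (∀ u, 1 / 2 ≤ |u| → β u = 0) ∧
    (∀ y, q y = ∫ s, ex (s * y) * β s) ∧ Continuous q ∧ q 0 = 1 ∧ Integrable q ∧ 0 ≤ C ∧
    ∀ y, ‖q y‖ * (1 + |y|) ^ 2 ≤ C := by
  let b : ContDiffBump (0 : ℝ) := ⟨1 / 4, 1 / 2, by norm_num, by norm_num⟩
  let β : ℝ → ℂ := fun u => ((b.normed volume u : ℝ) : ℂ)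
  have hβ : ContDiff ℝ ∞ β := Complex.ofRealCLM.contDiff.comp b.contDiff_normed
  have hsupp : ∀ u, 1 / 2 ≤ |u| → β u = 0 := by
    intro u hu
    have : u ∉ Function.support (b.normed volume) := by
      rw [b.support_normed_eq]
      simp only [Metric.mem_ball, dist_zero_right, Real.norm_eq_abs, not_lt]
      exact hu
    simp only [Function.mem_support, not_not] at this
    simp [β, this]
  have hc : HasCompactSupport β := by
    apply HasCompactSupport.intro (isCompact_closedBall (0 : ℝ) 1)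
    intro u hu
    apply hsupp
    simp only [Metric.mem_closedBall, dist_zero_right, Real.norm_eq_abs, not_le] at hu
    linarith
  let B : SchwartzMap ℝ ℂ := hc.toSchwartzMap hβ
  let Q : SchwartzMap ℝ ℂ := 𝓕⁻ B
  have hQ : ∀ y, Q y = ∫ s, ex (s * y) * β s := by
    intro y
    have : Q y = 𝓕⁻ (B : ℝ → ℂ) y := by
      simp only [Q]
      rw [SchwartzMap.fourierInv_coe]
    rw [this, Real.fourierInv_eq']
    congr 1
    ext s
    simp [ex, B, mul_comm]
  refine ⟨β, Q, 2 ^ 2 * (Finset.Iic (2, 0)).sup (fun m => SchwartzMap.seminorm ℝ m.1 m.2) Q,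
    hβ, hsupp, hQ, Q.continuous, ?_, Q.integrable, by positivity, ?_⟩
  · rw [hQ]
    simp only [mul_zero, ex_zero, one_mul, β]
    rw [integral_complex_ofReal, b.integral_normed]
    simp
  · intro y
    have := SchwartzMap.one_add_le_sup_seminorm_apply (𝕜 := ℝ) (m := (2, 0)) (k := 2) (n := 0)
      le_rfl le_rfl Q y
    rw [norm_iteratedFDeriv_zero, Real.norm_eq_abs] at this
    rw [mul_comm]
    exact this

/-- Inverse Fourier transform of an affine reparametrisation of the bump. -/
lemma integral_affine {β q : ℝ → ℂ} (hq : ∀ y, q y = ∫ s, ex (s * y) * β s)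
    {L : ℝ} (hL : 0 < L) (c d y : ℝ) :
    ∫ s, ex (s * y) * ((L : ℂ) * β (L * (s + c) - d)) =
      ex (-c * y) * (ex (d * (y / L)) * q (y / L)) := by
  let F : ℝ → ℂ := fun u => ex (((u + d) / L - c) * y) * β u
  have h1 : ∀ s, ex (s * y) * ((L : ℂ) * β (L * (s + c) - d)) =
      (L : ℂ) * F (L * s + (L * c - d)) := by
    intro s
    simp only [F]
    have e1 : (L * s + (L * c - d) + d) / L - c = s := by
      field_simp
      ring
    have e2 : L * s + (L * c - d) = L * (s + c) - d := by ring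
    rw [e1, e2]
    ring
  simp_rw [h1]
  rw [integral_const_mul]
  have h2 := Measure.integral_comp_mul_left (fun u => F (u + (L * c - d))) L
  rw [h2, integral_add_right_eq_self F, abs_of_pos (inv_pos.mpr hL), hq]
  have h3 : ∀ u, F u = ex (-c * y) * (ex (d * (y / L)) * (ex (u * (y / L)) * β u)) := by
    intro u
    simp only [F]
    rw [← mul_assoc, ← mul_assoc, ← ex_add, ← ex_add]
    congr 2
    field_simp
    ring
  simp_rw [h3]
  rw [integral_const_mul, integral_const_mul]
  have hL' : (L : ℂ) ≠ 0 := by exact_mod_cast hL.ne'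
  rw [Complex.real_smul]
  push_cast
  field_simp

/-- Telescoping bound for a dyadic sum. -/
lemma sum_dyadic_le (u : ℝ) (hu : 0 ≤ u) (N : ℕ) :
    ∑ j ∈ range N, (u / 2 ^ j) / (1 + u / 2 ^ j) ^ 2 ≤ 2 := by
  have key : ∀ N : ℕ, ∑ j ∈ range N, (u / 2 ^ j) / (1 + u / 2 ^ j) ^ 2 ≤
      2 * (1 / (1 + u / 2 ^ N) - 1 / (1 + u)) := by
    intro N
    induction N with
    | zero => simp
    | succ N ih =>
      rw [sum_range_succ]
      have hv : 0 ≤ u / 2 ^ N := by positivity
      have e : u / 2 ^ (N + 1) = (u / 2 ^ N) / 2 := by rw [pow_succ]; field_simp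
      rw [e]
      set v := u / 2 ^ N
      have h : v / (1 + v) ^ 2 ≤ 2 * (1 / (1 + v / 2) - 1 / (1 + v)) := by
        have : 2 * (1 / (1 + v / 2) - 1 / (1 + v)) = v / ((1 + v / 2) * (1 + v)) := by
          field_simp
          ring
        rw [this]
        apply div_le_div_of_nonneg_left hv (by positivity)
        nlinarith
      linarith
  refine (key N).trans ?_
  have h1 : 1 / (1 + u / 2 ^ N) ≤ 1 := by
    rw [div_le_one (by positivity)]
    have : 0 ≤ u / 2 ^ N := by positivity
    linarith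
  have h2 : 0 ≤ 1 / (1 + u) := by positivity
  linarith

end Pool.Agent.Lib.MP_8ec070_an
end

-- part Pool.Agent.Lib.MP_8ec070_an.TwoD
section

set_option autoImplicit false

namespace Pool.Agent.Lib.MP_8ec070_an

open MeasureTheory Real Finset
open scoped FourierTransform ContDiff

/-- The plane. -/
abbrev E2 := EuclideanSpace ℝ (Fin 2)

lemma integral_prod2 {𝕜 : Type*} [RCLike 𝕜] (u v : ℝ → 𝕜) :
    ∫ x : E2, u (x 0) * v (x 1) = (∫ s, u s) * ∫ s, v s := by
  rw [← (PiLp.volume_preserving_toLp (Fin 2)).integral_comp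
    (MeasurableEquiv.toLp 2 _).measurableEmbedding]
  have := integral_fintype_prod_volume_eq_prod (ι := Fin 2) (E := fun _ => ℝ) (𝕜 := 𝕜) ![u, v]
  simpa [Fin.prod_univ_two] using this

lemma integrable_prod2 {u v : ℝ → ℝ} (hu : Integrable u) (hv : Integrable v) :
    Integrable (fun x : E2 => u (x 0) * v (x 1)) := by
  rw [← (PiLp.volume_preserving_toLp (Fin 2)).integrable_comp_emb
    (MeasurableEquiv.toLp 2 _).measurableEmbedding]
  have := Integrable.fintype_prod (ι := Fin 2) (f := ![u, v]) (μ := fun _ => volume)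
    (by intro i; fin_cases i <;> simpa)
  simpa [Fin.prod_univ_two, Function.comp_def, volume_pi] using this

lemma inner_two (x y : E2) : @inner ℝ _ _ x y = x 0 * y 0 + x 1 * y 1 := by
  simp [PiLp.inner_apply, Fin.sum_univ_two, mul_comm]

lemma norm_sq_two (x : E2) : ‖x‖ ^ 2 = x 0 ^ 2 + x 1 ^ 2 := by
  rw [EuclideanSpace.norm_sq_eq]
  simp [Fin.sum_univ_two]

/-- The test function: a Schwartz function on the plane with explicit modulus, whose image under
the disc multiplier also has explicit modulus. -/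
theorem exists_test {β q : ℝ → ℂ} (hβ : ContDiff ℝ ∞ β) (hsupp : ∀ u, 1 / 2 ≤ |u| → β u = 0)
    (hq : ∀ y, q y = ∫ s, ex (s * y) * β s) (N : ℕ) (t : ℝ) (ht : t = 2 ^ (N + 1)) :
    ∃ f : SchwartzMap E2 ℂ,
      (∀ x : E2, ‖f x‖ = ‖∑ j ∈ range N, (ex (x 0 / (t * 2 ^ j)) - ex (-(x 0 / (t * 2 ^ j)))) *
        q (x 0 / (t * 2 ^ j))‖ * ‖q (x 1 / t)‖) ∧
      (∀ x : E2, ‖∫ ξ in Metric.ball (0 : E2) 1,
          (∫ y, Complex.exp (((-2 * Real.pi * @inner ℝ _ _ y ξ : ℝ) : ℂ) * Complex.I) * f y) *
            Complex.exp (((2 * Real.pi * @inner ℝ _ _ x ξ : ℝ) : ℂ) * Complex.I)‖ =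
        ‖∑ j ∈ range N, ex (x 0 / (t * 2 ^ j)) * q (x 0 / (t * 2 ^ j))‖ * ‖q (x 1 / t)‖) := by
  have ht2 : (2 : ℝ) ≤ t := by
    rw [ht, pow_succ]
    have : (1 : ℝ) ≤ 2 ^ N := one_le_pow₀ (by norm_num)
    linarith
  have ht0 : 0 < t := by linarith
  have hL : ∀ j : ℕ, t ≤ t * 2 ^ j := fun j =>
    le_mul_of_one_le_right ht0.le (one_le_pow₀ (by norm_num))
  have hL0 : ∀ j : ℕ, 0 < t * 2 ^ j := fun j => by positivity
  let ap : ℝ → ℂ := fun s =>
    ∑ j ∈ range N, ((t * 2 ^ j : ℝ) : ℂ) * β (t * 2 ^ j * (s + 1) - 1)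
  let am : ℝ → ℂ := fun s =>
    ∑ j ∈ range N, ((t * 2 ^ j : ℝ) : ℂ) * β (t * 2 ^ j * (s + 1) - (-1))
  let γ : ℝ → ℂ := fun s => (t : ℂ) * β (t * (s + 0) - 0)
  let g : E2 → ℂ := fun ξ => (ap (ξ 0) - am (ξ 0)) * γ (ξ 1)
  have hap : ContDiff ℝ ∞ ap := by
    apply ContDiff.sum
    intro j _
    exact contDiff_const.mul (hβ.comp (by fun_prop))
  have ham : ContDiff ℝ ∞ am := by
    apply ContDiff.sum
    intro j _
    exact contDiff_const.mul (hβ.comp (by fun_prop))
  have hγ : ContDiff ℝ ∞ γ := contDiff_const.mul (hβ.comp (by fun_prop))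
  have h0 : ContDiff ℝ ∞ (fun ξ : E2 => ξ 0) := (EuclideanSpace.proj (𝕜 := ℝ) (0 : Fin 2)).contDiff
  have h1 : ContDiff ℝ ∞ (fun ξ : E2 => ξ 1) := (EuclideanSpace.proj (𝕜 := ℝ) (1 : Fin 2)).contDiff
  have hg : ContDiff ℝ ∞ g := ((hap.comp h0).sub (ham.comp h0)).mul (hγ.comp h1)
  have hγ0 : ∀ s, 1 / 2 ≤ t * |s| → γ s = 0 := by
    intro s hs
    simp only [γ]
    rw [hsupp, mul_zero]
    rwa [add_zero, sub_zero, abs_mul, abs_of_pos ht0]
  have hgc : HasCompactSupport g := by
    apply HasCompactSupport.intro (isCompact_closedBall (0 : E2) 4)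
    intro ξ hξ
    simp only [Metric.mem_closedBall, dist_zero_right, not_le] at hξ
    have hn := norm_sq_two ξ
    by_cases h : 1 ≤ |ξ 1|
    · simp only [g]
      rw [hγ0 _ (by nlinarith), mul_zero]
    · push Not at h
      have h2 : ξ 1 ^ 2 < 1 := by
        rw [← sq_abs]
        nlinarith [abs_nonneg (ξ 1)]
      have h3 : 9 < ξ 0 ^ 2 := by nlinarith
      have h4 : 3 < |ξ 0| := by
        rw [← sq_abs] at h3
        nlinarith [abs_nonneg (ξ 0)]
      have h5 : 2 ≤ |ξ 0 + 1| := by
        have := abs_sub_abs_le_abs_sub (ξ 0) (-1)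
        simp only [abs_neg, abs_one, sub_neg_eq_add] at this
        linarith
      have h6 : ∀ (j : ℕ) (d : ℝ), |d| = 1 → β (t * 2 ^ j * (ξ 0 + 1) - d) = 0 := by
        intro j d hd
        apply hsupp
        have := abs_sub_abs_le_abs_sub (t * 2 ^ j * (ξ 0 + 1)) d
        rw [abs_mul, abs_of_pos (hL0 j), hd] at this
        nlinarith [hL j]
      have e1 : ap (ξ 0) = 0 := by
        apply sum_eq_zero
        intro j _
        rw [h6 j 1 (by simp), mul_zero]
      have e2 : am (ξ 0) = 0 := by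
        apply sum_eq_zero
        intro j _
        rw [h6 j (-1) (by simp), mul_zero]
      simp only [g]
      rw [e1, e2, sub_self, zero_mul]
  -- one dimensional integrals
  have hint : ∀ (j : ℕ) (d y : ℝ), Integrable
      (fun s => ex (s * y) * (((t * 2 ^ j : ℝ) : ℂ) * β (t * 2 ^ j * (s + 1) - d))) := by
    intro j d y
    apply Continuous.integrable_of_hasCompactSupport
    · exact (continuous_ex.comp (by fun_prop)).mul
        (continuous_const.mul (hβ.continuous.comp (by fun_prop)))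
    · apply HasCompactSupport.intro (isCompact_closedBall (0 : ℝ) (2 + |d|))
      intro s hs
      simp only [Metric.mem_closedBall, dist_zero_right, Real.norm_eq_abs, not_le] at hs
      rw [hsupp, mul_zero, mul_zero]
      have e1 := abs_sub_abs_le_abs_sub (t * 2 ^ j * (s + 1)) d
      have e2 := abs_sub_abs_le_abs_sub s (-1)
      simp only [abs_neg, abs_one, sub_neg_eq_add] at e2
      rw [abs_mul, abs_of_pos (hL0 j)] at e1
      nlinarith [hL j, abs_nonneg d, abs_nonneg (s + 1)]
  have hIap : ∀ y, ∫ s, ex (s * y) * ap s =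
      ex (-1 * y) * ∑ j ∈ range N, ex (y / (t * 2 ^ j)) * q (y / (t * 2 ^ j)) := by
    intro y
    simp only [ap, mul_sum]
    rw [integral_finsetSum _ (fun j _ => hint j 1 y)]
    apply sum_congr rfl
    intro j _
    rw [integral_affine hq (hL0 j), one_mul]
  have hIam : ∀ y, ∫ s, ex (s * y) * am s =
      ex (-1 * y) * ∑ j ∈ range N, ex (-(y / (t * 2 ^ j))) * q (y / (t * 2 ^ j)) := by
    intro y
    simp only [am, mul_sum]
    rw [integral_finsetSum _ (fun j _ => hint j (-1) y)]
    apply sum_congr rfl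
    intro j _
    rw [integral_affine hq (hL0 j), neg_one_mul (y / (t * 2 ^ j))]
  have hiap : ∀ y, Integrable (fun s => ex (s * y) * ap s) := by
    intro y
    simp only [ap, mul_sum]
    exact integrable_finsetSum _ (fun j _ => hint j 1 y)
  have hiam : ∀ y, Integrable (fun s => ex (s * y) * am s) := by
    intro y
    simp only [am, mul_sum]
    exact integrable_finsetSum _ (fun j _ => hint j (-1) y)
  have hIγ : ∀ y, ∫ s, ex (s * y) * γ s = q (y / t) := by
    intro y
    simp only [γ]
    rw [integral_affine hq ht0]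
    simp [ex_zero]
  let G : SchwartzMap E2 ℂ := hgc.toSchwartzMap hg
  have hG : ∀ ξ, G ξ = g ξ := fun ξ => rfl
  have hexp : ∀ x ξ : E2, Complex.exp (((2 * Real.pi * @inner ℝ _ _ x ξ : ℝ) : ℂ) * Complex.I) =
      ex (ξ 0 * x 0) * ex (ξ 1 * x 1) := by
    intro x ξ
    rw [← ex_add, inner_two]
    unfold ex
    congr 3
    ring
  refine ⟨𝓕⁻ G, ?_, ?_⟩
  · intro x
    have e1 : (𝓕⁻ G) x = ∫ ξ : E2, (ex (ξ 0 * x 0) * (ap (ξ 0) - am (ξ 0))) *
        (ex (ξ 1 * x 1) * γ (ξ 1)) := by
      rw [SchwartzMap.fourierInv_coe, Real.fourierInv_eq']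
      congr 1
      ext ξ
      rw [real_inner_comm, hexp, hG, smul_eq_mul]
      simp only [g]
      ring
    rw [e1, integral_prod2 (fun s => ex (s * x 0) * (ap s - am s))
      (fun s => ex (s * x 1) * γ s), hIγ]
    simp_rw [mul_sub]
    rw [integral_sub (hiap _) (hiam _), hIap, hIam, ← mul_sub, norm_mul, norm_mul, norm_ex,
      one_mul, ← sum_sub_distrib]
    simp_rw [sub_mul]
  · intro x
    have e0 : ∀ ξ : E2, (∫ y, Complex.exp (((-2 * Real.pi * @inner ℝ _ _ y ξ : ℝ) : ℂ) *
        Complex.I) * (𝓕⁻ G : SchwartzMap E2 ℂ) y) = g ξ := by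
      intro ξ
      have h1 : (𝓕 (𝓕⁻ G : SchwartzMap E2 ℂ) : SchwartzMap E2 ℂ) = G :=
        FourierTransform.fourier_fourierInv_eq G
      have h2 : (𝓕 (𝓕⁻ G : SchwartzMap E2 ℂ) : SchwartzMap E2 ℂ) ξ = g ξ := by rw [h1, hG]
      rw [← h2, SchwartzMap.fourier_coe, Real.fourier_eq']
      simp only [smul_eq_mul]
    simp_rw [e0]
    rw [← integral_indicator Metric.isOpen_ball.measurableSet]
    have e1 : (Metric.ball (0 : E2) 1).indicator (fun ξ => g ξ *
        Complex.exp (((2 * Real.pi * @inner ℝ _ _ x ξ : ℝ) : ℂ) * Complex.I)) =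
        fun ξ : E2 => (ex (ξ 0 * x 0) * ap (ξ 0)) * (ex (ξ 1 * x 1) * γ (ξ 1)) := by
      ext ξ
      have hn := norm_sq_two ξ
      by_cases hξ : ξ ∈ Metric.ball (0 : E2) 1
      · rw [Set.indicator_of_mem hξ, hexp]
        simp only [Metric.mem_ball, dist_zero_right] at hξ
        have h2 : ξ 0 ^ 2 < 1 := by nlinarith [norm_nonneg ξ, sq_nonneg (ξ 1)]
        have h3 : -1 < ξ 0 := by nlinarith
        have e2 : am (ξ 0) = 0 := by
          apply sum_eq_zero
          intro j _
          rw [hsupp, mul_zero]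
          have : 0 < t * 2 ^ j * (ξ 0 + 1) := mul_pos (hL0 j) (by linarith)
          rw [abs_of_pos (by linarith)]
          linarith
        simp only [g]
        rw [e2]
        ring
      · rw [Set.indicator_of_notMem hξ]
        simp only [Metric.mem_ball, dist_zero_right, not_lt] at hξ
        by_cases h : 1 / 2 ≤ t * |ξ 1|
        · rw [hγ0 _ h]
          simp
        · push Not at h
          have e2 : ap (ξ 0) = 0 := by
            apply sum_eq_zero
            intro j hj
            rw [hsupp, mul_zero]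
            by_contra hcon
            push Not at hcon
            rw [abs_lt] at hcon
            obtain ⟨c1, c2⟩ := hcon
            have hu0 : 0 < ξ 0 + 1 := by
              by_contra hneg
              push Not at hneg
              nlinarith [hL0 j]
            have hu1 : ξ 0 + 1 < 1 := by nlinarith [hL j]
            have hj2 : (2 : ℝ) ^ j ≤ t := by
              rw [ht]
              exact pow_le_pow_right₀ (by norm_num) (by simp at hj; omega)
            have hLt : t * 2 ^ j ≤ t * t := mul_le_mul_of_nonneg_left hj2 ht0.le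
            have hu2 : 1 / 2 < t * t * (ξ 0 + 1) := by nlinarith
            have hs : t * t * ξ 1 ^ 2 < 1 / 4 := by
              have : t * t * ξ 1 ^ 2 = (t * |ξ 1|) ^ 2 := by rw [mul_pow, sq_abs]; ring
              rw [this]
              nlinarith [mul_nonneg ht0.le (abs_nonneg (ξ 1))]
            have hs2 : ξ 1 ^ 2 < ξ 0 + 1 := by
              by_contra hc
              push Not at hc
              nlinarith [mul_pos ht0 ht0]
            have : 1 ≤ ‖ξ‖ ^ 2 := by nlinarith
            nlinarith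
          rw [e2]
          simp
    rw [e1, integral_prod2 (fun s => ex (s * x 0) * ap s) (fun s => ex (s * x 1) * γ s), hIγ,
      hIap, norm_mul, norm_mul, norm_ex, one_mul]

end Pool.Agent.Lib.MP_8ec070_an
end

-- part Pool.Agent.Lib.MP_8ec070_an.Main
section

set_option autoImplicit false

namespace Pool.Agent.Lib.MP_8ec070_an

open MeasureTheory Real Finset
open scoped FourierTransform

/-- Indicator of the vertical strip of half-width `t`. -/
noncomputable def strip (t : ℝ) : E2 → ℝ := fun x => if |x 0| ≤ t then 1 else 0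

lemma strip_nonneg (t : ℝ) (x : E2) : 0 ≤ strip t x := by
  unfold strip
  split_ifs <;> norm_num

lemma strip_le_one (t : ℝ) (x : E2) : strip t x ≤ 1 := by
  unfold strip
  split_ifs <;> norm_num

lemma measurable_strip (t : ℝ) : Measurable (strip t) := by
  unfold strip
  apply Measurable.ite _ measurable_const measurable_const
  have h0 : Continuous (fun ξ : E2 => |ξ 0|) := by fun_prop
  exact (isClosed_le h0 continuous_const).measurableSet

lemma locallyIntegrable_strip (t : ℝ) : LocallyIntegrable (strip t) volume := by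
  apply (locallyIntegrable_const (1 : ℝ)).mono (measurable_strip t).aestronglyMeasurable
  filter_upwards with x
  rw [Real.norm_eq_abs, abs_of_nonneg (strip_nonneg t x), norm_one]
  exact strip_le_one t x

/-- Each ray average of the strip is at most `8 t / |x₀|`. -/
lemma ray_average_le {t : ℝ} (ht : 0 < t) (x : E2) (hx : x 0 ≠ 0) (ω : E2) (r : ℝ)
    (hr : 0 < r) :
    ENNReal.ofReal (2 / r ^ 2) *
      ∫⁻ s in Set.Ioc (0 : ℝ) r, ENNReal.ofReal (strip t (x - s • ω) * s) ≤
      ENNReal.ofReal (8 * t / |x 0|) := by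
  have hx0 : 0 < |x 0| := abs_pos.mpr hx
  let S : Set ℝ := {s | |x 0 - s * ω 0| ≤ t}
  have hSm : MeasurableSet S := by
    have h0 : Continuous (fun s : ℝ => |x 0 - s * ω 0|) := by fun_prop
    exact (isClosed_le h0 continuous_const).measurableSet
  have h1 : ∫⁻ s in Set.Ioc (0 : ℝ) r, ENNReal.ofReal (strip t (x - s • ω) * s) ≤
      ENNReal.ofReal r * volume (S ∩ Set.Ioc 0 r) := by
    calc ∫⁻ s in Set.Ioc (0 : ℝ) r, ENNReal.ofReal (strip t (x - s • ω) * s)
        ≤ ∫⁻ s in Set.Ioc (0 : ℝ) r, S.indicator (fun _ => ENNReal.ofReal r) s := by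
          apply setLIntegral_mono' measurableSet_Ioc
          intro s hs
          by_cases h : s ∈ S
          · rw [Set.indicator_of_mem h]
            apply ENNReal.ofReal_le_ofReal
            nlinarith [strip_le_one t (x - s • ω), strip_nonneg t (x - s • ω), hs.1, hs.2]
          · have : strip t (x - s • ω) = 0 := by
              unfold strip
              rw [if_neg]
              simpa [S] using h
            rw [this]
            simp
      _ = ENNReal.ofReal r * volume (S ∩ Set.Ioc 0 r) := by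
          rw [lintegral_indicator_const hSm, Measure.restrict_apply hSm]
  have h2 : volume (S ∩ Set.Ioc 0 r) ≤ ENNReal.ofReal (r * (4 * t / |x 0|)) := by
    by_cases hc : |x 0| ≤ 4 * t
    · calc volume (S ∩ Set.Ioc 0 r) ≤ volume (Set.Ioc (0 : ℝ) r) :=
            measure_mono Set.inter_subset_right
        _ = ENNReal.ofReal r := by simp
        _ ≤ ENNReal.ofReal (r * (4 * t / |x 0|)) := by
            apply ENNReal.ofReal_le_ofReal
            apply le_mul_of_one_le_right hr.le
            rwa [le_div_iff₀ hx0, one_mul]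
    · push Not at hc
      rcases (S ∩ Set.Ioc 0 r).eq_empty_or_nonempty with he | ⟨s0, hs0, hs1, hs2⟩
      · rw [he]
        simp
      · have hs0' : |x 0 - s0 * ω 0| ≤ t := hs0
        have e1 : |x 0| - t ≤ r * |ω 0| := by
          have := abs_sub_abs_le_abs_sub (x 0) (s0 * ω 0)
          rw [abs_mul, abs_of_pos hs1] at this
          nlinarith [abs_nonneg (ω 0)]
        have hw : 0 < |ω 0| := by
          by_contra h
          push Not at h
          nlinarith [abs_nonneg (ω 0)]
        have hw' : ω 0 ≠ 0 := abs_pos.mp hw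
        calc volume (S ∩ Set.Ioc 0 r) ≤ volume (Metric.closedBall (x 0 / ω 0) (t / |ω 0|)) := by
              apply measure_mono
              intro s hs
              have hs' : |x 0 - s * ω 0| ≤ t := hs.1
              rw [Metric.mem_closedBall, Real.dist_eq, le_div_iff₀ hw, ← abs_mul]
              have : (x 0 / ω 0 - s) * ω 0 = x 0 - s * ω 0 := by field_simp
              rw [← abs_neg, ← neg_mul, neg_sub, this]
              exact hs'
          _ = ENNReal.ofReal (2 * (t / |ω 0|)) := Real.volume_closedBall _ _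
          _ ≤ ENNReal.ofReal (r * (4 * t / |x 0|)) := by
              apply ENNReal.ofReal_le_ofReal
              rw [← mul_div_assoc, ← mul_div_assoc, div_le_div_iff₀ hw hx0]
              nlinarith
  calc ENNReal.ofReal (2 / r ^ 2) *
        ∫⁻ s in Set.Ioc (0 : ℝ) r, ENNReal.ofReal (strip t (x - s • ω) * s)
      ≤ ENNReal.ofReal (2 / r ^ 2) *
        (ENNReal.ofReal r * ENNReal.ofReal (r * (4 * t / |x 0|))) := by
        gcongr
        exact h1.trans (by gcongr)
    _ = ENNReal.ofReal (8 * t / |x 0|) := by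
        rw [← ENNReal.ofReal_mul hr.le, ← ENNReal.ofReal_mul (by positivity)]
        congr 1
        field_simp
        ring

theorem not_endpoint : ¬ ∃ A : NNReal, ∀ (f : SchwartzMap (EuclideanSpace ℝ (Fin 2)) ℂ)
    (φ : EuclideanSpace ℝ (Fin 2) → ℝ),
    (∀ x, 0 ≤ φ x) → MeasureTheory.LocallyIntegrable φ MeasureTheory.volume →
    ∫⁻ x, ENNReal.ofReal
        (‖∫ ξ in Metric.ball (0 : EuclideanSpace ℝ (Fin 2)) 1,
            (∫ y, Complex.exp (((-2 * Real.pi * @inner ℝ _ _ y ξ : ℝ) : ℂ) * Complex.I) * f y) *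
              Complex.exp (((2 * Real.pi * @inner ℝ _ _ x ξ : ℝ) : ℂ) * Complex.I)‖ ^ 2 * φ x)
      ≤ (A : ENNReal) * ∫⁻ x, ENNReal.ofReal (‖f x‖ ^ 2) *
          ⨆ (ω : EuclideanSpace ℝ (Fin 2)) (_ : ‖ω‖ = 1) (r : ℝ) (_ : 0 < r),
            ENNReal.ofReal (2 / r ^ 2) *
              ∫⁻ s in Set.Ioc (0 : ℝ) r, ENNReal.ofReal (φ (x - s • ω) * s) := by
  rintro ⟨A, hA⟩
  obtain ⟨β, q, C, hβ, hsupp, hq, hqc, hq0, hqi, hC, hqC⟩ := exists_bump
  -- continuity at the origin
  have hcont : ContinuousAt (fun u : ℝ => ex u * q u) 0 := (continuous_ex.mul hqc).continuousAt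
  obtain ⟨ρ0, hρ0, hρ⟩ := Metric.continuousAt_iff.mp hcont (1 / 2) (by norm_num)
  let ρ := min ρ0 1
  have hρpos : 0 < ρ := lt_min hρ0 one_pos
  have hρ1 : ρ ≤ 1 := min_le_right _ _
  have hre : ∀ u : ℝ, |u| < ρ → 1 / 2 ≤ (ex u * q u).re := by
    intro u hu
    have h1 := hρ (x := u) (by
      rw [dist_zero_right, Real.norm_eq_abs]
      exact lt_of_lt_of_le hu (min_le_left _ _))
    rw [ex_zero, hq0, one_mul, dist_eq_norm] at h1
    have h2 := Complex.abs_re_le_norm (ex u * q u - 1)
    rw [Complex.sub_re, Complex.one_re] at h2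
    have := abs_le.mp (h2.trans h1.le)
    linarith [this.1]
  have hqle : ∀ y, ‖q y‖ ≤ C := by
    intro y
    have := hqC y
    nlinarith [norm_nonneg (q y), abs_nonneg y, sq_nonneg |y|,
      mul_nonneg (norm_nonneg (q y)) (abs_nonneg y),
      mul_nonneg (norm_nonneg (q y)) (sq_nonneg |y|)]
  set I := ∫ y, ‖q y‖ with hI
  have hI0 : 0 ≤ I := integral_nonneg (fun y => norm_nonneg _)
  let K : ℝ := 8 * π * C
  have hK : 0 ≤ K := by positivity
  let D : ℝ := 32 * π * K * C * I * I
  have hD : 0 ≤ D := by positivity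
  obtain ⟨N, hN⟩ := exists_nat_gt (16 * A * D / (ρ ^ 2 * π))
  have hNpos : (0 : ℝ) < N := lt_of_le_of_lt (by positivity) hN
  let t : ℝ := 2 ^ (N + 1)
  have ht0 : 0 < t := by positivity
  have hL : ∀ j : ℕ, t ≤ t * 2 ^ j := fun j =>
    le_mul_of_one_le_right ht0.le (one_le_pow₀ (by norm_num))
  have hL0 : ∀ j : ℕ, 0 < t * 2 ^ j := fun j => by positivity
  obtain ⟨f, hf1, hf2⟩ := exists_test hβ hsupp hq N t rfl
  have hmain := hA f (strip t) (strip_nonneg t) (locallyIntegrable_strip t)
  -- lower bound for the left side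
  have hlow : ENNReal.ofReal ((N : ℝ) ^ 2 / 16 * ((ρ * t) ^ 2 * π)) ≤
      ∫⁻ x, ENNReal.ofReal
        (‖∫ ξ in Metric.ball (0 : EuclideanSpace ℝ (Fin 2)) 1,
            (∫ y, Complex.exp (((-2 * Real.pi * @inner ℝ _ _ y ξ : ℝ) : ℂ) * Complex.I) * f y) *
              Complex.exp (((2 * Real.pi * @inner ℝ _ _ x ξ : ℝ) : ℂ) * Complex.I)‖ ^ 2 *
                strip t x) := by
    have e1 : ENNReal.ofReal ((N : ℝ) ^ 2 / 16 * ((ρ * t) ^ 2 * π)) =
        ∫⁻ x, (Metric.ball (0 : E2) (ρ * t)).indicator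
          (fun _ => ENNReal.ofReal ((N : ℝ) ^ 2 / 16)) x := by
      rw [lintegral_indicator_const Metric.isOpen_ball.measurableSet,
        EuclideanSpace.volume_ball_fin_two, ← ENNReal.ofReal_pow (by positivity),
        ← ENNReal.ofReal_mul (by positivity), ← ENNReal.ofReal_mul (by positivity)]
    rw [e1]
    apply lintegral_mono
    intro x
    by_cases hx : x ∈ Metric.ball (0 : E2) (ρ * t)
    · rw [Set.indicator_of_mem hx]
      apply ENNReal.ofReal_le_ofReal
      simp only [Metric.mem_ball, dist_zero_right] at hx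
      have hx0 : |x 0| < ρ * t := lt_of_le_of_lt (by
        simpa using PiLp.norm_apply_le x 0) hx
      have hx1 : |x 1| < ρ * t := lt_of_le_of_lt (by
        simpa using PiLp.norm_apply_le x 1) hx
      have hs : strip t x = 1 := by
        unfold strip
        rw [if_pos]
        nlinarith
      rw [hf2, hs, mul_one]
      have b1 : (N : ℝ) / 2 ≤ ‖∑ j ∈ range N, ex (x 0 / (t * 2 ^ j)) * q (x 0 / (t * 2 ^ j))‖ := by
        refine le_trans ?_ (Complex.re_le_norm _)
        rw [Complex.re_sum]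
        have : ∀ j ∈ range N, (1 / 2 : ℝ) ≤
            (ex (x 0 / (t * 2 ^ j)) * q (x 0 / (t * 2 ^ j))).re := by
          intro j _
          apply hre
          rw [abs_div, abs_of_pos (hL0 j), div_lt_iff₀ (hL0 j)]
          nlinarith [hL j]
        have := sum_le_sum this
        simp only [sum_const, card_range, nsmul_eq_mul] at this
        linarith
      have b2 : (1 / 2 : ℝ) ≤ ‖q (x 1 / t)‖ := by
        have h1 := hre (x 1 / t) (by
          rw [abs_div, abs_of_pos ht0, div_lt_iff₀ ht0]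
          exact hx1)
        have h2 := Complex.re_le_norm (ex (x 1 / t) * q (x 1 / t))
        rw [norm_mul, norm_ex, one_mul] at h2
        linarith
      have b3 : (N : ℝ) / 2 * (1 / 2) ≤
          ‖∑ j ∈ range N, ex (x 0 / (t * 2 ^ j)) * q (x 0 / (t * 2 ^ j))‖ * ‖q (x 1 / t)‖ :=
        mul_le_mul b1 b2 (by norm_num) (norm_nonneg _)
      calc (N : ℝ) ^ 2 / 16 = ((N : ℝ) / 2 * (1 / 2)) ^ 2 := by ring
        _ ≤ _ := by gcongr
    · rw [Set.indicator_of_notMem hx]
      exact zero_le
  -- upper bound for the right side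
  let w : ℝ → ℝ := fun y => ∑ j ∈ range N, (1 / (t * 2 ^ j)) * ‖q (y / (t * 2 ^ j))‖
  let h : ℝ → ℝ := fun y => (32 * π * K * t) * w y
  let k : ℝ → ℝ := fun y => C * ‖q (y / t)‖
  have hw0 : ∀ y, 0 ≤ w y := fun y => sum_nonneg (fun j _ => by positivity)
  have hqi' : ∀ L : ℝ, 0 < L → Integrable (fun y => ‖q (y / L)‖) := fun L hL' =>
    (hqi.comp_div hL'.ne').norm
  have hqI : ∀ L : ℝ, 0 < L → ∫ y, ‖q (y / L)‖ = L * I := by
    intro L hL'
    rw [Measure.integral_comp_div (fun y => ‖q y‖) L, abs_of_pos hL', smul_eq_mul]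
  have hwi : Integrable w :=
    integrable_finsetSum _ (fun j _ => (hqi' _ (hL0 j)).const_mul _)
  have hwI : ∫ y, w y = N * I := by
    simp only [w]
    rw [integral_finsetSum _ (fun j _ => (hqi' _ (hL0 j)).const_mul _)]
    have : ∀ j ∈ range N, ∫ y, (1 / (t * 2 ^ j)) * ‖q (y / (t * 2 ^ j))‖ = I := by
      intro j _
      rw [integral_const_mul, hqI _ (hL0 j)]
      have := (hL0 j).ne'
      field_simp
    rw [sum_congr rfl this]
    simp
  have hhi : Integrable h := hwi.const_mul _
  have hki : Integrable k := (hqi' t ht0).const_mul _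
  have ha1 : ∀ y : ℝ, ‖∑ j ∈ range N, (ex (y / (t * 2 ^ j)) - ex (-(y / (t * 2 ^ j)))) *
      q (y / (t * 2 ^ j))‖ ≤ 4 * π * |y| * w y := by
    intro y
    refine (norm_sum_le _ _).trans ?_
    simp only [w, mul_sum]
    apply sum_le_sum
    intro j _
    rw [norm_mul]
    have := norm_ex_sub (y / (t * 2 ^ j))
    rw [abs_div, abs_of_pos (hL0 j)] at this
    calc _ ≤ 4 * π * (|y| / (t * 2 ^ j)) * ‖q (y / (t * 2 ^ j))‖ := by gcongr
      _ = _ := by ring
  have ha2 : ∀ y : ℝ, 4 * π * |y| * w y ≤ K := by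
    intro y
    have h1 := sum_dyadic_le (|y| / t) (by positivity) N
    have h2 : |y| * w y ≤ C * ∑ j ∈ range N, (|y| / t / 2 ^ j) / (1 + |y| / t / 2 ^ j) ^ 2 := by
      simp only [w, mul_sum]
      apply sum_le_sum
      intro j _
      have h3 := hqC (y / (t * 2 ^ j))
      rw [abs_div, abs_of_pos (hL0 j), ← div_div, ← div_div] at h3
      have hv : 0 ≤ |y| / t / 2 ^ j := by positivity
      have e : |y| * (1 / (t * 2 ^ j) * ‖q (y / (t * 2 ^ j))‖) =
          (|y| / t / 2 ^ j) * ‖q (y / t / 2 ^ j)‖ := by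
        rw [div_div, div_div]
        ring
      rw [e]
      set v := |y| / t / 2 ^ j
      rw [← mul_div_assoc, le_div_iff₀ (by positivity)]
      nlinarith [mul_le_mul_of_nonneg_left h3 hv]
    simp only [K]
    nlinarith [pi_pos, mul_le_mul_of_nonneg_left h1 hC]
  have hup : ∫⁻ x, ENNReal.ofReal (‖f x‖ ^ 2) *
          (⨆ (ω : EuclideanSpace ℝ (Fin 2)) (_ : ‖ω‖ = 1) (r : ℝ) (_ : 0 < r),
            ENNReal.ofReal (2 / r ^ 2) *
              ∫⁻ s in Set.Ioc (0 : ℝ) r, ENNReal.ofReal (strip t (x - s • ω) * s)) ≤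
      ENNReal.ofReal (D * N * t ^ 2) := by
    have e1 : ENNReal.ofReal (D * N * t ^ 2) = ∫⁻ x : E2, ENNReal.ofReal (h (x 0) * k (x 1)) := by
      rw [← ofReal_integral_eq_lintegral_ofReal (integrable_prod2 hhi hki)
        (Filter.Eventually.of_forall (fun x => by
          have := hw0 (x 0)
          simp only [h, k, Pi.zero_apply]
          positivity)), integral_prod2 h k]
      simp only [h, k]
      rw [integral_const_mul, integral_const_mul, hwI, hqI t ht0]
      congr 1
      simp only [D]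
      ring
    rw [e1]
    apply lintegral_mono
    intro x
    by_cases hx : x 0 = 0
    · have : ‖f x‖ = 0 := by
        rw [hf1]
        simp [hx]
      simp [this]
    · have hM : (⨆ (ω : EuclideanSpace ℝ (Fin 2)) (_ : ‖ω‖ = 1) (r : ℝ) (_ : 0 < r),
            ENNReal.ofReal (2 / r ^ 2) *
              ∫⁻ s in Set.Ioc (0 : ℝ) r, ENNReal.ofReal (strip t (x - s • ω) * s)) ≤
            ENNReal.ofReal (8 * t / |x 0|) :=
        iSup_le fun ω => iSup_le fun _ => iSup_le fun r => iSup_le fun hr =>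
          ray_average_le ht0 x hx ω r hr
      have hx0 : 0 < |x 0| := abs_pos.mpr hx
      calc _ ≤ ENNReal.ofReal (‖f x‖ ^ 2) * ENNReal.ofReal (8 * t / |x 0|) := by
            beta_reduce
            gcongr
        _ = ENNReal.ofReal (‖f x‖ ^ 2 * (8 * t / |x 0|)) := by
            rw [← ENNReal.ofReal_mul (by positivity)]
        _ ≤ ENNReal.ofReal (h (x 0) * k (x 1)) := by
            apply ENNReal.ofReal_le_ofReal
            rw [hf1]
            have c1 := ha1 (x 0)
            have c2 := c1.trans (ha2 (x 0))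
            have c3 := hqle (x 1 / t)
            set a := ‖∑ j ∈ range N, (ex (x 0 / (t * 2 ^ j)) - ex (-(x 0 / (t * 2 ^ j)))) *
              q (x 0 / (t * 2 ^ j))‖
            have a0 : 0 ≤ a := norm_nonneg _
            set c := ‖q (x 1 / t)‖ with hc
            have c0 : 0 ≤ c := norm_nonneg _
            have hw := hw0 (x 0)
            calc (a * c) ^ 2 * (8 * t / |x 0|) = (a * a) * (c * c) * (8 * t / |x 0|) := by ring
              _ ≤ (K * (4 * π * |x 0| * w (x 0))) * (C * c) * (8 * t / |x 0|) := by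
                  gcongr
              _ = h (x 0) * k (x 1) := by
                  simp only [h, k, ← hc]
                  field_simp
                  ring
  have hfin : ENNReal.ofReal ((N : ℝ) ^ 2 / 16 * ((ρ * t) ^ 2 * π)) ≤
      ENNReal.ofReal (A * (D * N * t ^ 2)) := by
    rw [ENNReal.ofReal_mul A.coe_nonneg, ENNReal.ofReal_coe_nnreal]
    exact hlow.trans (hmain.trans (by gcongr))
  rw [ENNReal.ofReal_le_ofReal_iff (by positivity)] at hfin
  rw [div_lt_iff₀ (by positivity)] at hN
  have hfin2 : (N : ℝ) * (ρ ^ 2 * π) ≤ 16 * A * D := by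
    have hp : 0 < (N : ℝ) * t ^ 2 := by positivity
    by_contra hc
    push Not at hc
    nlinarith [mul_lt_mul_of_pos_right hc hp]
  linarith

end Pool.Agent.Lib.MP_8ec070_an
end
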