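import Pool.Agent.Lib.MP_580eba_nt.PartII

/-!
Number fields with a real embedding, unbounded degree and bounded root discriminant.
-/

namespace Pool.Agent.MT8

open NumberField IsDedekindDomain WithZero Pool.Agent.Lib.MP_580eba_nt

section tame

variable {N : Type*} [Field N] [NumberField N]

lemma exists_approx_int (S : Finset (Pl N)) (x : Pl N → N) (hx : ∀ v, val v (x v) ≤ 1)
    (γ : Pl N → ℤᵐ⁰) (hγ : ∀ v, γ v ≠ 0) : ∃ y : 𝓞 N, ∀ v ∈ S, val v ((y : N) - x v) < γ v := by
  classical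
  have h : ∀ v : Pl N, ∃ a : 𝓞 N, val v ((a : N) - x v) < γ v := fun v =>
    v.exists_valuation_sub_lt_of_integer (hx v) (Units.mk0 (γ v) (hγ v))
  choose a ha using h
  obtain ⟨y, hy⟩ := IsDedekindDomain.exists_forall_sub_mem_ideal (s := S) (fun v => v.asIdeal)
    (fun v => (1 - log (γ v)).toNat) (fun v _ => v.prime)
    (fun v _ w _ h h' => h (HeightOneSpectrum.ext h')) (fun v => a v)
  refine ⟨y, fun v hv => ?_⟩
  have h1 := (v.intValuation_le_pow_iff_mem _ _).2 (hy v hv)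
  rw [← v.valuation_of_algebraMap (K := N)] at h1
  have h2 : val v ((y : N) - a v) < γ v := by
    refine lt_of_le_of_lt (le_of_eq_of_le (by simp) h1) ?_
    rw [← exp_log (hγ v), exp_lt_exp, log_exp]
    omega
  rw [show (y : N) - x v = ((y : N) - a v) + ((a v : N) - x v) by ring]
  exact Valuation.map_add_lt _ h2 (ha v)

lemma mem_different {a : 𝓞 N} : a ∈ differentIdeal ℤ (𝓞 N) ↔ ∀ x : N,
    (∀ y : 𝓞 N, ∃ n : ℤ, (n : ℚ) = Algebra.trace ℚ N (x * y)) → ∃ b : 𝓞 N, (b : N) = a * x := by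
  have h := coeSubmodule_differentIdeal ℤ ℚ (L := N) (𝓞 N)
  have h1 : a ∈ differentIdeal ℤ (𝓞 N) ↔
      (a : N) ∈ IsLocalization.coeSubmodule N (differentIdeal ℤ (𝓞 N)) := by
    rw [IsLocalization.mem_coeSubmodule]
    exact ⟨fun h => ⟨a, h, rfl⟩, fun ⟨b, hb, h⟩ => by
      rwa [IsFractionRing.injective (𝓞 N) N h] at hb⟩
  rw [h1, h, Submodule.mem_div_iff_forall_mul_mem]
  refine forall_congr' fun x => imp_congr ?_ ?_
  · rw [Submodule.mem_traceDual]
    constructor
    · intro h y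
      obtain ⟨n, hn⟩ := h y (Submodule.mem_one.2 ⟨y, rfl⟩)
      exact ⟨n, by simpa using hn⟩
    · intro h y hy
      obtain ⟨y, rfl⟩ := Submodule.mem_one.1 hy
      obtain ⟨n, hn⟩ := h y
      exact ⟨n, by simpa using hn⟩
  · exact Submodule.mem_one

lemma val_le_tame [IsGalois ℚ N] (hG : IsPGroup 2 (N ≃ₐ[ℚ] N)) {w : Pl N} {l : ℕ} (hl : l.Prime)
    (h2 : l ≠ 2) (hw : val w (l : N) < 1) {x : N}
    (hx : ∀ y : 𝓞 N, ∃ n : ℤ, (n : ℚ) = Algebra.trace ℚ N (x * y)) : val w (l * x) ≤ 1 := by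
  classical
  by_contra! h
  have h0 : (l : N) * x ≠ 0 := fun h0 => by simp [h0] at h
  let S : Finset (Pl N) := Finset.univ.image fun g : N ≃ₐ[ℚ] N => g⁻¹ • w
  obtain ⟨y, hy⟩ := exists_approx_int S (fun v => if v = w then ((l : N) * x)⁻¹ else 0)
    (fun v => by
      split_ifs with hv
      · rw [hv, map_inv₀]
        exact inv_le_one_of_one_le₀ h.le
      · simp)
    (fun v => (val v ((l : N) * x))⁻¹) fun v => inv_ne_zero (val_ne_zero v h0)
  have h3 : ∀ g : N ≃ₐ[ℚ] N,
      val w (g • ((l : N) * x * y) - if g⁻¹ • w = w then 1 else 0) < 1 := fun g => by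
    have h4 := hy (g⁻¹ • w) (Finset.mem_image_of_mem _ (Finset.mem_univ g))
    have h5 : val (g⁻¹ • w) ((l : N) * x * ((y : N) - if g⁻¹ • w = w then ((l : N) * x)⁻¹ else 0))
        < 1 := by
      rw [map_mul, mul_comm, ← lt_div_iff₀ (val_pos _ h0), one_div]
      exact h4
    rw [← val_smul'] at h5
    convert h5 using 2
    split_ifs
    · rw [mul_sub, mul_inv_cancel₀ h0, smul_sub, smul_one]
    · rw [sub_zero, sub_zero]
  obtain ⟨n, hn⟩ := hx y
  have h4 := trace_eq_sum_automorphisms (K := ℚ) (x * y)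
  rw [← hn] at h4
  have h5 : ∑ g : N ≃ₐ[ℚ] N, (g • ((l : N) * x * y) - if g⁻¹ • w = w then 1 else 0) =
      ((l * n - Nat.card (MulAction.stabilizer (N ≃ₐ[ℚ] N) w) : ℤ) : N) := by
    rw [Finset.sum_sub_distrib, Finset.sum_boole]
    push_cast
    congr 1
    · rw [show (n : N) = algebraMap ℚ N (n : ℚ) by simp, h4, Finset.mul_sum]
      refine Finset.sum_congr rfl fun g _ => ?_
      rw [mul_assoc, AlgEquiv.smul_def, map_mul, map_natCast]
    · rw [Nat.card_eq_fintype_card, Fintype.card_subtype]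
      congr 2
      ext g
      simp only [Finset.mem_filter, Finset.mem_univ, true_and, MulAction.mem_stabilizer_iff,
        inv_smul_eq_iff]
      exact eq_comm
  have h6 := Valuation.map_sum_lt (val w) one_ne_zero (s := Finset.univ) fun g _ => h3 g
  rw [h5, val_int_lt_iff hl hw, dvd_sub_right (Dvd.intro _ rfl), Int.natCast_dvd_natCast] at h6
  have : Fact (Nat.Prime 2) := ⟨Nat.prime_two⟩
  obtain ⟨e, he⟩ := IsPGroup.iff_card.1 (hG.to_subgroup (MulAction.stabilizer (N ≃ₐ[ℚ] N) w))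
  rw [he] at h6
  exact h2 ((Nat.prime_dvd_prime_iff_eq hl Nat.prime_two).1 (hl.dvd_of_dvd_pow h6))

theorem discr_le [IsGalois ℚ N] (hG : IsPGroup 2 (N ≃ₐ[ℚ] N)) {m : ℕ} (hm : Odd m)
    (hu : ∀ w : Pl N, val w (m : N) = 1 → In (N ≃ₐ[ℚ] N) w = ⊥) :
    (discr N).natAbs ≤ m ^ Module.finrank ℚ N := by
  have h1 : (m : 𝓞 N) ∈ differentIdeal ℤ (𝓞 N) := mem_different.2 fun x hx => by
    refine HeightOneSpectrum.mem_integers_of_valuation_le_one N _ fun w => ?_
    change val w ((m : N) * x) ≤ 1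
    rcases (val_natCast_le w m).eq_or_lt with h | h
    · have := w.isPrime
      have h3 : Algebra.IsUnramifiedAt (𝓞 ℚ) w.asIdeal := (In_eq_bot_iff (K := ℚ) _ w).1 (hu w h)
      have : Algebra.FormallyUnramified ℤ (𝓞 ℚ) := .of_surjective (Algebra.ofId ℤ _) fun x =>
        ⟨Rat.ringOfIntegersEquiv x, by
          rw [← Rat.ringOfIntegersEquiv.symm_apply_apply x, RingEquiv.apply_symm_apply]; simp⟩
      have h4 : Algebra.IsUnramifiedAt ℤ w.asIdeal := Algebra.FormallyUnramified.comp ℤ (𝓞 ℚ) _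
      rw [← not_dvd_differentIdeal_iff, Ideal.dvd_iff_le, SetLike.not_le_iff_exists] at h4
      obtain ⟨d, hd, hd'⟩ := h4
      obtain ⟨b, hb⟩ := mem_different.1 hd x hx
      have h5 := val_int_le w b
      rw [hb, map_mul, le_antisymm (val_int_le w d) (not_lt.1 fun h => hd' ((val_int_lt w d).1 h))]
        at h5
      rwa [map_mul, h]
    · obtain ⟨l, hl, hw⟩ := exists_prime w
      have h3 : l ∣ m := by
        have := (val_int_lt_iff hl hw (a := m)).1 (by simpa using h)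
        exact_mod_cast this
      obtain ⟨c, rfl⟩ := h3
      have h4 := val_le_tame hG hl (by rintro rfl; exact (Nat.not_odd_iff_even.2 (by simp)) hm) hw hx
      rw [Nat.cast_mul, mul_right_comm, map_mul]
      exact mul_le_one' h4 (val_natCast_le w c)
  have h2 := Ideal.absNorm_dvd_absNorm_of_le ((Ideal.span_singleton_le_iff_mem _).2 h1)
  rw [absNorm_differentIdeal N, Ideal.absNorm_span_natCast, RingOfIntegers.rank] at h2
  exact Nat.le_of_dvd (pow_pos hm.pos _) h2

theorem exists_real [IsGalois ℚ N] : ∃ K : IntermediateField ℚ N, Nonempty (K →+* ℝ) ∧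
    Module.finrank ℚ N ≤ 2 * Module.finrank ℚ K := by
  obtain ⟨φ⟩ : Nonempty (N →+* ℂ) := inferInstance
  obtain ⟨σ, hσ⟩ := exists_res (k := ℚ) (G := RingAut ℂ) φ starRingAut fun x => by
    simp [RingAut.smul_def]
  have h1 : ∀ x, φ (σ x) = starRingEnd ℂ (φ x) := hσ
  have h2 : σ ^ 2 = 1 := AlgEquiv.ext fun x => φ.injective (by simp [sq, h1])
  let K := IntermediateField.fixedField (Subgroup.zpowers σ)
  refine ⟨K, ⟨(show ComplexEmbedding.IsReal (φ.comp (algebraMap K N)) from ?_).embedding⟩, ?_⟩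
  · rw [ComplexEmbedding.isReal_iff]
    ext x
    have h3 := (IntermediateField.mem_fixedField_iff _ _).1 x.2 σ (Subgroup.mem_zpowers σ)
    change starRingEnd ℂ (φ x) = φ x
    rw [← h1, h3]
  · rw [← Module.finrank_mul_finrank ℚ K N, mul_comm, IntermediateField.finrank_fixedField_eq_card,
      Nat.card_zpowers]
    exact Nat.mul_le_mul_right _ (orderOf_le_of_pow_eq_one two_pos h2)

theorem exists_field {N : Type} [Field N] [NumberField N] {inst : Algebra ℚ N}
    (hN : IsGalois ℚ N) (hG : IsPGroup 2 (N ≃ₐ[ℚ] N)) {m : ℕ} (hm : Odd m)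
    (hu : ∀ w : Pl N, val w (m : N) = 1 → In (N ≃ₐ[ℚ] N) w = ⊥) {B : ℕ}
    (hB : 2 * B ≤ Module.finrank ℚ N) :
    ∃ (K : Type) (_ : Field K) (_ : NumberField K), Nonempty (K →+* ℝ) ∧ B ≤ Module.finrank ℚ K ∧
      (discr K).natAbs ≤ (m ^ 2) ^ Module.finrank ℚ K := by
  obtain rfl : inst = DivisionRing.toRatAlgebra := Subsingleton.elim _ _
  obtain ⟨K, h1, h2⟩ := exists_real (N := N)
  refine ⟨K, inferInstance, inferInstance, h1, by omega, ?_⟩
  refine (Nat.le_of_dvd (Int.natAbs_pos.2 (discr_ne_zero N))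
    (Int.natAbs_dvd_natAbs.2 (discr_dvd_discr K N))).trans ((discr_le hG hm hu).trans ?_)
  rw [← pow_mul]
  exact Nat.pow_le_pow_right hm.pos h2

end tame

open IntermediateField

theorem tower_aux {k : Type} [Field k] [NumberField k] (h2 : Module.finrank ℚ k = 2) {θ : k} {D : ℕ}
    (hθ : θ ^ 2 = -D) (h4 : D % 4 = 3) {P : Pl k} (hP : val P (D : k) < 1)
    (hinf : ¬ FiniteDimensional k (maxTwoExt k {P.asIdeal})) (Q : Type) [Field Q] [NumberField Q]
    [Algebra Q k] (B : ℕ) : ∃ (N : IntermediateField Q (AlgebraicClosure k))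
      (_ : FiniteDimensional Q N), IsGalois Q N ∧ IsPGroup 2 (N ≃ₐ[Q] N) ∧
        (∀ w : Pl N, val w (D : N) = 1 → In (N ≃ₐ[Q] N) w = ⊥) ∧ B ≤ Module.finrank Q N := by
  let Ω := AlgebraicClosure k
  have hD : D ≠ 0 := by omega
  obtain ⟨L, hL, hB⟩ : ∃ L, IsTwoExt k {P.asIdeal} L ∧ B < Module.finrank k L := by
    by_contra! h
    exact hinf (isTwoExt_max_of_bdd h).1
  have := hL.1
  have := hL.2.1
  have := finite_res (Q := Q) L
  let N := normalClosure Q (L.restrictScalars Q) Ω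
  have hfin : FiniteDimensional Q N := inferInstance
  have hgal : IsGalois Q N := IsGalois.mk
  have hle : L.restrictScalars Q ≤ N := IntermediateField.le_normalClosure _
  let t : N := ⟨algebraMap k Ω θ, hle (L.algebraMap_mem θ)⟩
  have ht : t ^ 2 = -D := Subtype.ext (by
    change algebraMap k Ω θ ^ 2 = _
    rw [← map_pow, hθ]
    simp)
  have h1 : ∀ g : N ≃ₐ[Q] N, (∀ (f : L →+* N) x, g (f x) = f x) → g = 1 := fun g h => by
    refine eq_one_of_le_fixF (normalClosure_le_iff.2 fun f => ?_)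
    rintro _ ⟨x, rfl⟩
    exact (mem_fixF _).2 (h ((f : L.restrictScalars Q →+* Ω).codRestrict N fun y =>
      f.fieldRange_le_normalClosure ⟨y, rfl⟩) x)
  have h3 : ∀ g : N ≃ₐ[Q] N, g • t = t →
      ∀ f : L →+* N, ∃ g' : L ≃ₐ[k] L, ∀ x, f (g' • x) = g • f x := by
    intro g hg f
    have h4 : f (algebraMap k L θ) ^ 2 = t ^ 2 := by
      rw [← map_pow, ← map_pow, hθ, ht]
      simp
    have h5 : g • f (algebraMap k L θ) = f (algebraMap k L θ) := by
      rcases sq_eq_sq_iff_eq_or_eq_neg.1 h4 with h | h <;> simp only [h, smul_neg, hg]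
    exact exists_res f g (DFunLike.congr_fun (quad_ext h2 hD hθ
      (φ := (MulSemiringAction.toRingHom _ _ g).comp (f.comp (algebraMap k L)))
      (ψ := f.comp (algebraMap k L)) h5))
  refine ⟨N, hfin, hgal, fun g => ?_, fun w hw => (Subgroup.eq_bot_iff_forall _).2 fun g hg => ?_, ?_⟩
  · obtain ⟨n, hn⟩ := hL.2.2.1
    have h5 : g ^ 2 • t = t := by
      rcases smul_eq_or (smul_sq_neg_nat ht g) with h | h <;>
        simp only [sq, mul_smul, h, smul_neg, neg_neg]
    refine ⟨n + 1, ?_⟩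
    rw [pow_succ', pow_mul]
    refine h1 _ fun f x => ?_
    obtain ⟨g', h6⟩ := h3 (g ^ 2) h5 f
    have := res_pow h6 (2 ^ n) x
    rw [← hn, ← IsGalois.card_aut_eq_finrank, pow_card_eq_one', one_smul,
      IsGalois.card_aut_eq_finrank, hn] at this
    exact this.symm
  · have h5 : g • t = t := by
      refine In_fix_of_sq hg (smul_sq_neg_nat ht g) (by rw [ht, Valuation.map_neg, hw]) ?_
      have h6 : (D : N) = 4 * (D / 4 : ℕ) + 3 := by
        conv_lhs => rw [← Nat.div_add_mod D 4, h4]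
        push_cast; ring
      rw [ht, h6, show -(4 * ((D / 4 : ℕ) : N) + 3) - 1 = -(4 * ((D / 4 + 1 : ℕ) : N)) by
        push_cast; ring, Valuation.map_neg, map_mul]
      exact mul_le_of_le_one_right' (val_natCast_le w _)
    refine h1 g fun f x => ?_
    obtain ⟨g', h6⟩ := h3 g h5 f
    have h7 := res_mem_In h6 hg
    rw [(isTwoExt_iff.1 hL).2 _ fun h => ?_, Subgroup.mem_bot] at h7
    · have := h6 x
      rw [h7, one_smul] at this
      exact this.symm
    · rw [← HeightOneSpectrum.ext (Set.mem_singleton_iff.1 h), ← val_map_lt_one, val_pull_lt,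
        map_natCast, map_natCast, hw] at hP
      exact lt_irrefl _ hP
  · refine hB.le.trans (le_trans ?_ (finrank_le_of_le_right (F := L.restrictScalars Q) hle))
    exact (Nat.le_mul_of_pos_left _ Module.finrank_pos).trans_eq (Module.finrank_mul_finrank Q k L)

theorem tower : ∃ m : ℕ, ∀ B : ℕ, ∃ (K : Type) (_ : Field K) (_ : NumberField K),
    Nonempty (K →+* ℝ) ∧ B ≤ Module.finrank ℚ K ∧
      (NumberField.discr K).natAbs ≤ m ^ Module.finrank ℚ K := by
  obtain ⟨k, _, _, inst, Q₀, h⟩ := exists_QD (K := ℚ)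
    (Units.mk0 (-(∏ i, exq i : ℕ)) (by decide +kernel))
    (by rintro ⟨r, hr⟩; exact absurd (hr ▸ mul_self_nonneg r) (by decide +kernel))
  obtain rfl : inst = DivisionRing.toRatAlgebra := Subsingleton.elim _ _
  have hD : (Q₀.a : ℚ) = -(∏ i, exq i : ℕ) := congrArg Units.val h
  obtain ⟨P, hP⟩ := exists_pl k Nat.prime_three
  have h1 := partII pat_exq (by decide +kernel) Q₀ hD P.isPrime P.ne_bot fun h => by
    have := (val_int_lt_iff Nat.prime_three hP (a := 2)).1 (by
      rw [Int.cast_ofNat]; exact (val_int_lt _ 2).2 h)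
    omega
  refine ⟨(∏ i, exq i) ^ 2, fun B => ?_⟩
  obtain ⟨N, _, h2, h3, h4, h5⟩ := tower_aux Q₀.finrank (θ := Q₀.r) (D := ∏ i, exq i)
    (by rw [Q₀.sq, hD, map_neg, map_natCast]) (by decide +kernel) (P := P)
    (by
      have := (val_int_lt_iff Nat.prime_three hP (a := (∏ i, exq i : ℕ))).2 (by decide +kernel)
      simpa only [Int.cast_natCast] using this) h1 ℚ (2 * B)
  exact exists_field h2 h3 (by decide +kernel) h4 h5

end Pool.Agent.MT8
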